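import Pool.Agent.N66.TA.Stm2

set_option autoImplicit false

/-! Project TA, leaf ART: the braid relations of the twists `a_m` (helper427, after
`Pool/Agent/R665/MGR/Hum.lean`). -/

namespace Pool.Agent.N66.TA.ART

open Pool.Agent.N66.TA
open Pool.Agent.H29R2.MG Pool.Agent.H798R3.MG

section
variable {g : ℕ}

theorem hA_fa (m : ℕ) (i : Fin g) : hA g m (fa i) = fa i := by
  conv_lhs => rw [fa]
  simp [hA, ends]

theorem hA_fb (m : ℕ) (i : Fin g) :
    hA g m (fb i) = if (i : ℕ) = m then fb i * fa i else fb i := by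
  conv_lhs => rw [fb]
  by_cases h : (i : ℕ) = m
  · subst h
    simp [hA, ends, ha]
  · simp [hA, ends, h]

theorem hA_ee (m : ℕ) (i : Fin g) : hA g m (ee i) = ee i := by
  unfold ee
  rw [map_mul, hA_fa]
  congr 1
  by_cases h : 0 < (i : ℕ)
  · rw [dif_pos h, map_mul, map_mul, map_inv, map_inv, hA_fa, hA_fb]
    split_ifs
    · group
    · rfl
  · rw [dif_neg h, map_one]

theorem hA_fv (m₀ : ℕ) (j : Fin (2 * g)) (hj : (j : ℕ) ≠ 2 * m₀ + 1) :
    (hA g m₀).comp (fv j) = (fv j).comp (hA g m₀) := by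
  by_cases h2 : (j : ℕ) % 2 = 0
  · have e : fv j = stepE ⟨j / 2, by omega⟩ (ee ⟨j / 2, by omega⟩) := by
      unfold fv; rw [if_pos h2]
    generalize (⟨(j : ℕ) / 2, by omega⟩ : Fin g) = i at e
    rw [e]
    have hx := hA_ee m₀ i
    generalize ee i = x at hx
    apply free_ext
    · intro m
      rw [MonoidHom.comp_apply, MonoidHom.comp_apply, hA_fa, stepE_fa]
      by_cases h3 : m = i
      · rw [if_pos h3, map_mul, map_mul, map_inv, hx, hA_fa]
      · rw [if_neg h3, hA_fa]
    · intro m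
      rw [MonoidHom.comp_apply, MonoidHom.comp_apply, hA_fb, stepE_fb]
      by_cases h1 : (m : ℕ) = m₀
      · rw [if_pos h1, map_mul, stepE_fb, stepE_fa]
        by_cases h3 : m = i
        · rw [if_pos h3, if_pos h3, map_mul, hA_fb, if_pos h1, hx]
          group
        · rw [if_neg h3, if_neg h3]
          by_cases h4 : (m : ℕ) + 1 = i
          · rw [if_pos h4, map_mul, map_inv, hx, hA_fb, if_pos h1]
            group
          · rw [if_neg h4, hA_fb, if_pos h1]
      · rw [if_neg h1, stepE_fb]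
        by_cases h3 : m = i
        · rw [if_pos h3, map_mul, hA_fb, if_neg h1, hx]
        · rw [if_neg h3]
          by_cases h4 : (m : ℕ) + 1 = i
          · rw [if_pos h4, map_mul, map_inv, hx, hA_fb, if_neg h1]
          · rw [if_neg h4, hA_fb, if_neg h1]
  · have e : fv j = stepA ⟨j / 2, by omega⟩ (fb ⟨j / 2, by omega⟩) := by
      unfold fv; rw [if_neg h2]
    have hi : ((⟨(j : ℕ) / 2, by omega⟩ : Fin g) : ℕ) ≠ m₀ := by
      show (j : ℕ) / 2 ≠ m₀
      omega
    generalize (⟨(j : ℕ) / 2, by omega⟩ : Fin g) = i at e hi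
    rw [e]
    apply free_ext
    · intro m
      rw [MonoidHom.comp_apply, MonoidHom.comp_apply, hA_fa, stepA_fa]
      by_cases h3 : m = i
      · rw [if_pos h3, map_mul, map_inv, hA_fa, hA_fb, if_neg hi]
      · rw [if_neg h3, hA_fa]
    · intro m
      rw [MonoidHom.comp_apply, MonoidHom.comp_apply, hA_fb, stepA_fb, hA_fb]
      by_cases h1 : (m : ℕ) = m₀
      · have h3 : m ≠ i := fun e => hi (e ▸ h1)
        rw [if_pos h1, map_mul, stepA_fb, stepA_fa, if_neg h3]
      · rw [if_neg h1, stepA_fb]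

theorem hA_braid (m₀ : ℕ) (j : Fin (2 * g)) (hj : (j : ℕ) = 2 * m₀ + 1) :
    (fv j).comp ((hA g m₀).comp (fv j)) = (hA g m₀).comp ((fv j).comp (hA g m₀)) := by
  have e : fv j = stepA ⟨j / 2, by omega⟩ (fb ⟨j / 2, by omega⟩) := by
    unfold fv; rw [if_neg (by omega)]
  have hi : ((⟨(j : ℕ) / 2, by omega⟩ : Fin g) : ℕ) = m₀ := by
    show (j : ℕ) / 2 = m₀
    omega
  generalize (⟨(j : ℕ) / 2, by omega⟩ : Fin g) = i at e hi
  rw [e]
  apply free_ext
  · intro m
    simp only [MonoidHom.comp_apply]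
    rw [hA_fa, stepA_fa]
    by_cases h3 : m = i
    · subst h3
      rw [if_pos rfl, map_mul, map_inv, hA_fa, hA_fb, if_pos hi, map_mul, map_inv, map_mul,
        stepA_fa, if_pos rfl, stepA_fb]
      group
    · rw [if_neg h3, hA_fa, stepA_fa, if_neg h3]
  · intro m
    simp only [MonoidHom.comp_apply]
    rw [hA_fb, stepA_fb, hA_fb]
    by_cases h1 : (m : ℕ) = m₀
    · have h3 : m = i := Fin.ext (h1.trans hi.symm)
      subst h3
      rw [if_pos h1, map_mul, stepA_fb, stepA_fa, if_pos rfl, map_mul, map_mul, map_inv, hA_fa,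
        hA_fb, if_pos h1]
      group
    · rw [if_neg h1, stepA_fb, hA_fb, if_neg h1]

theorem hA_comm (m l : ℕ) : (hA g m).comp (hA g l) = (hA g l).comp (hA g m) := by
  apply free_ext
  · intro i
    rw [MonoidHom.comp_apply, MonoidHom.comp_apply, hA_fa, hA_fa, hA_fa]
  · intro i
    rw [MonoidHom.comp_apply, MonoidHom.comp_apply, hA_fb, hA_fb]
    by_cases h1 : (i : ℕ) = l
    · by_cases h2 : (i : ℕ) = m
      · rw [if_pos h1, if_pos h2, map_mul, map_mul, hA_fa, hA_fa, hA_fb, hA_fb, if_pos h1,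
          if_pos h2]
      · rw [if_pos h1, if_neg h2, map_mul, hA_fa, hA_fb, hA_fb, if_neg h2, if_pos h1]
    · by_cases h2 : (i : ℕ) = m
      · rw [if_neg h1, if_pos h2, map_mul, hA_fa, hA_fb, hA_fb, if_neg h1, if_pos h2]
      · rw [if_neg h1, if_neg h2, hA_fb, hA_fb, if_neg h1, if_neg h2]

theorem hA_zero (hg : 1 ≤ g) : hA g 0 = fv (⟨0, by omega⟩ : Fin (2 * g)) := by
  have e : fv (⟨0, by omega⟩ : Fin (2 * g)) = stepE ⟨0, by omega⟩ (fa ⟨0, by omega⟩) := by
    unfold fv
    rw [if_pos (by simp)]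
    have : ee (⟨0, by omega⟩ : Fin g) = fa ⟨0, by omega⟩ := by
      unfold ee
      rw [dif_neg (by simp), one_mul]
    simp only [Nat.zero_div, this]
  rw [e]
  apply free_ext
  · intro i
    rw [hA_fa, stepE_fa]
    split_ifs with h
    · rw [h, inv_mul_cancel, one_mul]
    · rfl
  · intro i
    rw [hA_fb, stepE_fb]
    by_cases h : (i : ℕ) = 0
    · have h' : i = ⟨0, by omega⟩ := Fin.ext h
      rw [if_pos h', if_pos h, ← h']
    · have h' : i ≠ ⟨0, by omega⟩ := fun e => h (by rw [e])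
      rw [if_neg h', if_neg h, if_neg (by simp)]

end

theorem t_ART : S_ART := by
  intro g c a hg hstd
  have hc := hstd.hc
  have ha := hstd.ha
  refine ⟨?_, ?_, ?_, ?_, ?_, ?_⟩
  · intro j hj
    rw [hc j (by omega), hc (j + 1) hj]
    exact sv_braid ⟨j, by omega⟩ ⟨j + 1, hj⟩ rfl
  · intro i j hij hj
    rw [hc i (by omega), hc j hj]
    exact sv_far ⟨i, by omega⟩ ⟨j, hj⟩ hij
  · intro m hm
    rw [hc (2 * m + 1) (by omega)]
    have h1 := hA_braid (g := g) m ⟨2 * m + 1, by omega⟩ rfl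
    apply MulEquiv.ext
    intro y
    obtain ⟨x, rfl⟩ := mk_surjective g y
    have hm' := ha m hm
    unfold IsEnd at hm'
    simp only [MulAut.mul_apply, sv_mk, hm']
    have := DFunLike.congr_fun h1 x
    simp only [MonoidHom.comp_apply] at this
    rw [this]
  · intro m hm j hj hne
    rw [hc j hj]
    have h1 := hA_fv (g := g) m ⟨j, hj⟩ hne
    show a m * sv ⟨j, hj⟩ = sv ⟨j, hj⟩ * a m
    apply MulEquiv.ext
    intro y
    obtain ⟨x, rfl⟩ := mk_surjective g y
    have hm' := ha m hm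
    unfold IsEnd at hm'
    simp only [MulAut.mul_apply, sv_mk, hm']
    have := DFunLike.congr_fun h1 x
    simp only [MonoidHom.comp_apply] at this
    rw [this]
  · intro m hm l hl
    have h1 := hA_comm (g := g) m l
    show a m * a l = a l * a m
    apply MulEquiv.ext
    intro y
    obtain ⟨x, rfl⟩ := mk_surjective g y
    have hm' := ha m hm
    have hl' := ha l hl
    unfold IsEnd at hm' hl'
    simp only [MulAut.mul_apply, hm', hl']
    have := DFunLike.congr_fun h1 x
    simp only [MonoidHom.comp_apply] at this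
    rw [this]
  · rw [hc 0 (by omega)]
    apply MulEquiv.ext
    intro y
    obtain ⟨x, rfl⟩ := mk_surjective g y
    have hm' := ha 0 (by omega)
    unfold IsEnd at hm'
    rw [hm', sv_mk, hA_zero hg]

end Pool.Agent.N66.TA.ART
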