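import Mathlib

set_option autoImplicit false

/-! Project TA: complete reducibility of the representations of `Mod_g` of dimension less than
`binom (g - 5) 2`. Abstract definitions and the statements of the leaves (linear algebra). -/

namespace Pool.Agent.N66.TA

universe u

section group
variable {G : Type*} [Group G]

/-- `c_i c_{i+1} ⋯ c_{i+n-1}` -/
def cp (c : ℕ → G) (i : ℕ) : ℕ → G
  | 0 => 1
  | n + 1 => cp c i n * c (i + n)

/-- `a b a` -/
def Rw (a b : G) : G := a * b * a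

/-- `(a b a)^4` -/
def Qw (a b : G) : G := (Rw a b * Rw a b) * (Rw a b * Rw a b)

/-- the Garside element of a chain of length five -/
def Sw (a b t b' a' : G) : G :=
  (a * b * t * b' * a') * (a * b * t * b') * (a * b * t) * (a * b) * a

/-- the twist about the sum of `a_i` and `a_{i+1}`: a conjugate of `c_{2i+2}`; here `c_{2i+1}` is the
twist about `b_i` -/
def TT (c a : ℕ → G) (i : ℕ) : G :=
  (Rw (a i) (c (2 * i + 1)) * Rw (a i) (c (2 * i + 1))) * c (2 * i + 2) *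
    (Rw (a i) (c (2 * i + 1)) * Rw (a i) (c (2 * i + 1)))⁻¹

/-- the exchange of the handles `i` and `i + 1` -/
def Si (c a : ℕ → G) (i : ℕ) : G :=
  Sw (a i) (c (2 * i + 1)) (TT c a i) (c (2 * i + 3)) (a (i + 1))

/-- the twist about the boundary of the handle `i` -/
def Qi (c a : ℕ → G) (i : ℕ) : G := Qw (a i) (c (2 * i + 1))

/-- the element of the lantern relation -/
def Li (c a : ℕ → G) (i : ℕ) (D : G) : G :=
  TT c a i * TT c a (i + 1) * D * (a i * a (i + 1) * a (i + 2))⁻¹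

/-- the relations of three consecutive handles; `D` is the twist about the sum of `a_i` and
`a_{i+2}` -/
structure KRel (c a : ℕ → G) (i : ℕ) (D : G) : Prop where
  d1 : Si c a (i + 1) * D * Qi c a (i + 1) =
    Qi c a (i + 1) * TT c a i * (Qi c a (i + 1))⁻¹ * Si c a (i + 1) * Qi c a (i + 1)
  d2 : Qi c a i * D * (Qi c a i)⁻¹ * Si c a i = Si c a i * TT c a (i + 1)
  lan : Li c a i D * c (2 * i + 1) * Li c a i D = c (2 * i + 1) * Li c a i D * c (2 * i + 1)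

/-- the braid relations between the twists of the chain `c_0, …, c_{2g-1}` and the twists `a_m`,
`m < g` -/
structure LickRel (g : ℕ) (c a : ℕ → G) : Prop where
  braid : ∀ j, j + 1 < 2 * g → c j * c (j + 1) * c j = c (j + 1) * c j * c (j + 1)
  far : ∀ i j, i + 2 ≤ j → j < 2 * g → Commute (c i) (c j)
  braidA : ∀ m < g, c (2 * m + 1) * a m * c (2 * m + 1) = a m * c (2 * m + 1) * a m
  farA : ∀ m < g, ∀ j < 2 * g, j ≠ 2 * m + 1 → Commute (a m) (c j)
  commA : ∀ m < g, ∀ l < g, Commute (a m) (a l)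
  a0 : a 0 = c 0

end group

section lin
variable {K V : Type*} [Field K] [AddCommGroup V] [Module K V]

/-- the relations between the operators `N_j = c_j - 1`, `A_m = a_m - 1` -/
structure ORel (g : ℕ) (N A : ℕ → Module.End K V) : Prop where
  sq : ∀ j < 2 * g, ∀ v, N j (N j v) = 0
  far : ∀ i j, i + 2 ≤ j → j < 2 * g → ∀ v, N j (N i v) = 0
  far' : ∀ i j, i + 2 ≤ j → j < 2 * g → ∀ v, N i (N j v) = 0
  br : ∀ j, j + 1 < 2 * g → ∀ v,
    N j v + N j (N (j + 1) (N j v)) = N (j + 1) v + N (j + 1) (N j (N (j + 1) v))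
  sqA : ∀ m < g, ∀ v, A m (A m v) = 0
  AA : ∀ m < g, ∀ l < g, m ≠ l → ∀ v, A m (A l v) = 0
  farA : ∀ m < g, ∀ j < 2 * g, j ≠ 2 * m + 1 → ∀ v, A m (N j v) = 0
  farA' : ∀ m < g, ∀ j < 2 * g, j ≠ 2 * m + 1 → ∀ v, N j (A m v) = 0
  brA : ∀ m < g, ∀ v, N (2 * m + 1) v + N (2 * m + 1) (A m (N (2 * m + 1) v)) =
    A m v + A m (N (2 * m + 1) (A m v))
  a0 : A 0 = N 0
  uu : ∀ j, j + 1 < 2 * g → ∀ v, N j v + N j (N (j + 1) (N j v)) = N 0 v + N 0 (N 1 (N 0 v))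
  uuA : ∀ m < g, ∀ v, A m v + A m (N (2 * m + 1) (A m v)) = N 0 v + N 0 (N 1 (N 0 v))

/-- the invariant vectors -/
def V0 (g : ℕ) (N A : ℕ → Module.End K V) : Submodule K V where
  carrier := {v | (∀ j < 2 * g, N j v = 0) ∧ ∀ m < g, A m v = 0}
  zero_mem' := ⟨fun j _ => map_zero _, fun m _ => map_zero _⟩
  add_mem' := by
    rintro v w ⟨h1, h2⟩ ⟨h3, h4⟩
    refine ⟨fun j hj => ?_, fun m hm => ?_⟩
    · rw [map_add, h1 j hj, h3 j hj, add_zero]
    · rw [map_add, h2 m hm, h4 m hm, add_zero]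
  smul_mem' := by
    rintro r v ⟨h1, h2⟩
    refine ⟨fun j hj => ?_, fun m hm => ?_⟩
    · rw [map_smul, h1 j hj, smul_zero]
    · rw [map_smul, h2 m hm, smul_zero]

/-- the span of the images -/
def V1 (g : ℕ) (N A : ℕ → Module.End K V) : Submodule K V :=
  Submodule.span K {v | ∃ u, (∃ j < 2 * g, v = N j u) ∨ ∃ m < g, v = A m u}

/-- the operators `w_0 = N_0`, `w_{j+1} = - N_{j+1} w_j` -/
def wl (N : ℕ → Module.End K V) : ℕ → Module.End K V
  | 0 => N 0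
  | j + 1 => -(N (j + 1) * wl N j)

/-- `α_m = A_m w_{2m+1} - (w_0 + w_2 + ⋯ + w_{2m})` -/
def alp (N A : ℕ → Module.End K V) (m : ℕ) (y : V) : V :=
  A m (wl N (2 * m + 1) y) - ∑ i ∈ Finset.range (m + 1), wl N (2 * i) y

/-- the relations between vectors `w_j`, `j < 2 g`, and invariant vectors `α_m` -/
structure Vec (g : ℕ) (N A : ℕ → Module.End K V) (w al : ℕ → V) : Prop where
  up : ∀ j, j + 1 < 2 * g → N (j + 1) (w j) = - w (j + 1)
  dn : ∀ j, j + 1 < 2 * g → N j (w (j + 1)) = w j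
  fr : ∀ i < 2 * g, ∀ j < 2 * g, i ≠ j + 1 → j ≠ i + 1 → N i (w j) = 0
  Aw : ∀ m < g, ∀ j < 2 * g, j ≠ 2 * m + 1 → A m (w j) = 0
  Ab : ∀ m < g, A m (w (2 * m + 1)) = al m + ∑ i ∈ Finset.range (m + 1), w (2 * i)
  Nal : ∀ m < g, ∀ j < 2 * g, N j (al m) = 0
  Aal : ∀ m < g, ∀ l < g, A l (al m) = 0
  al0 : al 0 = 0

/-- the dual representation -/
def dr {G : Type*} [Group G] (ρ : G →* Module.End K V) : G →* Module.End K (Module.Dual K V) where
  toFun x := (ρ x⁻¹).dualMap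
  map_one' := by
    rw [inv_one, map_one]
    exact LinearMap.dualMap_id
  map_mul' x y := by
    rw [mul_inv_rev, map_mul]
    exact (LinearMap.dualMap_comp_dualMap (ρ x⁻¹) (ρ y⁻¹)).symm

theorem dr_apply {G : Type*} [Group G] (ρ : G →* Module.End K V) (x : G) (ξ : Module.Dual K V)
    (v : V) : dr ρ x ξ v = ξ (ρ x⁻¹ v) := rfl

/-- the operators `c_j - 1` -/
def op {G : Type*} [Group G] (ρ : G →* Module.End K V) (c : ℕ → G) (j : ℕ) : Module.End K V :=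
  ρ (c j) - 1

end lin

/-- leaf OREL -/
def S_OREL : Prop := ∀ (g : ℕ) (G : Type) [Group G] (K V : Type u) [Field K] [AddCommGroup V]
  [Module K V] (c a : ℕ → G) (ρ : G →* Module.End K V), 3 ≤ g → LickRel g c a →
    (ρ (c 0) - 1) * (ρ (c 0) - 1) = 0 → (ρ (a 1) - 1) * (ρ (c 0) - 1) = 0 →
    ORel g (op ρ c) (op ρ a)

/-- leaf BAS -/
def S_BAS : Prop := ∀ (g : ℕ) (K V : Type u) [Field K] [AddCommGroup V] [Module K V]
  (N A : ℕ → Module.End K V), 3 ≤ g → ORel g N A →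
    (∀ y ∈ V1 g N A, Vec g N A (fun j => wl N j y) (fun m => alp N A m y)) ∧
    (∀ j < 2 * g, ∀ y ∈ V1 g N A, ∃ z ∈ V1 g N A, N j y = wl N j z) ∧
    (∀ v, N 0 v + N 0 (N 1 (N 0 v)) ∈ V0 g N A) ∧
    (∀ y ∈ V1 g N A, N 0 y + N 0 (N 1 (N 0 y)) = 0) ∧
    (∀ j < 2 * g, ∀ y, wl N j y ∈ V1 g N A)

/-- leaf CLO: the closed relation -/
def S_CLO : Prop := ∀ (g : ℕ) (G : Type) [Group G] (K V : Type u) [Field K] [AddCommGroup V]
  [Module K V] (c a : ℕ → G) (ρ : G →* Module.End K V) (w al : ℕ → V), 2 ≤ g →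
    Vec g (op ρ c) (op ρ a) w al →
    (cp c 2 (2 * g - 2) * a (g - 1)) ^ (2 * g) = c 0 * c 0 → al (g - 1) + al (g - 1) = 0

/-- leaf DD: the two expressions of the twist `D` -/
def S_DD : Prop := ∀ (g : ℕ) (G : Type) [Group G] (K V : Type u) [Field K] [AddCommGroup V]
  [Module K V] (c a : ℕ → G) (ρ : G →* Module.End K V) (w al : ℕ → V) (i : ℕ) (D : G),
    i + 2 < g → Vec g (op ρ c) (op ρ a) w al → KRel c a i D →
    al (i + 2) - al (i + 1) = al (i + 1) - al i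

/-- leaf UZ: the lantern relation -/
def S_UZ : Prop := ∀ (g : ℕ) (G : Type) [Group G] (K V : Type u) [Field K] [AddCommGroup V]
  [Module K V] (c a : ℕ → G) (ρ : G →* Module.End K V) (D : G), 3 ≤ g → S_BAS.{u} →
    ORel g (op ρ c) (op ρ a) → KRel c a 0 D →
    (∀ y ∈ V1 g (op ρ c) (op ρ a), ∀ m < g, alp (op ρ c) (op ρ a) m y = 0) →
    ∀ v, op ρ c 0 v + op ρ c 0 (op ρ c 1 (op ρ c 0 v)) = 0

/-- leaf DEC: the decomposition of `V1` -/
def S_DEC : Prop := ∀ (g : ℕ) (K V : Type u) [Field K] [AddCommGroup V] [Module K V]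
  [FiniteDimensional K V] (N A : ℕ → Module.End K V), 3 ≤ g → S_BAS.{u} → ORel g N A →
    (∀ y ∈ V1 g N A, ∀ m < g, alp N A m y = 0) → (∀ v, N 0 v + N 0 (N 1 (N 0 v)) = 0) →
    V0 g N A ⊓ V1 g N A = ⊥ ∧ ∃ (m : ℕ) (y : Fin m → V), (∀ k, y k ∈ V1 g N A) ∧
      LinearIndependent K (fun p : Fin m × Fin (2 * g) => wl N p.2 (y p.1)) ∧
      V1 g N A = Submodule.span K (Set.range (fun p : Fin m × Fin (2 * g) => wl N p.2 (y p.1)))

/-- leaf DUA: duality -/
def S_DUA : Prop := ∀ (g : ℕ) (G : Type) [Group G] (K V : Type u) [Field K] [AddCommGroup V]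
  [Module K V] [FiniteDimensional K V] (c a : ℕ → G) (ρ : G →* Module.End K V),
    (V0 g (op (dr ρ) c) (op (dr ρ) a) ⊓ V1 g (op (dr ρ) c) (op (dr ρ) a) = ⊥ →
      V0 g (op ρ c) (op ρ a) ⊔ V1 g (op ρ c) (op ρ a) = ⊤) ∧
    ∀ x y : G, Commute x y → (ρ x - 1) * (ρ y - 1) = 0 → (dr ρ x - 1) * (dr ρ y - 1) = 0

end Pool.Agent.N66.TA
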