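import Mathlib
import Pool.Agent.N66.TA.Stm

set_option autoImplicit false

/-! Project TA: the abstract main theorem, from the leaves. -/

namespace Pool.Agent.N66.TA

universe u

/-- the leaves of linear algebra -/
structure Leaves : Prop where
  orel : S_OREL.{u}
  bas : S_BAS.{u}
  clo : S_CLO.{u}
  dd : S_DD.{u}
  uz : S_UZ.{u}
  dec : S_DEC.{u}
  dua : S_DUA.{u}

/-- the group relations -/
structure GrpRel {G : Type} [Group G] (g : ℕ) (c a : ℕ → G) : Prop where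
  lick : LickRel g c a
  k : ∀ i, i + 2 < g → ∃ D, KRel c a i D
  clo : (cp c 2 (2 * g - 2) * a (g - 1)) ^ (2 * g) = c 0 * c 0

section
variable {g : ℕ} {G : Type} [Group G] {K V : Type u} [Field K] [AddCommGroup V] [Module K V]
  {c a : ℕ → G}

theorem alp_zero (L : Leaves.{u}) (hg : 3 ≤ g) (hR : GrpRel g c a)
    (h2 : ((2 * g - 2 : ℕ) : K) ≠ 0) (ρ : G →* Module.End K V)
    (h0 : (ρ (c 0) - 1) * (ρ (c 0) - 1) = 0) (h1 : (ρ (a 1) - 1) * (ρ (c 0) - 1) = 0) :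
    ∀ y ∈ V1 g (op ρ c) (op ρ a), ∀ m < g, alp (op ρ c) (op ρ a) m y = 0 := by
  have hO := L.orel g G K V c a ρ hg hR.lick h0 h1
  intro y hy
  have hv := (L.bas g K V _ _ hg hO).1 y hy
  set al : ℕ → V := fun m => alp (op ρ c) (op ρ a) m y with hal
  have hd : ∀ i, i + 2 < g → al (i + 2) - al (i + 1) = al (i + 1) - al i := by
    intro i hi
    obtain ⟨D, hD⟩ := hR.k i hi
    exact L.dd g G K V c a ρ _ al i D hi hv hD
  have hm : ∀ i, i + 1 < g → al i = (i : K) • al 1 ∧ al (i + 1) = ((i + 1 : ℕ) : K) • al 1 := by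
    intro i
    induction i with
    | zero =>
      intro _
      have h3 : al 0 = 0 := hv.al0
      refine ⟨by rw [h3, Nat.cast_zero, zero_smul], by rw [zero_add, Nat.cast_one, one_smul]⟩
    | succ i ih =>
      intro hi
      obtain ⟨h3, h4⟩ := ih (by omega)
      refine ⟨h4, ?_⟩
      have h5 := hd i (by omega)
      rw [h3, h4] at h5
      have h6 : al (i + 1 + 1) = ((i + 1 : ℕ) : K) • al 1 + (((i + 1 : ℕ) : K) • al 1 -
          (i : K) • al 1) := by rw [← h5]; abel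
      rw [h6, ← sub_smul, ← add_smul]
      congr 1
      push_cast
      ring
  have hc := L.clo g G K V c a ρ _ al (by omega) hv hR.clo
  have h3 := (hm (g - 2) (by omega)).2
  rw [show g - 2 + 1 = g - 1 by omega] at h3
  rw [h3, ← add_smul, ← Nat.cast_add, show g - 1 + (g - 1) = 2 * g - 2 by omega] at hc
  have h4 : al 1 = 0 := (smul_eq_zero.1 hc).resolve_left h2
  intro m hmg
  show al m = 0
  rcases Nat.eq_zero_or_pos m with rfl | hpos
  · exact hv.al0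
  · obtain ⟨i, rfl⟩ : ∃ i, m = i + 1 := ⟨m - 1, by omega⟩
    rw [(hm i hmg).2, h4, smul_zero]

/-- the decomposition -/
structure Decomp (g : ℕ) (N A : ℕ → Module.End K V) : Prop where
  al : ∀ y ∈ V1 g N A, ∀ m < g, alp N A m y = 0
  compl : IsCompl (V0 g N A) (V1 g N A)
  bas : ∃ (m : ℕ) (y : Fin m → V), (∀ k, y k ∈ V1 g N A) ∧
      LinearIndependent K (fun p : Fin m × Fin (2 * g) => wl N p.2 (y p.1)) ∧
      V1 g N A = Submodule.span K (Set.range (fun p : Fin m × Fin (2 * g) => wl N p.2 (y p.1)))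

theorem decomp0 (L : Leaves.{u}) (hg : 3 ≤ g) (hR : GrpRel g c a)
    (h2 : ((2 * g - 2 : ℕ) : K) ≠ 0) [FiniteDimensional K V] (ρ : G →* Module.End K V)
    (h0 : (ρ (c 0) - 1) * (ρ (c 0) - 1) = 0) (h1 : (ρ (a 1) - 1) * (ρ (c 0) - 1) = 0) :
    V0 g (op ρ c) (op ρ a) ⊓ V1 g (op ρ c) (op ρ a) = ⊥ ∧ ∃ (m : ℕ) (y : Fin m → V),
      (∀ k, y k ∈ V1 g (op ρ c) (op ρ a)) ∧
      LinearIndependent K (fun p : Fin m × Fin (2 * g) => wl (op ρ c) p.2 (y p.1)) ∧
      V1 g (op ρ c) (op ρ a) =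
        Submodule.span K (Set.range (fun p : Fin m × Fin (2 * g) => wl (op ρ c) p.2 (y p.1))) := by
  have hO := L.orel g G K V c a ρ hg hR.lick h0 h1
  have ha := alp_zero L hg hR h2 ρ h0 h1
  obtain ⟨D, hD⟩ := hR.k 0 (by omega)
  exact L.dec g K V _ _ hg L.bas hO ha (L.uz g G K V c a ρ D hg L.bas hO hD ha)

theorem decomp (L : Leaves.{u}) (hg : 3 ≤ g) (hR : GrpRel g c a)
    (h2 : ((2 * g - 2 : ℕ) : K) ≠ 0) [FiniteDimensional K V] (ρ : G →* Module.End K V)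
    (h0 : (ρ (c 0) - 1) * (ρ (c 0) - 1) = 0) (h1 : (ρ (a 1) - 1) * (ρ (c 0) - 1) = 0) :
    Decomp g (op ρ c) (op ρ a) := by
  obtain ⟨h3, h4⟩ := decomp0 L hg hR h2 ρ h0 h1
  refine ⟨alp_zero L hg hR h2 ρ h0 h1, ⟨disjoint_iff.2 h3, codisjoint_iff.2 ?_⟩, h4⟩
  obtain ⟨h5, h6⟩ := L.dua g G K V c a ρ
  refine h5 (decomp0 L hg hR h2 (dr ρ) ?_ ?_).1
  · exact h6 (c 0) (c 0) (Commute.refl _) h0
  · exact h6 (a 1) (c 0) (hR.lick.farA 1 (by omega) 0 (by omega) (by omega)) h1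

end

end Pool.Agent.N66.TA
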