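import Pool.Agent.N66.TA.Stm

/-!
Leaf BAS of project TA (helper374 for helper66): basic facts of the operators.
-/

set_option autoImplicit false

namespace Pool.Agent.N66.TA.BAS

open Pool.Agent.N66.TA

universe u

section lin
variable {K V : Type u} [Field K] [AddCommGroup V] [Module K V]
variable {g : ℕ} {N A : ℕ → Module.End K V}

theorem wl_zero (y : V) : wl N 0 y = N 0 y := rfl

theorem wl_succ (j : ℕ) (y : V) : wl N (j + 1) y = -(N (j + 1) (wl N j y)) := rfl

theorem N_mem {j : ℕ} (hj : j < 2 * g) (y : V) : N j y ∈ V1 g N A :=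
  Submodule.subset_span ⟨y, Or.inl ⟨j, hj, rfl⟩⟩

theorem A_mem {m : ℕ} (hm : m < g) (y : V) : A m y ∈ V1 g N A :=
  Submodule.subset_span ⟨y, Or.inr ⟨m, hm, rfl⟩⟩

theorem wl_mem {j : ℕ} (hj : j < 2 * g) (y : V) : wl N j y ∈ V1 g N A := by
  cases j with
  | zero => exact N_mem hj y
  | succ j =>
    rw [wl_succ]
    exact Submodule.neg_mem _ (N_mem hj _)

/-- the element of the centre -/
def U (N : ℕ → Module.End K V) : Module.End K V := N 0 + N 0 * (N 1 * N 0)

theorem U_apply (v : V) : U N v = N 0 v + N 0 (N 1 (N 0 v)) := rfl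

theorem U_up (h : ORel g N A) {j : ℕ} (hj : j + 1 < 2 * g) (v : V) :
    N j v + N j (N (j + 1) (N j v)) = U N v := h.uu j hj v

theorem U_dn (h : ORel g N A) {j : ℕ} (hj : j + 1 < 2 * g) (v : V) :
    N (j + 1) v + N (j + 1) (N j (N (j + 1) v)) = U N v := by
  rw [← h.br j hj v]
  exact h.uu j hj v

theorem U_A (h : ORel g N A) {m : ℕ} (hm : m < g) (v : V) :
    A m v + A m (N (2 * m + 1) (A m v)) = U N v := h.uuA m hm v

theorem N_U (h : ORel g N A) (hg : 3 ≤ g) {j : ℕ} (hj : j < 2 * g) (v : V) : N j (U N v) = 0 := by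
  rcases Nat.lt_or_ge (j + 1) (2 * g) with h1 | h1
  · rw [← U_up h h1, map_add, h.sq j hj, h.sq j hj, add_zero]
  · obtain ⟨i, rfl⟩ : ∃ i, j = i + 1 := ⟨j - 1, by omega⟩
    rw [← U_dn h hj, map_add, h.sq _ hj, h.sq _ hj, add_zero]

theorem A_U (h : ORel g N A) {m : ℕ} (hm : m < g) (v : V) : A m (U N v) = 0 := by
  rw [← U_A h hm, map_add, h.sqA m hm, h.sqA m hm, add_zero]

theorem U_N (h : ORel g N A) (hg : 3 ≤ g) {j : ℕ} (hj : j < 2 * g) (v : V) : U N (N j v) = 0 := by
  rcases Nat.lt_or_ge (j + 1) (2 * g) with h1 | h1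
  · rw [← U_up h h1, h.sq j hj, map_zero, map_zero, add_zero]
  · obtain ⟨i, rfl⟩ : ∃ i, j = i + 1 := ⟨j - 1, by omega⟩
    rw [← U_dn h hj, h.sq _ hj, map_zero, map_zero, add_zero]

theorem U_Am (h : ORel g N A) {m : ℕ} (hm : m < g) (v : V) : U N (A m v) = 0 := by
  rw [← U_A h hm, h.sqA m hm, map_zero, map_zero, add_zero]

theorem U_V1 (h : ORel g N A) (hg : 3 ≤ g) {y : V} (hy : y ∈ V1 g N A) : U N y = 0 := by
  have : V1 g N A ≤ LinearMap.ker (U N) := by
    refine Submodule.span_le.2 ?_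
    rintro v ⟨u, ⟨j, hj, rfl⟩ | ⟨m, hm, rfl⟩⟩
    · exact U_N h hg hj u
    · exact U_Am h hm u
  exact this hy

/-- `w_j y` is in the image of `N_j` -/
theorem wl_im {y : V} (hy : y ∈ V1 g N A) {j : ℕ} (hj : j < 2 * g) :
    ∃ z ∈ V1 g N A, wl N j y = N j z := by
  cases j with
  | zero => exact ⟨y, hy, rfl⟩
  | succ j =>
    refine ⟨-wl N j y, Submodule.neg_mem _ (wl_mem (by omega) y), ?_⟩
    rw [wl_succ, map_neg]

theorem dn (h : ORel g N A) (hg : 3 ≤ g) {y : V} (hy : y ∈ V1 g N A) {j : ℕ}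
    (hj : j + 1 < 2 * g) : N j (wl N (j + 1) y) = wl N j y := by
  obtain ⟨z, hz, he⟩ := wl_im hy (j := j) (by omega)
  rw [wl_succ, map_neg, he]
  have h1 := U_up h hj z
  rw [U_V1 h hg hz] at h1
  exact (eq_neg_of_add_eq_zero_left h1).symm

theorem fr (h : ORel g N A) {y : V} (hy : y ∈ V1 g N A) {i j : ℕ}
    (hi : i < 2 * g) (hj : j < 2 * g) (h1 : i ≠ j + 1) (h2 : j ≠ i + 1) :
    N i (wl N j y) = 0 := by
  obtain ⟨z, hz, he⟩ := wl_im hy hj
  rw [he]
  by_cases hij : i = j
  · subst hij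
    exact h.sq i hi z
  · rcases Nat.lt_or_ge i j with h3 | h3
    · exact h.far' i j (by omega) hj z
    · exact h.far j i (by omega) hi z

theorem Aw (h : ORel g N A) {y : V} (hy : y ∈ V1 g N A) {m j : ℕ}
    (hm : m < g) (hj : j < 2 * g) (h1 : j ≠ 2 * m + 1) : A m (wl N j y) = 0 := by
  obtain ⟨z, hz, he⟩ := wl_im hy hj
  rw [he]
  exact h.farA m hm j hj h1 z

/-- the sum of the even `w` -/
theorem N_odd_sum (h : ORel g N A) (hg : 3 ≤ g) {y : V} (hy : y ∈ V1 g N A) {l : ℕ} (hl : l < g)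
    (m : ℕ) (hm : m < g) :
    N (2 * l + 1) (∑ i ∈ Finset.range (m + 1), wl N (2 * i) y) =
      if l = m then -wl N (2 * m + 1) y else 0 := by
  induction m with
  | zero =>
    rw [Finset.sum_range_one]
    split_ifs with h0
    · subst h0
      rw [wl_succ, neg_neg]
    · exact fr h hy (by omega) (by omega) (by omega) (by omega)
  | succ m ih =>
    rw [Finset.sum_range_succ, map_add, ih (by omega)]
    by_cases h1 : l = m
    · subst h1
      rw [if_pos rfl, if_neg (by omega)]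
      have := dn h hg hy (j := 2 * l + 1) (by omega)
      rw [show 2 * (l + 1) = 2 * l + 1 + 1 by ring, this, neg_add_cancel]
    · rw [if_neg h1, zero_add]
      split_ifs with h2
      · subst h2
        rw [wl_succ, neg_neg]
      · exact fr h hy (by omega) (by omega) (by omega) (by omega)

theorem Nal (h : ORel g N A) (hg : 3 ≤ g) {y : V} (hy : y ∈ V1 g N A) {m j : ℕ}
    (hm : m < g) (hj : j < 2 * g) : N j (alp N A m y) = 0 := by
  unfold alp
  rw [map_sub]
  by_cases hjm : j = 2 * m + 1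
  · subst hjm
    rw [N_odd_sum h hg hy hm m hm, if_pos rfl]
    obtain ⟨z, hz, he⟩ := wl_im hy hj
    rw [he]
    have h1 := h.brA m hm z
    rw [U_A h hm, U_V1 h hg hz] at h1
    rw [eq_neg_of_add_eq_zero_right h1, sub_self]
  · rw [h.farA' m hm j hj hjm, zero_sub, neg_eq_zero]
    rcases Nat.even_or_odd' j with ⟨l, hl | hl⟩
    · rw [map_sum]
      refine Finset.sum_eq_zero fun i hi => ?_
      rw [Finset.mem_range] at hi
      exact fr h hy hj (by omega) (by omega) (by omega)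
    · rw [hl, N_odd_sum h hg hy (by omega) m hm, if_neg (by omega)]

theorem Aal (h : ORel g N A) {y : V} (hy : y ∈ V1 g N A) {m l : ℕ}
    (hm : m < g) (hl : l < g) : A l (alp N A m y) = 0 := by
  unfold alp
  rw [map_sub, map_sum]
  have h1 : A l (A m (wl N (2 * m + 1) y)) = 0 := by
    by_cases hlm : l = m
    · subst hlm
      exact h.sqA l hl _
    · exact h.AA l hl m hm hlm _
  rw [h1, zero_sub, neg_eq_zero]
  refine Finset.sum_eq_zero fun i hi => ?_
  rw [Finset.mem_range] at hi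
  exact Aw h hy hl (by omega) (by omega)

theorem N_eq_w (h : ORel g N A) (hg : 3 ≤ g) : ∀ j < 2 * g, ∀ y ∈ V1 g N A,
    ∃ z ∈ V1 g N A, N j y = wl N j z := by
  intro j
  induction j with
  | zero => exact fun _ y hy => ⟨y, hy, rfl⟩
  | succ j ih =>
    intro hj y hy
    obtain ⟨z, hz, he⟩ := ih (by omega) (N (j + 1) y) (N_mem hj y)
    refine ⟨z, hz, ?_⟩
    have h1 := U_dn h hj y
    rw [U_V1 h hg hy, he] at h1
    rw [wl_succ]
    exact eq_neg_of_add_eq_zero_left h1

end lin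

theorem t_BAS : S_BAS.{u} := by
  intro g K V _ _ _ N A hg h
  refine ⟨fun y hy => ?_, N_eq_w h hg, fun v => ?_, fun y hy => U_V1 h hg hy,
    fun j hj y => wl_mem hj y⟩
  · exact
      { up := fun j _ => by rw [wl_succ, neg_neg]
        dn := fun j hj => dn h hg hy hj
        fr := fun i hi j hj h1 h2 => fr h hy hi hj h1 h2
        Aw := fun m hm j hj h1 => Aw h hy hm hj h1
        Ab := fun m _ => by
          unfold alp
          rw [sub_add_cancel]
        Nal := fun m hm j hj => Nal h hg hy hm hj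
        Aal := fun m hm l hl => Aal h hy hm hl
        al0 := by
          unfold alp
          rw [Finset.sum_range_one, h.a0, sub_eq_zero]
          exact dn h hg hy (j := 0) (by omega) }
  · exact ⟨fun j hj => N_U h hg hj v, fun m hm => A_U h hm v⟩

end Pool.Agent.N66.TA.BAS
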