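import Pool.Agent.N66.TA.Stm2
import Pool.Agent.H29R2.MG.Surface

set_option autoImplicit false

/-! Project TA, leaf CL: the relation of the closed surface (helper896). -/

namespace Pool.Agent.N66.TA.CL

open Pool.Agent.N66.TA
open Pool.Agent.H29R2.MG Pool.Agent.H798R3.MG

section abstractPart

variable {G : Type} [Group G]

/-- `v_k ⋯ v_3` -/
def Rr (v : ℕ → G) : ℕ → G
  | 0 => 1
  | n + 1 => v (n + 3) * Rr v n

theorem cp_congr {H : Type} [Group H] (c c' : ℕ → H) (s n : ℕ)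
    (h : ∀ i, i < n → c (s + i) = c' (s + i)) : cp c s n = cp c' s n := by
  induction n with
  | zero => rfl
  | succ n ih =>
    rw [cp, cp, ih fun i hi => h i (by omega), h n (by omega)]

theorem cp_W (W : ℕ → G) (c : ℕ → MulAut G) (N : ℕ)
    (h1 : ∀ j, 1 ≤ j → j ≤ N → ∀ k, 1 ≤ k → k ≤ N + 2 → k ≠ j + 1 → c j (W k) = W k)
    (h2 : ∀ j, 1 ≤ j → j ≤ N → c j (W (j + 1)) = W (j + 1) * (W (j + 2))⁻¹ * W j) (n : ℕ)
    (hn : n + 1 ≤ N) :
    (∀ m, m ≤ n → cp c 2 n (W (m + 2)) = Rr (fun k => W k * (W (k + 1))⁻¹) m * W 2) ∧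
    ∀ k, n + 2 < k → k ≤ N + 2 → cp c 2 n (W k) = W k := by
  induction n with
  | zero =>
    refine ⟨fun m hm => ?_, fun k _ _ => rfl⟩
    obtain rfl : m = 0 := by omega
    show W 2 = 1 * W 2
    rw [one_mul]
  | succ n ih =>
    obtain ⟨i1, i2⟩ := ih (by omega)
    refine ⟨fun m hm => ?_, fun k hk hk' => ?_⟩
    · rw [cp, MulAut.mul_apply]
      by_cases hm' : m = n + 1
      · subst hm'
        have e1 : c (2 + n) (W (n + 1 + 2)) = W (n + 3) * (W (n + 4))⁻¹ * W (n + 2) := by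
          have := h2 (2 + n) (by omega) (by omega)
          rw [show 2 + n + 1 = n + 3 by ring, show 2 + n + 2 = n + 4 by ring,
            show 2 + n = n + 2 by ring] at this
          rw [show 2 + n = n + 2 by ring]
          exact this
        rw [e1, map_mul, map_mul, map_inv, i2 (n + 3) (by omega) (by omega),
          i2 (n + 4) (by omega) (by omega), i1 n le_rfl]
        show _ = (W (n + 3) * (W (n + 4))⁻¹) * Rr (fun k => W k * (W (k + 1))⁻¹) n * W 2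
        simp only [mul_assoc]
      · rw [h1 (2 + n) (by omega) (by omega) (m + 2) (by omega) (by omega) (by omega)]
        exact i1 m (by omega)
    · rw [cp, MulAut.mul_apply, h1 (2 + n) (by omega) (by omega) k (by omega) (by omega)
        (by omega)]
      exact i2 k (by omega) (by omega)

theorem pow_fix (x : MulAut G) (e : G) (he : x e = e) (n : ℕ) : (x ^ n) e = e := by
  induction n with
  | zero => rfl
  | succ n ih => rw [pow_succ, MulAut.mul_apply, he, ih]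

theorem pow_v (x : MulAut G) (v : ℕ → G) (N : ℕ)
    (hx : ∀ k, 2 ≤ k → k ≤ N → x (v k) = (v (k + 1))⁻¹) (s : ℕ) (hs : 2 * s + 2 ≤ N) :
    (x ^ (2 * s)) (v 2) = v (2 * s + 2) ∧ (x ^ (2 * s + 1)) (v 2) = (v (2 * s + 3))⁻¹ := by
  have step : ∀ s, 2 * s + 2 ≤ N → (x ^ (2 * s)) (v 2) = v (2 * s + 2) →
      (x ^ (2 * s + 1)) (v 2) = (v (2 * s + 3))⁻¹ := by
    intro s hs h
    rw [pow_succ', MulAut.mul_apply, h, hx _ (by omega) (by omega)]
  have main : (x ^ (2 * s)) (v 2) = v (2 * s + 2) := by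
    induction s with
    | zero => rfl
    | succ s ih =>
      have h1 := step s (by omega) (ih (by omega))
      rw [show 2 * (s + 1) = 2 * s + 1 + 1 by ring, pow_succ', MulAut.mul_apply, h1, map_inv,
        hx _ (by omega) (by omega), inv_inv]
  exact ⟨main, step s hs main⟩

/-- the power of the chain -/
theorem pow_top (x : MulAut G) (v : ℕ → G) (e : G) (g : ℕ) (hg : 1 ≤ g)
    (hx : ∀ k, 2 ≤ k → k ≤ 2 * g → x (v k) = (v (k + 1))⁻¹)
    (hN : x (v (2 * g + 1)) = e * (v 2)⁻¹ * e) (he : x e = e) (s : ℕ) (hs : s < g) :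
    (x ^ (2 * g)) (v (2 * s + 2)) = e⁻¹ * v (2 * s + 2) * e⁻¹ ∧
    (x ^ (2 * g)) (v (2 * s + 3)) = e * v (2 * s + 3) * e := by
  have h0 : (x ^ (2 * g)) (v 2) = e⁻¹ * v 2 * e⁻¹ := by
    have h1 := (pow_v x v (2 * g) hx (g - 1) (by omega)).2
    rw [show 2 * (g - 1) + 1 = 2 * g - 1 by omega, show 2 * (g - 1) + 3 = 2 * g + 1 by omega] at h1
    rw [show 2 * g = (2 * g - 1) + 1 by omega, pow_succ', MulAut.mul_apply, h1, map_inv, hN]
    group
  obtain ⟨h2, h3⟩ := pow_v x v (2 * g) hx s (by omega)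
  have comm : ∀ n, (x ^ (2 * g)) ((x ^ n) (v 2)) = e⁻¹ * (x ^ n) (v 2) * e⁻¹ := by
    intro n
    have h4 : (x ^ (2 * g)) ((x ^ n) (v 2)) = (x ^ n) ((x ^ (2 * g)) (v 2)) := by
      rw [← MulAut.mul_apply, ← MulAut.mul_apply, ← pow_add, ← pow_add, add_comm]
    rw [h4, h0, map_mul, map_mul, map_inv, pow_fix x e he]
  constructor
  · rw [← h2, comm]
  · have h5 := comm (2 * s + 1)
    rw [h3, map_inv] at h5
    have h6 := congrArg (fun z => z⁻¹) h5
    simp only [inv_inv] at h6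
    rw [h6]
    group

end abstractPart

section surface

variable {g : ℕ}

/-- the evaluation of the words -/
def S (g : ℕ) : FreeGroup ℕ →* SurfaceGroup g := (mk g).comp (retr g)

/-- the elements `W_k` -/
def W (g k : ℕ) : SurfaceGroup g := S g (w k)

/-- the elements `v_k` -/
def v (g k : ℕ) : SurfaceGroup g := W g k * (W g (k + 1))⁻¹

theorem retr_even' (m : ℕ) : retr g (w (2 * m + 2)) =
    (cc g m)⁻¹ * (if h : m < g then fa ⟨m, h⟩ else 1) * cc g m := by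
  have h1 : ¬ (2 * m + 1) % 2 = 0 := by omega
  have h2 : (2 * m + 1) / 2 = m := by omega
  have h3 : w (2 * m + 2) = FreeGroup.of (2 * m + 1) := rfl
  rw [h3, retr, FreeGroup.lift_apply_of, if_neg h1]
  simp only [h2]

theorem W_zero : W g 0 = 1 := by
  show S g 1 = 1
  rw [map_one]

theorem W_one : W g 1 = 1 := by
  show mk g (retr g (w (2 * 0 + 1))) = 1
  rw [retr_odd]
  exact map_one _

theorem W_odd (m : ℕ) : W g (2 * m + 1) = mk g (cc g m) := by
  show mk g (retr g (w (2 * m + 1))) = _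
  rw [retr_odd]

theorem W_even (m : ℕ) (hm : m < g) :
    W g (2 * m + 2) = mk g ((cc g m)⁻¹ * fa ⟨m, hm⟩ * cc g m) := by
  show mk g (retr g (w (2 * m + 2))) = _
  rw [retr_even', dif_pos hm]

theorem W_top : W g (2 * g + 2) = 1 := by
  show mk g (retr g (w (2 * g + 2))) = 1
  rw [retr_even', dif_neg (lt_irrefl g), mul_one, inv_mul_cancel, map_one]

theorem J_cc (m : ℕ) (hm : m ≤ g) : J g (cc g m) = w (2 * m + 1) * (w 1)⁻¹ := by
  induction m with
  | zero =>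
    rw [cc, map_one]
    simp
  | succ m ih =>
    rw [cc, dif_pos (by omega), map_mul, ih (by omega), J_fb,
      show 2 * (m + 1) + 1 = 2 * m + 3 by ring]
    group

theorem J_ev (m : ℕ) (hm : m < g) :
    J g ((cc g m)⁻¹ * fa ⟨m, hm⟩ * cc g m) = w 1 * w (2 * m + 2) * (w 1)⁻¹ := by
  rw [map_mul, map_mul, map_inv, J_cc m hm.le, J_fa]
  group

theorem fv_eq (j : Fin (2 * g)) (x : FreeGroup (Fin g ⊕ Fin g)) :
    fv j x = retr g (vv j (J g x)) := by
  have h1 := DFunLike.congr_fun (retr_J (g := g)) (fv j x)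
  have h2 := DFunLike.congr_fun (J_fv j) x
  simp only [MonoidHom.comp_apply, MonoidHom.id_apply] at h1 h2
  rw [← h2, h1]

theorem sv_odd (j : Fin (2 * g)) (m : ℕ) (hm : m ≤ g) :
    sv j (W g (2 * m + 1)) = S g (vv j (w (2 * m + 1))) * (S g (vv j (w 1)))⁻¹ := by
  rw [W_odd, sv_mk, fv_eq, J_cc m hm, map_mul, map_inv, map_mul, map_inv, map_mul, map_inv]
  rfl

theorem sv_even (j : Fin (2 * g)) (m : ℕ) (hm : m < g) :
    sv j (W g (2 * m + 2)) =
      S g (vv j (w 1)) * S g (vv j (w (2 * m + 2))) * (S g (vv j (w 1)))⁻¹ := by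
  rw [W_even m hm, sv_mk, fv_eq, J_ev m hm, map_mul, map_mul, map_inv, map_mul, map_mul, map_inv,
    map_mul, map_mul, map_inv]
  rfl

theorem sv_W (j : Fin (2 * g)) (hj : 1 ≤ (j : ℕ)) (k : ℕ) (h1 : 1 ≤ k) (h2 : k ≤ 2 * g + 2) :
    sv j (W g k) = S g (vv j (w k)) := by
  have h3 : S g (vv j (w 1)) = 1 := by
    rw [vv_w _ _ (by omega)]
    exact W_one
  rcases Nat.even_or_odd' k with ⟨m, rfl | rfl⟩
  · obtain ⟨m, rfl⟩ : ∃ n, m = n + 1 := ⟨m - 1, by omega⟩
    rw [show 2 * (m + 1) = 2 * m + 2 by ring]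
    by_cases hm : m < g
    · rw [sv_even j m hm, h3, one_mul, inv_one, mul_one]
    · obtain rfl : m = g := by omega
      rw [W_top, map_one, vv_w _ _ (by omega)]
      exact W_top.symm
  · rw [sv_odd j m (by omega), h3, inv_one, mul_one]

theorem sv_fix (j : Fin (2 * g)) (hj : 1 ≤ (j : ℕ)) (k : ℕ) (h1 : 1 ≤ k) (h2 : k ≤ 2 * g + 2)
    (h3 : k ≠ j + 1) : sv j (W g k) = W g k := by
  rw [sv_W j hj k h1 h2, vv_w _ _ h3]
  rfl

theorem sv_mv (j : Fin (2 * g)) (hj : 1 ≤ (j : ℕ)) :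
    sv j (W g (j + 1)) = W g (j + 1) * (W g (j + 2))⁻¹ * W g j := by
  rw [sv_W j hj _ (by omega) (by omega), vv_self, map_mul, map_mul, map_inv]
  rfl

theorem S_vv0 : S g (vv 0 (w 1)) = (W g 2)⁻¹ := by
  have h : vv 0 (w 1) = w 1 * (w 2)⁻¹ * w 0 := vv_self 0
  rw [h, map_mul, map_mul, map_inv]
  show W g 1 * (W g 2)⁻¹ * W g 0 = _
  rw [W_one, W_zero, one_mul, mul_one]

theorem sv0_odd (hg : 0 < 2 * g) (m : ℕ) (h0 : 1 ≤ m) (hm : m ≤ g) :
    sv ⟨0, hg⟩ (W g (2 * m + 1)) = W g (2 * m + 1) * W g 2 := by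
  rw [sv_odd _ m hm]
  show S g (vv 0 (w (2 * m + 1))) * (S g (vv 0 (w 1)))⁻¹ = _
  rw [S_vv0, inv_inv, vv_w _ _ (by omega)]
  rfl

theorem sv0_even (hg : 0 < 2 * g) (m : ℕ) (hm : m ≤ g) :
    sv ⟨0, hg⟩ (W g (2 * m + 2)) = (W g 2)⁻¹ * W g (2 * m + 2) * W g 2 := by
  by_cases h : m < g
  · rw [sv_even _ m h]
    show S g (vv 0 (w 1)) * S g (vv 0 (w (2 * m + 2))) * (S g (vv 0 (w 1)))⁻¹ = _
    rw [S_vv0, inv_inv, vv_w _ _ (by omega)]
    rfl
  · obtain rfl : m = g := by omega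
    rw [W_top, map_one, mul_one, inv_mul_cancel]

theorem hA_fa (i : ℕ) (m : Fin g) : hA g i (fa m) = fa m := by
  unfold hA ends
  conv_lhs => rw [fa]
  simp

theorem hA_fb (i : ℕ) (m : Fin g) : hA g i (fb m) = if (m : ℕ) = i then fb m * ha g i else fb m := by
  unfold hA ends
  conv_lhs => rw [fb]
  simp

theorem hA_cc (i m : ℕ) (hm : m ≤ i) (hi : i < g) : hA g i (cc g m) = cc g m := by
  induction m with
  | zero => rw [cc, map_one]
  | succ m ih =>
    rw [cc, dif_pos (by omega), map_mul, ih (by omega), hA_fb, if_neg (by simp; omega)]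

theorem hA_top (i : ℕ) (hi : i < g) :
    hA g i (cc g (i + 1)) = cc g (i + 1) * ((cc g i)⁻¹ * fa ⟨i, hi⟩ * cc g i) := by
  rw [cc, dif_pos hi, map_mul, hA_cc i i le_rfl hi, hA_fb, if_pos rfl, ha, dif_pos hi]
  group

theorem aW_fix (φ : MulAut (SurfaceGroup g)) (i : ℕ) (hi : i + 1 = g) (hφ : IsEnd (hA g i) φ)
    (k : ℕ) (h1 : 1 ≤ k) (h2 : k ≤ 2 * g + 2) (h3 : k ≠ 2 * g + 1) : φ (W g k) = W g k := by
  rcases Nat.even_or_odd' k with ⟨m, rfl | rfl⟩
  · obtain ⟨m, rfl⟩ : ∃ n, m = n + 1 := ⟨m - 1, by omega⟩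
    rw [show 2 * (m + 1) = 2 * m + 2 by ring]
    by_cases hm : m < g
    · have e : hA g i ((cc g m)⁻¹ * fa ⟨m, hm⟩ * cc g m) = (cc g m)⁻¹ * fa ⟨m, hm⟩ * cc g m := by
        rw [map_mul, map_mul, map_inv, hA_cc i m (by omega) (by omega), hA_fa]
      rw [W_even m hm, hφ, e]
    · obtain rfl : m = g := by omega
      rw [W_top, map_one]
  · rw [W_odd, hφ, hA_cc i m (by omega) (by omega)]

theorem aW_mv (φ : MulAut (SurfaceGroup g)) (i : ℕ) (hi : i + 1 = g) (hφ : IsEnd (hA g i) φ) :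
    φ (W g (2 * g + 1)) = W g (2 * g + 1) * (W g (2 * g + 2))⁻¹ * W g (2 * g) := by
  subst hi
  rw [W_top, inv_one, mul_one, W_odd, hφ, hA_top i (by omega), map_mul,
    show 2 * (i + 1) = 2 * i + 2 by ring, W_even i (by omega)]

theorem agree (φ ψ : SurfaceGroup g →* SurfaceGroup g)
    (h : ∀ k, 2 ≤ k → k ≤ 2 * g + 1 → φ (v g k) = ψ (v g k)) : φ = ψ := by
  have h1 : ∀ n, n ≤ 2 * g → φ (W g (2 * g + 2 - n)) = ψ (W g (2 * g + 2 - n)) := by
    intro n
    induction n with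
    | zero =>
      intro _
      rw [Nat.sub_zero, W_top, map_one, map_one]
    | succ n ih =>
      intro hn
      have h2 := ih (by omega)
      obtain ⟨k, hk⟩ : ∃ k, k = 2 * g + 2 - (n + 1) := ⟨_, rfl⟩
      have hk1 : 2 * g + 2 - n = k + 1 := by omega
      rw [← hk]
      rw [hk1] at h2
      have h3 := h k (by omega) (by omega)
      have h4 : W g k = v g k * W g (k + 1) := by
        unfold v
        rw [inv_mul_cancel_right]
      rw [h4, map_mul, map_mul, h3, h2]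
  have h2 : ∀ k, 1 ≤ k → k ≤ 2 * g + 2 → φ (W g k) = ψ (W g k) := by
    intro k hk hk'
    by_cases hk1 : k = 1
    · rw [hk1, W_one, map_one, map_one]
    · have := h1 (2 * g + 2 - k) (by omega)
      rwa [show 2 * g + 2 - (2 * g + 2 - k) = k by omega] at this
  have ea : ∀ m : Fin g, mk g (fa m) = W g (2 * m + 1) * W g (2 * m + 2) * (W g (2 * m + 1))⁻¹ := by
    intro m
    rw [W_odd, W_even m m.2, ← map_inv, ← map_mul, ← map_mul]
    congr 1
    group
  have eb : ∀ m : Fin g, mk g (fb m) = W g (2 * m + 3) * (W g (2 * m + 1))⁻¹ := by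
    intro m
    rw [show 2 * (m : ℕ) + 3 = 2 * ((m : ℕ) + 1) + 1 by ring, W_odd, W_odd, ← map_inv, ← map_mul,
      cc, dif_pos m.2]
    congr 1
    group
  apply surface_ext
  rintro (m | m)
  · show φ (mk g (fa m)) = ψ (mk g (fa m))
    rw [ea, map_mul, map_mul, map_mul, map_mul, map_inv, map_inv, h2 _ (by omega) (by omega),
      h2 _ (by omega) (by omega)]
  · show φ (mk g (fb m)) = ψ (mk g (fb m))
    rw [eb, map_mul, map_mul, map_inv, map_inv, h2 _ (by omega) (by omega),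
      h2 _ (by omega) (by omega)]

theorem rel_PP (n : ℕ) : S g (PP (n + 3)) = W g 2 * (v g 2)⁻¹ * (Rr (v g) n)⁻¹ := by
  induction n with
  | zero =>
    show S g (((1 * (w 1 * (w 0)⁻¹)) * (w 2 * (w 1)⁻¹)) * (w 3 * (w 2)⁻¹)) = _
    rw [map_mul, map_mul, map_mul, map_mul, map_mul, map_mul, map_inv, map_inv, map_inv, map_one]
    show 1 * (W g 1 * (W g 0)⁻¹) * (W g 2 * (W g 1)⁻¹) * (W g 3 * (W g 2)⁻¹) = _
    rw [W_one, W_zero, Rr, v]
    group
  | succ n ih =>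
    have h : PP (n + 1 + 3) = PP (n + 3) * (w (n + 4) * (w (n + 3))⁻¹) := rfl
    rw [h, map_mul, ih, map_mul, map_inv, Rr, v]
    show W g 2 * (W g 2 * (W g (2 + 1))⁻¹)⁻¹ * (Rr (v g) n)⁻¹ * (W g (n + 4) * (W g (n + 3))⁻¹) =
      W g 2 * (W g 2 * (W g (2 + 1))⁻¹)⁻¹ * (v g (n + 3) * Rr (v g) n)⁻¹
    rw [v]
    group

/-- the relation of the surface -/
theorem rel (n : ℕ) (hn : n + 1 = 2 * g) (_ : 1 ≤ g) :
    Rr (v g) n = W g 2 * (v g 2)⁻¹ := by
  obtain ⟨m, hm⟩ : ∃ m, n = m + 1 := ⟨n - 1, by omega⟩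
  have h1 := DFunLike.congr_fun (retr_J (g := g)) (surfaceRelator g)
  rw [MonoidHom.comp_apply, MonoidHom.id_apply, J_relator] at h1
  have h2 := congrArg (mk g) h1
  rw [mk_relator] at h2
  have h3 : S g (PP (2 * g + 1)) * (W g (2 * g + 1))⁻¹ = 1 := by
    rw [← h2, map_mul, map_inv, map_mul, map_inv]
    rfl
  rw [show 2 * g + 1 = m + 3 by omega, rel_PP] at h3
  have h4 : v g (m + 3) = W g (m + 3) := by
    unfold v
    rw [show m + 3 + 1 = 2 * g + 2 by omega, W_top, inv_one, mul_one]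
  rw [hm, Rr, h4]
  have h5 := mul_inv_eq_one.1 h3
  rw [← h5]
  group

end surface

theorem t_CL : S_CL := by
  intro g c a hg hs
  obtain ⟨c', hc'⟩ : ∃ c' : ℕ → MulAut (SurfaceGroup g),
      ∀ j, c' j = if j < 2 * g then c j else a (g - 1) := ⟨_, fun _ => rfl⟩
  have hcl : ∀ j (h : j < 2 * g), c' j = sv ⟨j, h⟩ := by
    intro j h
    rw [hc', if_pos h, hs.hc j h]
  have hct : c' (2 * g) = a (g - 1) := by rw [hc', if_neg (lt_irrefl _)]
  have hi : g - 1 + 1 = g := by omega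
  have hφ := hs.ha (g - 1) (by omega)
  have h1 : ∀ j, 1 ≤ j → j ≤ 2 * g → ∀ k, 1 ≤ k → k ≤ 2 * g + 2 → k ≠ j + 1 →
      c' j (W g k) = W g k := by
    intro j hj hj' k hk hk' hne
    by_cases h : j < 2 * g
    · rw [hcl j h]
      exact sv_fix ⟨j, h⟩ hj k hk hk' hne
    · obtain rfl : j = 2 * g := by omega
      rw [hct]
      exact aW_fix _ _ hi hφ k hk hk' hne
  have h2 : ∀ j, 1 ≤ j → j ≤ 2 * g →
      c' j (W g (j + 1)) = W g (j + 1) * (W g (j + 2))⁻¹ * W g j := by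
    intro j hj hj'
    by_cases h : j < 2 * g
    · rw [hcl j h]
      exact sv_mv ⟨j, h⟩ hj
    · obtain rfl : j = 2 * g := by omega
      rw [hct]
      exact aW_mv _ _ hi hφ
  have hX : cp c 2 (2 * g - 2) * a (g - 1) = cp c' 2 (2 * g - 1) := by
    rw [show 2 * g - 1 = (2 * g - 2) + 1 by omega, cp, show 2 + (2 * g - 2) = 2 * g by omega, hct]
    congr 1
    apply cp_congr
    intro i hi
    rw [hc', if_pos (by omega)]
  rw [hX]
  obtain ⟨x, hx⟩ : ∃ x, x = cp c' 2 (2 * g - 1) := ⟨_, rfl⟩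
  rw [← hx]
  obtain ⟨k1, k2⟩ := cp_W (W g) c' (2 * g) h1 h2 (2 * g - 1) (by omega)
  rw [← hx] at k1 k2
  have k1' : ∀ m, m ≤ 2 * g - 1 → x (W g (m + 2)) = Rr (v g) m * W g 2 := k1
  have he : x (W g 2) = W g 2 := by
    rw [k1' 0 (by omega), Rr, one_mul]
  have hv : ∀ k, 2 ≤ k → k ≤ 2 * g → x (v g k) = (v g (k + 1))⁻¹ := by
    intro k hk hk'
    obtain ⟨m, rfl⟩ : ∃ m, k = m + 2 := ⟨k - 2, by omega⟩
    have e1 := k1' m (by omega)
    have e2 := k1' (m + 1) (by omega)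
    rw [Rr] at e2
    show x (W g (m + 2) * (W g (m + 1 + 2))⁻¹) = (v g (m + 3))⁻¹
    rw [map_mul, map_inv, e1, e2]
    group
  have hN : x (v g (2 * g + 1)) = W g 2 * (v g 2)⁻¹ * W g 2 := by
    have e1 := k1' (2 * g - 1) le_rfl
    rw [rel (2 * g - 1) (by omega) (by omega), show 2 * g - 1 + 2 = 2 * g + 1 by omega] at e1
    have e2 : v g (2 * g + 1) = W g (2 * g + 1) := by
      unfold v
      rw [W_top, inv_one, mul_one]
    rw [e2, e1]
  have hp := fun s hs => pow_top x (v g) (W g 2) g (by omega) hv hN he s hs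
  have c0 : c 0 = sv ⟨0, by omega⟩ := hs.hc 0 (by omega)
  have c0W : c 0 (W g 2) = W g 2 := by
    rw [c0]
    have := sv0_even (g := g) (by omega) 0 (by omega)
    rw [show 2 * 0 + 2 = 2 by rfl] at this
    rw [this, inv_mul_cancel, one_mul]
  have c0e : ∀ s, s < g → c 0 (v g (2 * s + 2)) = (W g 2)⁻¹ * v g (2 * s + 2) := by
    intro s hs'
    show c 0 (W g (2 * s + 2) * (W g (2 * s + 2 + 1))⁻¹) = _
    rw [map_mul, map_inv, c0, sv0_even (by omega) s (by omega),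
      show 2 * s + 2 + 1 = 2 * (s + 1) + 1 by ring, sv0_odd (by omega) (s + 1) (by omega) (by omega),
      v]
    rw [show 2 * s + 2 + 1 = 2 * (s + 1) + 1 by ring]
    group
  have c0o : ∀ s, s < g → c 0 (v g (2 * s + 3)) = v g (2 * s + 3) * W g 2 := by
    intro s hs'
    show c 0 (W g (2 * s + 3) * (W g (2 * s + 3 + 1))⁻¹) = _
    rw [map_mul, map_inv, c0, show 2 * s + 3 + 1 = 2 * (s + 1) + 2 by ring,
      sv0_even (by omega) (s + 1) (by omega), show 2 * s + 3 = 2 * (s + 1) + 1 by ring,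
      sv0_odd (by omega) (s + 1) (by omega) (by omega), v]
    rw [show 2 * (s + 1) + 1 + 1 = 2 * (s + 1) + 2 by ring]
    group
  refine ⟨(W g 2)⁻¹, ?_⟩
  apply MulEquiv.toMonoidHom_injective
  apply agree
  intro k hk hk'
  show (W g 2)⁻¹ * (x ^ (2 * g)) (v g k) * ((W g 2)⁻¹)⁻¹ = c 0 (c 0 (v g k))
  rcases Nat.even_or_odd' k with ⟨m, rfl | rfl⟩
  · obtain ⟨s, rfl⟩ : ∃ s, m = s + 1 := ⟨m - 1, by omega⟩
    rw [show 2 * (s + 1) = 2 * s + 2 by ring, (hp s (by omega)).1, c0e s (by omega), map_mul,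
      map_inv, c0W, c0e s (by omega)]
    group
  · obtain ⟨s, rfl⟩ : ∃ s, m = s + 1 := ⟨m - 1, by omega⟩
    rw [show 2 * (s + 1) + 1 = 2 * s + 3 by ring, (hp s (by omega)).2, c0o s (by omega), map_mul,
      c0W, c0o s (by omega)]
    group

end Pool.Agent.N66.TA.CL
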