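import Pool.Agent.N66.TA.Stm

/-!
# Project TA, leaf CLO: the closed relation
-/

set_option autoImplicit false

universe u

namespace Pool.Agent.N66.TA.CLO

open Pool.Agent.N66.TA

section abs
variable {K V : Type*} [Field K] [AddCommGroup V] [Module K V]

/-- `(1 + M_0) ⋯ (1 + M_{n-1})` -/
def PP (M : ℕ → Module.End K V) : ℕ → Module.End K V
  | 0 => 1
  | n + 1 => PP M n * (1 + M n)

theorem PP_succ (M : ℕ → Module.End K V) (n : ℕ) (v : V) :
    PP M (n + 1) v = PP M n v + PP M n (M n v) := by
  rw [PP, Module.End.mul_apply, LinearMap.add_apply, Module.End.one_apply, map_add]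

theorem PP_fix (M : ℕ → Module.End K V) (n : ℕ) (v : V) (h : ∀ i < n, M i v = 0) :
    PP M n v = v := by
  induction n with
  | zero => rfl
  | succ n ih =>
    rw [PP_succ, ih (fun i hi => h i (by omega)), h n (by omega), map_zero, add_zero]

/-- a chain of transvections -/
structure Ch (q : ℕ) (M : ℕ → Module.End K V) (s : ℕ → V) : Prop where
  dn : ∀ i < q, M i (s (i + 1)) = s i
  up : ∀ i < q, M (i + 1) (s i) = - s (i + 1)
  fr : ∀ i ≤ q, ∀ j ≤ q, i ≠ j + 1 → j ≠ i + 1 → M i (s j) = 0

variable {q : ℕ} {M : ℕ → Module.End K V} {s : ℕ → V}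

theorem x_s (h : Ch q M s) (i : ℕ) (hi : i < q) : PP M (q + 1) (s i) = - s (i + 1) := by
  have key : ∀ n, i + 2 + n ≤ q + 1 → PP M (i + 2 + n) (s i) = - s (i + 1) := by
    intro n
    induction n with
    | zero =>
      intro _
      have e1 : PP M i (s (i + 1)) = s (i + 1) :=
        PP_fix M i _ (fun j hj => h.fr j (by omega) (i + 1) (by omega) (by omega) (by omega))
      rw [add_zero, PP_succ M (i + 1), h.up i hi, map_neg, PP_succ M i (s i),
        h.fr i (by omega) i (by omega) (by omega) (by omega), map_zero, PP_succ M i (s (i + 1)),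
        h.dn i hi, e1]
      abel
    | succ n ih =>
      intro hn
      rw [← add_assoc, PP_succ, h.fr (i + 2 + n) (by omega) i (by omega) (by omega) (by omega),
        map_zero, add_zero, ih (by omega)]
  have := key (q + 1 - (i + 2)) (by omega)
  rwa [show i + 2 + (q + 1 - (i + 2)) = q + 1 by omega] at this

theorem x_top (h : Ch q M s) : PP M (q + 1) (s q) = ∑ j ∈ Finset.range (q + 1), s j := by
  have key : ∀ n ≤ q, PP M n (s n) = ∑ j ∈ Finset.range (n + 1), s j := by
    intro n
    induction n with
    | zero =>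
      intro _
      rw [Finset.sum_range_one]
      rfl
    | succ n ih =>
      intro hn
      rw [PP_succ, h.dn n (by omega), ih (by omega),
        PP_fix M n (s (n + 1)) (fun j hj => h.fr j (by omega) (n + 1) hn (by omega) (by omega)),
        Finset.sum_range_succ _ (n + 1), add_comm]
  rw [PP_succ, h.fr q le_rfl q le_rfl (by omega) (by omega), map_zero, add_zero, key q le_rfl]

theorem x_w (w : V) (h0 : M 0 w = - s 0) (h1 : ∀ i, 1 ≤ i → i ≤ q → M i w = 0) :
    PP M (q + 1) w = w - s 0 := by
  have key : ∀ n ≤ q, PP M (n + 1) w = w - s 0 := by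
    intro n
    induction n with
    | zero =>
      intro _
      rw [PP_succ, h0, sub_eq_add_neg]
      rfl
    | succ n ih =>
      intro hn
      rw [PP_succ, h1 (n + 1) (by omega) hn, map_zero, add_zero, ih (by omega)]
  exact key q le_rfl

theorem pow_s (h : Ch q M s) (j : ℕ) (hj : j ≤ q) :
    (PP M (q + 1) ^ j) (s 0) = (-1 : ℤ) ^ j • s j := by
  induction j with
  | zero => simp
  | succ j ih =>
    rw [pow_succ', Module.End.mul_apply, ih (by omega), map_zsmul, x_s h j (by omega), pow_succ,
      mul_neg_one, neg_smul, smul_neg]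

theorem pow_w (x : Module.End K V) (w s0 : V) (h : x w = w - s0) (n : ℕ) :
    (x ^ n) w = w - ∑ j ∈ Finset.range n, (x ^ j) s0 := by
  induction n with
  | zero => simp
  | succ n ih =>
    rw [pow_succ, Module.End.mul_apply, h, map_sub, ih, Finset.sum_range_succ]
    abel

theorem sum_ev (s : ℕ → V) (k : ℕ) :
    ∑ j ∈ Finset.range (2 * k + 1), (-1 : ℤ) ^ j • s j + ∑ j ∈ Finset.range (2 * k + 1), s j =
      ∑ l ∈ Finset.range (k + 1), s (2 * l) + ∑ l ∈ Finset.range (k + 1), s (2 * l) := by
  induction k with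
  | zero => simp
  | succ k ih =>
    have e : 2 * (k + 1) + 1 = (2 * k + 1) + 1 + 1 := by ring
    rw [e, Finset.sum_range_succ _ (2 * k + 1 + 1), Finset.sum_range_succ _ (2 * k + 1),
      Finset.sum_range_succ _ (2 * k + 1 + 1), Finset.sum_range_succ _ (2 * k + 1),
      Finset.sum_range_succ _ (k + 1)]
    have e1 : (-1 : ℤ) ^ (2 * k + 1) = -1 := by
      rw [pow_succ, pow_mul]; norm_num
    have e2 : (-1 : ℤ) ^ (2 * k + 1 + 1) = 1 := by
      rw [pow_succ, e1]; norm_num
    have e3 : 2 * (k + 1) = 2 * k + 1 + 1 := by ring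
    rw [e1, e2, e3, one_smul, neg_one_smul]
    have := ih
    calc _ = (∑ j ∈ Finset.range (2 * k + 1), (-1 : ℤ) ^ j • s j +
          ∑ j ∈ Finset.range (2 * k + 1), s j) + (s (2 * k + 1 + 1) + s (2 * k + 1 + 1)) := by abel
      _ = _ := by rw [ih]; abel

theorem x_final (k : ℕ) (h : Ch (2 * k) M s) (w : V) (h0 : M 0 w = - s 0)
    (h1 : ∀ i, 1 ≤ i → i ≤ 2 * k → M i w = 0) :
    (PP M (2 * k + 1) ^ (2 * k + 2)) w =
      w - (∑ l ∈ Finset.range (k + 1), s (2 * l) + ∑ l ∈ Finset.range (k + 1), s (2 * l)) := by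
  rw [pow_w _ w (s 0) (x_w w h0 h1), ← sum_ev, Finset.sum_range_succ]
  have e : (PP M (2 * k + 1) ^ (2 * k + 1)) (s 0) = ∑ j ∈ Finset.range (2 * k + 1), s j := by
    rw [pow_succ', Module.End.mul_apply, pow_s h (2 * k) le_rfl, map_zsmul, x_top h, pow_mul]
    norm_num
  rw [e]
  congr 2
  exact Finset.sum_congr rfl fun j hj => pow_s h j (by have := Finset.mem_range.1 hj; omega)

end abs

section conc
variable {G : Type*} [Group G] {K V : Type*} [Field K] [AddCommGroup V] [Module K V]

/-- the operators -/
def Mo (ρ : G →* Module.End K V) (c a : ℕ → G) (k n : ℕ) : Module.End K V :=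
  if n < 2 * k then op ρ c (n + 2) else op ρ a k

/-- the vectors -/
def so (w al : ℕ → V) (k n : ℕ) : V :=
  if n < 2 * k then w (n + 2) else -(al k + ∑ i ∈ Finset.range (k + 1), w (2 * i))

theorem one_add_op (ρ : G →* Module.End K V) (c : ℕ → G) (j : ℕ) : 1 + op ρ c j = ρ (c j) := by
  rw [op]; abel

theorem PP_eq (ρ : G →* Module.End K V) (c a : ℕ → G) (k : ℕ) :
    PP (Mo ρ c a k) (2 * k + 1) = ρ (cp c 2 (2 * k) * a k) := by
  have key : ∀ n ≤ 2 * k, PP (Mo ρ c a k) n = ρ (cp c 2 n) := by
    intro n
    induction n with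
    | zero => intro _; exact (map_one ρ).symm
    | succ n ih =>
      intro hn
      rw [PP, ih (by omega), cp, map_mul, Mo, if_pos (by omega), one_add_op, add_comm 2 n]
  rw [PP, key _ le_rfl, map_mul, Mo, if_neg (by omega), one_add_op]

theorem chain {ρ : G →* Module.End K V} {c a : ℕ → G} {w al : ℕ → V} {k : ℕ}
    (h : Vec (k + 1) (op ρ c) (op ρ a) w al) : Ch (2 * k) (Mo ρ c a k) (so w al k) := by
  have hs : so w al k (2 * k) = -(al k + ∑ i ∈ Finset.range (k + 1), w (2 * i)) := if_neg (by omega)
  have hM : Mo ρ c a k (2 * k) = op ρ a k := if_neg (by omega)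
  have hs' : ∀ n < 2 * k, so w al k n = w (n + 2) := fun n hn => if_pos hn
  have hM' : ∀ n < 2 * k, Mo ρ c a k n = op ρ c (n + 2) := fun n hn => if_pos hn
  refine ⟨fun i hi => ?_, fun i hi => ?_, fun i hi j hj h1 h2 => ?_⟩
  · rw [hM' i hi, hs' i hi]
    rcases Nat.lt_or_ge (i + 1) (2 * k) with hlt | hge
    · rw [hs' _ hlt]
      exact h.dn (i + 2) (by omega)
    · have e : i + 1 = 2 * k := by omega
      rw [e, hs, map_neg, map_add, h.Nal k (by omega) (i + 2) (by omega), zero_add,
        Finset.sum_range_succ, map_add, map_sum, Finset.sum_eq_zero, zero_add]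
      · have := h.up (2 * k) (by omega)
        rw [show i + 2 = 2 * k + 1 by omega, this, neg_neg]
      · intro l hl
        have := Finset.mem_range.1 hl
        exact h.fr (i + 2) (by omega) (2 * l) (by omega) (by omega) (by omega)
  · rw [hs' i hi]
    rcases Nat.lt_or_ge (i + 1) (2 * k) with hlt | hge
    · rw [hs' _ hlt, hM' _ hlt]
      exact h.up (i + 2) (by omega)
    · have e : i + 1 = 2 * k := by omega
      rw [e, hs, hM, neg_neg, show i + 2 = 2 * k + 1 by omega]
      exact h.Ab k (by omega)
  · rcases Nat.lt_or_ge i (2 * k) with hi' | hi'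
    · rw [hM' i hi']
      rcases Nat.lt_or_ge j (2 * k) with hj' | hj'
      · rw [hs' j hj']
        exact h.fr (i + 2) (by omega) (j + 2) (by omega) (by omega) (by omega)
      · have e : j = 2 * k := by omega
        rw [e, hs, map_neg, map_add, h.Nal k (by omega) (i + 2) (by omega), zero_add, map_sum,
          neg_eq_zero]
        rcases Nat.even_or_odd' i with ⟨m, hm | hm⟩
        · refine Finset.sum_eq_zero fun l hl => ?_
          have := Finset.mem_range.1 hl
          exact h.fr (i + 2) (by omega) (2 * l) (by omega) (by omega) (by omega)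
        · have e2 : ∀ l ∈ Finset.range (k + 1), op ρ c (i + 2) (w (2 * l)) =
              (if l = m + 1 then - w (i + 2) else 0) + (if l = m + 2 then w (i + 2) else 0) := by
            intro l hl
            have hl' := Finset.mem_range.1 hl
            by_cases hl1 : l = m + 1
            · rw [if_pos hl1, if_neg (by omega), add_zero]
              have := h.up (2 * l) (by omega)
              rwa [show 2 * l + 1 = i + 2 by omega] at this
            · rw [if_neg hl1, zero_add]
              by_cases hl2 : l = m + 2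
              · rw [if_pos hl2]
                have := h.dn (i + 2) (by omega)
                rwa [show i + 2 + 1 = 2 * l by omega] at this
              · rw [if_neg hl2]
                exact h.fr (i + 2) (by omega) (2 * l) (by omega) (by omega) (by omega)
          rw [Finset.sum_congr rfl e2, Finset.sum_add_distrib, Finset.sum_ite_eq',
            Finset.sum_ite_eq', if_pos (Finset.mem_range.2 (by omega)),
            if_pos (Finset.mem_range.2 (by omega)), neg_add_cancel]
    · have e : i = 2 * k := by omega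
      rw [e, hM]
      rcases Nat.lt_or_ge j (2 * k) with hj' | hj'
      · rw [hs' j hj']
        exact h.Aw k (by omega) (j + 2) (by omega) (by omega)
      · have e : j = 2 * k := by omega
        rw [e, hs, map_neg, map_add, h.Aal k (by omega) k (by omega), zero_add, map_sum,
          neg_eq_zero]
        refine Finset.sum_eq_zero fun l hl => ?_
        have := Finset.mem_range.1 hl
        exact h.Aw k (by omega) (2 * l) (by omega) (by omega)

end conc

/-- leaf CLO: the closed relation -/
theorem t_CLO : S_CLO.{u} := by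
  intro g G _ K V _ _ _ c a ρ w al hg hV hrel
  obtain ⟨k, rfl⟩ : ∃ k, g = k + 1 := ⟨g - 1, by omega⟩
  have hk : 1 ≤ k := by omega
  rw [Nat.add_sub_cancel, show 2 * (k + 1) - 2 = 2 * k by omega] at hrel
  rw [Nat.add_sub_cancel]
  have hch := chain hV
  have h0 : Mo ρ c a k 0 (w 1) = - so w al k 0 := by
    rw [Mo, if_pos (by omega), so, if_pos (by omega)]
    exact hV.up 1 (by omega)
  have h1 : ∀ i, 1 ≤ i → i ≤ 2 * k → Mo ρ c a k i (w 1) = 0 := by
    intro i hi1 hi2
    rw [Mo]
    split_ifs with hlt
    · exact hV.fr (i + 2) (by omega) 1 (by omega) (by omega) (by omega)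
    · exact hV.Aw k (by omega) 1 (by omega) (by omega)
  have hf := x_final k hch (w 1) h0 h1
  rw [PP_eq, ← map_pow, show 2 * k + 2 = 2 * (k + 1) by ring, hrel, map_mul,
    Module.End.mul_apply] at hf
  have hc : ∀ v, ρ (c 0) v = v + op ρ c 0 v := by
    intro v
    rw [op, LinearMap.sub_apply, Module.End.one_apply]
    abel
  have d1 : op ρ c 0 (w 1) = w 0 := hV.dn 0 (by omega)
  have d2 : op ρ c 0 (w 0) = 0 := hV.fr 0 (by omega) 0 (by omega) (by omega) (by omega)
  rw [hc (w 1), d1, map_add, hc (w 1), d1, hc (w 0), d2, add_zero, Finset.sum_range_succ] at hf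
  have hs : so w al k (2 * k) = -(al k + ∑ i ∈ Finset.range (k + 1), w (2 * i)) :=
    if_neg (by omega)
  have hs' : ∑ l ∈ Finset.range k, so w al k (2 * l) = ∑ l ∈ Finset.range k, w (2 * (l + 1)) := by
    refine Finset.sum_congr rfl fun l hl => ?_
    have := Finset.mem_range.1 hl
    rw [so, if_pos (by omega)]
    rfl
  rw [hs, hs', Finset.sum_range_succ' (fun i => w (2 * i))] at hf
  simp only [mul_zero] at hf
  have h3 : al k + al k = (w 1 - (∑ l ∈ Finset.range k, w (2 * (l + 1)) +
      -(al k + (∑ l ∈ Finset.range k, w (2 * (l + 1)) + w 0)) +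
      (∑ l ∈ Finset.range k, w (2 * (l + 1)) +
      -(al k + (∑ l ∈ Finset.range k, w (2 * (l + 1)) + w 0))))) - (w 1 + w 0 + w 0) := by
    abel
  rw [h3, ← hf, sub_self]

end Pool.Agent.N66.TA.CLO
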