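import Pool.Agent.N66.TA.Stm

set_option autoImplicit false

/-! Leaf DD of project TA: evaluation of the two expressions of `D`. -/

namespace Pool.Agent.N66.TA.DD

open Pool.Agent.N66.TA

universe u

/-- coordinates of integral combinations of `h_i, h_{i+1}, h_{i+2}, b_i, b_{i+1}, b_{i+2}, k_i,
k_{i+1}` -/
structure P8 where
  h0 : ℤ
  h1 : ℤ
  h2 : ℤ
  b0 : ℤ
  b1 : ℤ
  b2 : ℤ
  k0 : ℤ
  k1 : ℤ
  deriving DecidableEq

def pa0 : Equiv.Perm P8 where
  toFun v := { v with h0 := v.h0 + v.b0 }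
  invFun v := { v with h0 := v.h0 - v.b0 }
  left_inv v := by simp
  right_inv v := by simp

def pa1 : Equiv.Perm P8 where
  toFun v := { v with h1 := v.h1 + v.b1 }
  invFun v := { v with h1 := v.h1 - v.b1 }
  left_inv v := by simp
  right_inv v := by simp

def pa2 : Equiv.Perm P8 where
  toFun v := { v with h2 := v.h2 + v.b2 }
  invFun v := { v with h2 := v.h2 - v.b2 }
  left_inv v := by simp
  right_inv v := by simp

def pc1 : Equiv.Perm P8 where
  toFun v := { v with b0 := v.b0 - v.h0 }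
  invFun v := { v with b0 := v.b0 + v.h0 }
  left_inv v := by simp
  right_inv v := by simp

def pc3 : Equiv.Perm P8 where
  toFun v := { v with b1 := v.b1 - v.h1 }
  invFun v := { v with b1 := v.b1 + v.h1 }
  left_inv v := by simp
  right_inv v := by simp

def pc5 : Equiv.Perm P8 where
  toFun v := { v with b2 := v.b2 - v.h2 }
  invFun v := { v with b2 := v.b2 + v.h2 }
  left_inv v := by simp
  right_inv v := by simp

def pc2 : Equiv.Perm P8 where
  toFun v := { v with
    h1 := v.h1 + (v.b1 - v.b0), h0 := v.h0 - (v.b1 - v.b0), k0 := v.k0 - (v.b1 - v.b0) }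
  invFun v := { v with
    h1 := v.h1 - (v.b1 - v.b0), h0 := v.h0 + (v.b1 - v.b0), k0 := v.k0 + (v.b1 - v.b0) }
  left_inv v := by simp
  right_inv v := by simp

def pc4 : Equiv.Perm P8 where
  toFun v := { v with
    h2 := v.h2 + (v.b2 - v.b1), h1 := v.h1 - (v.b2 - v.b1), k1 := v.k1 - (v.b2 - v.b1) }
  invFun v := { v with
    h2 := v.h2 - (v.b2 - v.b1), h1 := v.h1 + (v.b2 - v.b1), k1 := v.k1 + (v.b2 - v.b1) }
  left_inv v := by simp
  right_inv v := by simp

/-- `T_i` -/
def pT (a b c : Equiv.Perm P8) : Equiv.Perm P8 :=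
  (Rw a b * Rw a b) * c * (Rw a b * Rw a b)⁻¹

def pT0 : Equiv.Perm P8 := pT pa0 pc1 pc2
def pT1 : Equiv.Perm P8 := pT pa1 pc3 pc4
def pS0 : Equiv.Perm P8 := Sw pa0 pc1 pT0 pc3 pa1
def pS1 : Equiv.Perm P8 := Sw pa1 pc3 pT1 pc5 pa2
def pQ0 : Equiv.Perm P8 := Qw pa0 pc1
def pQ1 : Equiv.Perm P8 := Qw pa1 pc3

def pD1 : Equiv.Perm P8 := pS1⁻¹ * (pQ1 * pT0 * pQ1⁻¹ * pS1)
def pD2 : Equiv.Perm P8 := pQ0⁻¹ * (pS0 * pT1 * pS0⁻¹ * pQ0)

theorem ev1 : pD1 ⟨0, 0, 0, 1, 0, 0, 0, 0⟩ = ⟨1, 0, 1, 1, 0, 0, -1, 0⟩ := by decide +kernel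

theorem ev2 : pD2 ⟨0, 0, 0, 1, 0, 0, 0, 0⟩ = ⟨1, 0, 1, 1, 0, 0, 0, -1⟩ := by decide +kernel

section
variable {G : Type*} [Group G] {K V : Type*} [Field K] [AddCommGroup V] [Module K V]
variable (ρ : G →* Module.End K V) (h0 h1 h2 b0 b1 b2 k0 k1 : V)

/-- the combination with the coordinates `v` -/
def Φ (v : P8) : V :=
  v.h0 • h0 + v.h1 • h1 + v.h2 • h2 + v.b0 • b0 + v.b1 • b1 + v.b2 • b2 + v.k0 • k0 + v.k1 • k1

/-- `x` acts like `p` -/
def Act (F : P8 → V) (x : G) (p : Equiv.Perm P8) : Prop := ∀ v, ρ x (F v) = F (p v)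

variable {ρ} {F : P8 → V}

theorem Act.mul {x y : G} {p q : Equiv.Perm P8} (hx : Act ρ F x p) (hy : Act ρ F y q) :
    Act ρ F (x * y) (p * q) := by
  intro v
  rw [map_mul, Module.End.mul_apply, hy v, hx (q v)]
  rfl

theorem Act.inv {x : G} {p : Equiv.Perm P8} (hx : Act ρ F x p) : Act ρ F x⁻¹ p⁻¹ := by
  intro v
  have h := hx (p⁻¹ v)
  have e : p (p⁻¹ v) = v := p.apply_symm_apply v
  rw [e] at h
  rw [← h, ← Module.End.mul_apply, ← map_mul, inv_mul_cancel, map_one, Module.End.one_apply]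

theorem Act.Rw {x y : G} {p q : Equiv.Perm P8} (hx : Act ρ F x p) (hy : Act ρ F y q) :
    Act ρ F (Pool.Agent.N66.TA.Rw x y) (Pool.Agent.N66.TA.Rw p q) :=
  (hx.mul hy).mul hx

theorem Act.Qw {x y : G} {p q : Equiv.Perm P8} (hx : Act ρ F x p) (hy : Act ρ F y q) :
    Act ρ F (Pool.Agent.N66.TA.Qw x y) (Pool.Agent.N66.TA.Qw p q) :=
  ((hx.Rw hy).mul (hx.Rw hy)).mul ((hx.Rw hy).mul (hx.Rw hy))

theorem Act.Sw {x1 x2 x3 x4 x5 : G} {p1 p2 p3 p4 p5 : Equiv.Perm P8} (h1 : Act ρ F x1 p1)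
    (h2 : Act ρ F x2 p2) (h3 : Act ρ F x3 p3) (h4 : Act ρ F x4 p4) (h5 : Act ρ F x5 p5) :
    Act ρ F (Pool.Agent.N66.TA.Sw x1 x2 x3 x4 x5) (Pool.Agent.N66.TA.Sw p1 p2 p3 p4 p5) :=
  ((((((((h1.mul h2).mul h3).mul h4).mul h5).mul (((h1.mul h2).mul h3).mul h4)).mul
    ((h1.mul h2).mul h3)).mul (h1.mul h2)).mul h1)

theorem Act.T {x y z : G} {p q r : Equiv.Perm P8} (hx : Act ρ F x p) (hy : Act ρ F y q)
    (hz : Act ρ F z r) : Act ρ F ((Pool.Agent.N66.TA.Rw x y * Pool.Agent.N66.TA.Rw x y) * z *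
      (Pool.Agent.N66.TA.Rw x y * Pool.Agent.N66.TA.Rw x y)⁻¹) (pT p q r) :=
  (((hx.Rw hy).mul (hx.Rw hy)).mul hz).mul ((hx.Rw hy).mul (hx.Rw hy)).inv

end

/-- the vector `h_m` -/
def hv {V : Type*} [AddCommGroup V] (w al : ℕ → V) (m : ℕ) : V :=
  al m + ∑ l ∈ Finset.range (m + 1), w (2 * l)

section
variable {K V : Type*} [Field K] [AddCommGroup V] [Module K V] {g : ℕ}
  {N A : ℕ → Module.End K V} {w al : ℕ → V}

theorem Ab' (H : Vec g N A w al) {m : ℕ} (hm : m < g) : A m (w (2 * m + 1)) = hv w al m :=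
  H.Ab m hm

theorem Ah (H : Vec g N A w al) {m l : ℕ} (hm : m < g) (hl : l < g) : A m (hv w al l) = 0 := by
  rw [hv, map_add, map_sum, H.Aal l hl m hm, zero_add]
  refine Finset.sum_eq_zero fun j hj => ?_
  rw [Finset.mem_range] at hj
  exact H.Aw m hm (2 * j) (by omega) (by omega)

theorem Nh_even (H : Vec g N A w al) {j l : ℕ} (hj : 2 * j < 2 * g) (hl : l < g) :
    N (2 * j) (hv w al l) = 0 := by
  rw [hv, map_add, map_sum, H.Nal l hl _ hj, zero_add]
  refine Finset.sum_eq_zero fun i hi => ?_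
  rw [Finset.mem_range] at hi
  exact H.fr _ hj (2 * i) (by omega) (by omega) (by omega)

theorem Nh_low (H : Vec g N A w al) {m l : ℕ} (hm : m < g) (hl : l < m) :
    N (2 * m + 1) (hv w al l) = 0 := by
  rw [hv, map_add, map_sum, H.Nal l (by omega) _ (by omega), zero_add]
  refine Finset.sum_eq_zero fun i hi => ?_
  rw [Finset.mem_range] at hi
  exact H.fr _ (by omega) (2 * i) (by omega) (by omega) (by omega)

theorem Nh_self (H : Vec g N A w al) {m : ℕ} (hm : m < g) :
    N (2 * m + 1) (hv w al m) = - w (2 * m + 1) := by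
  rw [hv, map_add, map_sum, H.Nal m hm _ (by omega), zero_add, Finset.sum_range_succ,
    Finset.sum_eq_zero, zero_add]
  · exact H.up (2 * m) (by omega)
  · intro i hi
    rw [Finset.mem_range] at hi
    exact H.fr _ (by omega) (2 * i) (by omega) (by omega) (by omega)

theorem hv_succ (m : ℕ) :
    hv w al (m + 1) = hv w al m + (al (m + 1) - al m) + w (2 * m + 2) := by
  rw [hv, hv, Finset.sum_range_succ, show 2 * (m + 1) = 2 * m + 2 by ring]
  abel

theorem Nh_high (H : Vec g N A w al) {m : ℕ} (hm : m < g) (n : ℕ) (hn : m + 1 + n < g) :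
    N (2 * m + 1) (hv w al (m + 1 + n)) = 0 := by
  induction n with
  | zero =>
    rw [add_zero, hv_succ, map_add, map_add, map_sub, Nh_self H hm,
      H.Nal (m + 1) (by omega) _ (by omega), H.Nal m hm _ (by omega),
      H.dn (2 * m + 1) (by omega)]
    abel
  | succ n ih =>
    rw [← add_assoc, hv_succ, map_add, map_add, map_sub, ih (by omega),
      H.Nal _ (by omega) _ (by omega), H.Nal _ (by omega) _ (by omega),
      H.fr _ (by omega) _ (by omega) (by omega) (by omega)]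
    abel

end

theorem t_DD : S_DD.{u} := by
  intro g G _ K V _ _ _ c a ρ w al i D hi H hD
  have e2 : w (2 * i + 2) = hv w al (i + 1) - hv w al i - (al (i + 1) - al i) := by
    rw [hv_succ]; abel
  have e4 : w (2 * i + 4) = hv w al (i + 2) - hv w al (i + 1) - (al (i + 2) - al (i + 1)) := by
    rw [show i + 2 = (i + 1) + 1 by ring, hv_succ (i + 1), show 2 * (i + 1) + 2 = 2 * i + 4 by ring]
    abel
  set h0 := hv w al i with hh0
  set h1 := hv w al (i + 1) with hh1
  set h2 := hv w al (i + 2) with hh2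
  set F : P8 → V := Φ h0 h1 h2 (w (2 * i + 1)) (w (2 * i + 3)) (w (2 * i + 5))
    (al (i + 1) - al i) (al (i + 2) - al (i + 1)) with hF
  have hc : ∀ j v, ρ (c j) v = v + op ρ c j v := by
    intro j v
    rw [op, LinearMap.sub_apply, Module.End.one_apply]
    abel
  have ha : ∀ j v, ρ (a j) v = v + op ρ a j v := by
    intro j v
    rw [op, LinearMap.sub_apply, Module.End.one_apply]
    abel
  have A0 : Act ρ F (a i) pa0 := by
    intro v
    rw [ha]
    simp only [hF, Φ, pa0, Equiv.coe_fn_mk, map_add, map_sub, map_zsmul]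
    rw [Ah H (by omega) (by omega), Ah H (by omega) (by omega), Ah H (by omega) (by omega),
      Ab' H (by omega), H.Aw i (by omega) (2 * i + 3) (by omega) (by omega),
      H.Aw i (by omega) (2 * i + 5) (by omega) (by omega), H.Aal _ (by omega) _ (by omega),
      H.Aal _ (by omega) _ (by omega), H.Aal _ (by omega) _ (by omega), ← hh0]
    module
  have A1 : Act ρ F (a (i + 1)) pa1 := by
    intro v
    rw [ha]
    simp only [hF, Φ, pa1, Equiv.coe_fn_mk, map_add, map_sub, map_zsmul]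
    rw [Ah H (by omega) (by omega), Ah H (by omega) (by omega), Ah H (by omega) (by omega),
      H.Aw (i + 1) (by omega) (2 * i + 1) (by omega) (by omega),
      show 2 * i + 3 = 2 * (i + 1) + 1 by ring, Ab' H (by omega),
      H.Aw (i + 1) (by omega) (2 * i + 5) (by omega) (by omega), H.Aal _ (by omega) _ (by omega),
      H.Aal _ (by omega) _ (by omega), H.Aal _ (by omega) _ (by omega), ← hh1]
    module
  have A2 : Act ρ F (a (i + 2)) pa2 := by
    intro v
    rw [ha]
    simp only [hF, Φ, pa2, Equiv.coe_fn_mk, map_add, map_sub, map_zsmul]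
    rw [Ah H (by omega) (by omega), Ah H (by omega) (by omega), Ah H (by omega) (by omega),
      H.Aw (i + 2) (by omega) (2 * i + 1) (by omega) (by omega),
      H.Aw (i + 2) (by omega) (2 * i + 3) (by omega) (by omega),
      show 2 * i + 5 = 2 * (i + 2) + 1 by ring, Ab' H (by omega),
      H.Aal _ (by omega) _ (by omega),
      H.Aal _ (by omega) _ (by omega), H.Aal _ (by omega) _ (by omega), ← hh2]
    module
  have C1 : Act ρ F (c (2 * i + 1)) pc1 := by
    intro v
    rw [hc]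
    simp only [hF, Φ, pc1, Equiv.coe_fn_mk, map_add, map_sub, map_zsmul]
    rw [Nh_self H (by omega), hh1, Nh_high H (m := i) (by omega) 0 (by omega), hh2,
      show i + 2 = i + 1 + 1 by ring, Nh_high H (m := i) (by omega) 1 (by omega),
      H.fr (2 * i + 1) (by omega) (2 * i + 1) (by omega) (by omega) (by omega),
      H.fr (2 * i + 1) (by omega) (2 * i + 3) (by omega) (by omega) (by omega),
      H.fr (2 * i + 1) (by omega) (2 * i + 5) (by omega) (by omega) (by omega),
      H.Nal _ (by omega) _ (by omega), H.Nal _ (by omega) _ (by omega),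
      H.Nal _ (by omega) _ (by omega)]
    module
  have C3 : Act ρ F (c (2 * i + 3)) pc3 := by
    intro v
    rw [hc]
    simp only [hF, Φ, pc3, Equiv.coe_fn_mk, map_add, map_sub, map_zsmul]
    have q0 : op ρ c (2 * i + 3) h0 = 0 := Nh_low H (m := i + 1) (by omega) (by omega)
    have q1 : op ρ c (2 * i + 3) h1 = - w (2 * i + 3) := Nh_self H (m := i + 1) (by omega)
    have q2 : op ρ c (2 * i + 3) h2 = 0 := Nh_high H (m := i + 1) (by omega) 0 (by omega)
    rw [q0, q1, q2,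
      H.fr (2 * i + 3) (by omega) (2 * i + 1) (by omega) (by omega) (by omega),
      H.fr (2 * i + 3) (by omega) (2 * i + 3) (by omega) (by omega) (by omega),
      H.fr (2 * i + 3) (by omega) (2 * i + 5) (by omega) (by omega) (by omega),
      H.Nal _ (by omega) _ (by omega), H.Nal _ (by omega) _ (by omega),
      H.Nal _ (by omega) _ (by omega)]
    module
  have C5 : Act ρ F (c (2 * i + 5)) pc5 := by
    intro v
    rw [hc]
    simp only [hF, Φ, pc5, Equiv.coe_fn_mk, map_add, map_sub, map_zsmul]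
    have q0 : op ρ c (2 * i + 5) h0 = 0 := Nh_low H (m := i + 2) (by omega) (by omega)
    have q1 : op ρ c (2 * i + 5) h1 = 0 := Nh_low H (m := i + 2) (by omega) (by omega)
    have q2 : op ρ c (2 * i + 5) h2 = - w (2 * i + 5) := Nh_self H (m := i + 2) (by omega)
    rw [q0, q1, q2,
      H.fr (2 * i + 5) (by omega) (2 * i + 1) (by omega) (by omega) (by omega),
      H.fr (2 * i + 5) (by omega) (2 * i + 3) (by omega) (by omega) (by omega),
      H.fr (2 * i + 5) (by omega) (2 * i + 5) (by omega) (by omega) (by omega),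
      H.Nal _ (by omega) _ (by omega), H.Nal _ (by omega) _ (by omega),
      H.Nal _ (by omega) _ (by omega)]
    module
  have C2 : Act ρ F (c (2 * i + 2)) pc2 := by
    intro v
    rw [hc]
    simp only [hF, Φ, pc2, Equiv.coe_fn_mk, map_add, map_sub, map_zsmul]
    have q0 : op ρ c (2 * i + 2) h0 = 0 := Nh_even H (j := i + 1) (by omega) (by omega)
    have q1 : op ρ c (2 * i + 2) h1 = 0 := Nh_even H (j := i + 1) (by omega) (by omega)
    have q2 : op ρ c (2 * i + 2) h2 = 0 := Nh_even H (j := i + 1) (by omega) (by omega)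
    have q3 : op ρ c (2 * i + 2) (w (2 * i + 1)) = - w (2 * i + 2) := H.up (2 * i + 1) (by omega)
    have q4 : op ρ c (2 * i + 2) (w (2 * i + 3)) = w (2 * i + 2) := H.dn (2 * i + 2) (by omega)
    rw [q0, q1, q2, q3, q4, e2,
      H.fr (2 * i + 2) (by omega) (2 * i + 5) (by omega) (by omega) (by omega),
      H.Nal _ (by omega) _ (by omega), H.Nal _ (by omega) _ (by omega),
      H.Nal _ (by omega) _ (by omega)]
    module
  have C4 : Act ρ F (c (2 * i + 4)) pc4 := by
    intro v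
    rw [hc]
    simp only [hF, Φ, pc4, Equiv.coe_fn_mk, map_add, map_sub, map_zsmul]
    have q0 : op ρ c (2 * i + 4) h0 = 0 := Nh_even H (j := i + 2) (by omega) (by omega)
    have q1 : op ρ c (2 * i + 4) h1 = 0 := Nh_even H (j := i + 2) (by omega) (by omega)
    have q2 : op ρ c (2 * i + 4) h2 = 0 := Nh_even H (j := i + 2) (by omega) (by omega)
    have q3 : op ρ c (2 * i + 4) (w (2 * i + 3)) = - w (2 * i + 4) := H.up (2 * i + 3) (by omega)
    have q4 : op ρ c (2 * i + 4) (w (2 * i + 5)) = w (2 * i + 4) := H.dn (2 * i + 4) (by omega)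
    rw [q0, q1, q2, q3, q4, e4,
      H.fr (2 * i + 4) (by omega) (2 * i + 1) (by omega) (by omega) (by omega),
      H.Nal _ (by omega) _ (by omega), H.Nal _ (by omega) _ (by omega),
      H.Nal _ (by omega) _ (by omega)]
    module
  have T0 : Act ρ F (TT c a i) pT0 := Act.T A0 C1 C2
  have T1 : Act ρ F (TT c a (i + 1)) pT1 := Act.T A1 C3 C4
  have S0 : Act ρ F (Si c a i) pS0 := Act.Sw A0 C1 T0 C3 A1
  have S1 : Act ρ F (Si c a (i + 1)) pS1 := Act.Sw A1 C3 T1 C5 A2
  have Q0 : Act ρ F (Qi c a i) pQ0 := Act.Qw A0 C1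
  have Q1 : Act ρ F (Qi c a (i + 1)) pQ1 := Act.Qw A1 C3
  have D1 : D = (Si c a (i + 1))⁻¹ *
      (Qi c a (i + 1) * TT c a i * (Qi c a (i + 1))⁻¹ * Si c a (i + 1)) := by
    have h := hD.d1
    rw [eq_inv_mul_iff_mul_eq]
    exact mul_right_cancel h
  have D2 : D = (Qi c a i)⁻¹ * (Si c a i * TT c a (i + 1) * (Si c a i)⁻¹ * Qi c a i) := by
    rw [← hD.d2]
    group
  have E1 : Act ρ F D pD1 := by
    rw [D1]
    exact S1.inv.mul (((Q1.mul T0).mul Q1.inv).mul S1)
  have E2 : Act ρ F D pD2 := by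
    rw [D2]
    exact Q0.inv.mul (((S0.mul T1).mul S0.inv).mul Q0)
  have h := (E1 ⟨0, 0, 0, 1, 0, 0, 0, 0⟩).symm.trans (E2 ⟨0, 0, 0, 1, 0, 0, 0, 0⟩)
  rw [ev1, ev2] at h
  simp only [hF, Φ, zero_smul, one_smul, neg_smul, add_zero] at h
  have := add_left_cancel (a := h0 + h2 + w (2 * i + 1)) (b := -(al (i + 1) - al i))
    (c := -(al (i + 2) - al (i + 1))) (by
      simpa using h)
  exact (neg_injective this).symm

end Pool.Agent.N66.TA.DD
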