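import Pool.Agent.N66.TA.Stm

set_option autoImplicit false

/-! Leaf DEC (helper143): the decomposition of `V1`. -/

namespace Pool.Agent.N66.TA.DEC

open Pool.Agent.N66.TA

universe u

variable {K V : Type u} [Field K] [AddCommGroup V] [Module K V]

structure Hyp (g : ℕ) (N A : ℕ → Module.End K V) : Prop where
  g3 : 3 ≤ g
  rel : ORel g N A
  vec : ∀ y ∈ V1 g N A, Vec g N A (fun j => wl N j y) (fun m => alp N A m y)
  img : ∀ j < 2 * g, ∀ y ∈ V1 g N A, ∃ z ∈ V1 g N A, N j y = wl N j z
  mem : ∀ j < 2 * g, ∀ y, wl N j y ∈ V1 g N A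
  al : ∀ y ∈ V1 g N A, ∀ m < g, alp N A m y = 0
  u : ∀ v, N 0 v + N 0 (N 1 (N 0 v)) = 0

variable {g : ℕ} {N A : ℕ → Module.End K V}

theorem zero_iff (h : Hyp g N A) {z : V} (hz : z ∈ V1 g N A) {i : ℕ} (hi : i < 2 * g)
    (h0 : wl N i z = 0) : ∀ j < 2 * g, wl N j z = 0 := by
  have hv := h.vec z hz
  have down : ∀ i, i < 2 * g → wl N i z = 0 → wl N 0 z = 0 := by
    intro i
    induction i with
    | zero => exact fun _ h => h
    | succ n ih =>
      intro h1 h2
      refine ih (by omega) ?_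
      have h3 : N n (wl N (n + 1) z) = wl N n z := hv.dn n h1
      rw [← h3, h2, map_zero]
  have h00 := down i hi h0
  intro j
  induction j with
  | zero => exact fun _ => h00
  | succ n ih =>
    intro h1
    have h3 : N (n + 1) (wl N n z) = - wl N (n + 1) z := hv.up n h1
    rw [ih (by omega), map_zero] at h3
    exact (neg_eq_zero.1 h3.symm)

theorem gen_N (j : ℕ) (hj : j < 2 * g) (v : V) : N j v ∈ V1 g N A :=
  Submodule.subset_span ⟨v, Or.inl ⟨j, hj, rfl⟩⟩

theorem gen_A (m : ℕ) (hm : m < g) (v : V) : A m v ∈ V1 g N A :=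
  Submodule.subset_span ⟨v, Or.inr ⟨m, hm, rfl⟩⟩

/-- the sums `∑ w_j y_j` -/
def W (g : ℕ) (N A : ℕ → Module.End K V) : Submodule K V where
  carrier := {v | ∃ y : ℕ → V, (∀ j, y j ∈ V1 g N A) ∧ v = ∑ j ∈ Finset.range (2 * g), wl N j (y j)}
  zero_mem' := ⟨fun _ => 0, fun _ => Submodule.zero_mem _, by simp⟩
  add_mem' := by
    rintro v w ⟨y, hy, rfl⟩ ⟨z, hz, rfl⟩
    refine ⟨fun j => y j + z j, fun j => Submodule.add_mem _ (hy j) (hz j), ?_⟩
    rw [← Finset.sum_add_distrib]
    exact Finset.sum_congr rfl fun j _ => (map_add _ _ _).symm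
  smul_mem' := by
    rintro r v ⟨y, hy, rfl⟩
    refine ⟨fun j => r • y j, fun j => Submodule.smul_mem _ _ (hy j), ?_⟩
    rw [Finset.smul_sum]
    exact Finset.sum_congr rfl fun j _ => (map_smul _ _ _).symm

theorem wl_mem_W (j : ℕ) (hj : j < 2 * g) (y : V) (hy : y ∈ V1 g N A) : wl N j y ∈ W g N A := by
  refine ⟨fun i => if i = j then y else 0, fun i => ?_, ?_⟩
  · simp only
    split_ifs
    · exact hy
    · exact Submodule.zero_mem _
  · rw [Finset.sum_eq_single j]
    · simp only [if_true]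
    · intro i _ hij
      simp only [if_neg hij, map_zero]
    · intro h
      exact absurd (Finset.mem_range.2 hj) h

theorem V1_le_W (h : Hyp g N A) : V1 g N A ≤ W g N A := by
  have hg := h.g3
  have hN : ∀ j < 2 * g, ∀ y ∈ V1 g N A, -(N j y) ∈ W g N A := by
    intro j hj y hy
    obtain ⟨z, hz, e⟩ := h.img j hj y hy
    rw [e]
    exact Submodule.neg_mem _ (wl_mem_W j hj z hz)
  refine Submodule.span_le.2 ?_
  rintro v ⟨u, ⟨j, hj, rfl⟩ | ⟨m, hm, rfl⟩⟩
  · rcases Nat.lt_or_ge (j + 1) (2 * g) with hj1 | hj1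
    · have h1 := h.rel.uu j hj1 u
      rw [h.u, add_eq_zero_iff_eq_neg] at h1
      rw [h1]
      exact hN j hj _ (gen_N (j + 1) hj1 _)
    · have hj' : j = (2 * g - 2) + 1 := by omega
      have h1 := h.rel.br (2 * g - 2) (by omega) u
      rw [h.rel.uu (2 * g - 2) (by omega) u, h.u, ← hj'] at h1
      have h2 := add_eq_zero_iff_eq_neg.1 h1.symm
      rw [h2]
      exact hN j hj _ (gen_N (2 * g - 2) (by omega) _)
  · have h1 := h.rel.uuA m hm u
    rw [h.u, add_eq_zero_iff_eq_neg] at h1
    obtain ⟨z, hz, e⟩ := h.img (2 * m + 1) (by omega) (A m u) (gen_A m hm u)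
    rw [h1, e]
    have h2 := h.al z hz m hm
    unfold alp at h2
    rw [sub_eq_zero] at h2
    rw [h2]
    refine Submodule.neg_mem _ (Submodule.sum_mem _ fun i hi => ?_)
    have := Finset.mem_range.1 hi
    exact wl_mem_W (2 * i) (by omega) z hz

/-- a sum `∑ w_j y_j` killed by all `N_i` is trivial -/
theorem core (h : Hyp g N A) (y : ℕ → V) (hy : ∀ j, y j ∈ V1 g N A)
    (h0 : ∀ i < 2 * g, N i (∑ j ∈ Finset.range (2 * g), wl N j (y j)) = 0) :
    ∀ k < 2 * g, ∀ j < 2 * g, wl N j (y k) = 0 := by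
  have hg := h.g3
  have hfr : ∀ i < 2 * g, ∀ j ∈ Finset.range (2 * g), i ≠ j + 1 → j ≠ i + 1 →
      N i (wl N j (y j)) = 0 := fun i hi j hj h1 h2 =>
    (h.vec (y j) (hy j)).fr i hi j (Finset.mem_range.1 hj) h1 h2
  have hdn : ∀ i, i + 1 < 2 * g → N i (wl N (i + 1) (y (i + 1))) = wl N i (y (i + 1)) :=
    fun i hi => (h.vec (y (i + 1)) (hy (i + 1))).dn i hi
  have hup : ∀ i, i + 1 < 2 * g → N (i + 1) (wl N i (y i)) = - wl N (i + 1) (y i) :=
    fun i hi => (h.vec (y i) (hy i)).up i hi
  -- the middle relation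
  have hmid : ∀ i, i + 2 < 2 * g → wl N (i + 1) (y (i + 2)) = wl N (i + 1) (y i) := by
    intro i hi
    have h1 := h0 (i + 1) (by omega)
    rw [map_sum, Finset.sum_eq_add (i + 2) i (by omega)] at h1
    · rw [hdn (i + 1) hi, hup i (by omega), ← sub_eq_add_neg, sub_eq_zero] at h1
      exact h1
    · rintro j hj ⟨h2, h3⟩
      exact hfr (i + 1) (by omega) j hj (by omega) (by omega)
    · intro h2
      exact absurd (Finset.mem_range.2 hi) h2
    · intro h2
      exact absurd (Finset.mem_range.2 (by omega)) h2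
  have hfirst : wl N 0 (y 1) = 0 := by
    have h1 := h0 0 (by omega)
    rw [map_sum, Finset.sum_eq_single 1] at h1
    · rw [← hdn 0 (by omega)]
      exact h1
    · intro j hj h2
      exact hfr 0 (by omega) j hj (by omega) (by omega)
    · intro h2
      exact absurd (Finset.mem_range.2 (by omega)) h2
  have hlast : wl N (2 * g - 2 + 1) (y (2 * g - 2)) = 0 := by
    have h1 := h0 (2 * g - 2 + 1) (by omega)
    rw [map_sum, Finset.sum_eq_single (2 * g - 2)] at h1
    · rw [hup (2 * g - 2) (by omega)] at h1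
      exact neg_eq_zero.1 h1
    · intro j hj h2
      have := Finset.mem_range.1 hj
      exact hfr (2 * g - 2 + 1) (by omega) j hj (by omega) (by omega)
    · intro h2
      exact absurd (Finset.mem_range.2 (by omega)) h2
  have hodd : ∀ k, 2 * k + 1 < 2 * g → ∀ j < 2 * g, wl N j (y (2 * k + 1)) = 0 := by
    intro k
    induction k with
    | zero => exact fun _ => zero_iff h (hy 1) (show 0 < 2 * g by omega) hfirst
    | succ n ih =>
      intro h1
      have h2 := hmid (2 * n + 1) (by omega)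
      rw [ih (by omega) (2 * n + 1 + 1) (by omega)] at h2
      exact zero_iff h (hy _) (show 2 * n + 1 + 1 < 2 * g by omega) h2
  have heven : ∀ k, k < g → ∀ j < 2 * g, wl N j (y (2 * g - 2 - 2 * k)) = 0 := by
    intro k
    induction k with
    | zero => exact fun _ => zero_iff h (hy _) (show 2 * g - 2 + 1 < 2 * g by omega) hlast
    | succ n ih =>
      intro h1
      have h2 := hmid (2 * g - 2 - 2 * (n + 1)) (by omega)
      have e : 2 * g - 2 - 2 * (n + 1) + 2 = 2 * g - 2 - 2 * n := by omega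
      rw [e, ih (by omega) _ (by omega)] at h2
      exact zero_iff h (hy _) (show 2 * g - 2 - 2 * (n + 1) + 1 < 2 * g by omega) h2.symm
  intro k hk
  rcases Nat.even_or_odd k with ⟨n, hn⟩ | ⟨n, hn⟩
  · have h1 := heven (g - 1 - n) (by omega)
    have e : 2 * g - 2 - 2 * (g - 1 - n) = k := by omega
    rwa [e] at h1
  · rw [hn]
    exact hodd n (by omega)

theorem t_DEC : S_DEC.{u} := by
  intro g K V _ _ _ _ N A hg hB hrel hal hu
  obtain ⟨B1, B2, -, -, B5⟩ := hB g K V N A hg hrel
  have h : Hyp g N A := ⟨hg, hrel, B1, B2, B5, hal, hu⟩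
  refine ⟨?_, ?_⟩
  · rw [Submodule.eq_bot_iff]
    rintro v ⟨hv0, hv1⟩
    obtain ⟨y, hy, rfl⟩ := V1_le_W h hv1
    have h1 := core h y hy fun i hi => hv0.1 i hi
    refine Finset.sum_eq_zero fun j hj => ?_
    exact h1 j (Finset.mem_range.1 hj) j (Finset.mem_range.1 hj)
  · obtain ⟨S, hS⟩ : ∃ S : Submodule K V, S = (V1 g N A).map (wl N 0) := ⟨_, rfl⟩
    let bas := Module.finBasis K S
    have hex : ∀ k, ∃ y ∈ V1 g N A, wl N 0 y = (bas k : V) := by
      intro k
      have h1 : (bas k : V) ∈ (V1 g N A).map (wl N 0) := by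
        rw [← hS]
        exact (bas k).2
      obtain ⟨y, hy, e⟩ := Submodule.mem_map.1 h1
      exact ⟨y, hy, e⟩
    choose y hy hy0 using hex
    refine ⟨Module.finrank K S, y, hy, ?_, ?_⟩
    · rw [Fintype.linearIndependent_iff]
      intro c hc p
      obtain ⟨z, hz⟩ : ∃ z : ℕ → V, z = fun j => if hj : j < 2 * g then
          ∑ k, c (k, ⟨j, hj⟩) • y k else 0 := ⟨_, rfl⟩
      have hzm : ∀ j, z j ∈ V1 g N A := by
        intro j
        rw [hz]
        simp only
        split_ifs
        · exact Submodule.sum_mem _ fun k _ => Submodule.smul_mem _ _ (hy k)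
        · exact Submodule.zero_mem _
      have hsum : ∑ j ∈ Finset.range (2 * g), wl N j (z j) = 0 := by
        rw [Finset.sum_range]
        rw [Fintype.sum_prod_type_right] at hc
        rw [← hc]
        refine Finset.sum_congr rfl fun j _ => ?_
        rw [hz]
        simp only [j.2, dif_pos, map_sum, map_smul]
      have h1 := core h z hzm fun i _ => by rw [hsum, map_zero]
      obtain ⟨k, j⟩ := p
      have h2 := h1 j j.2 0 (by omega)
      rw [hz] at h2
      simp only [j.2, dif_pos, map_sum, map_smul, hy0] at h2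
      have h3 : ∑ k, c (k, j) • bas k = 0 := by
        apply Subtype.ext
        rw [Submodule.coe_sum]
        simpa using h2
      exact Fintype.linearIndependent_iff.1 bas.linearIndependent (fun k => c (k, j)) h3 k
    · apply le_antisymm
      · intro v hv
        obtain ⟨z, hz, rfl⟩ := V1_le_W h hv
        refine Submodule.sum_mem _ fun j hj => ?_
        have hj' := Finset.mem_range.1 hj
        have hmem : wl N 0 (z j) ∈ S := by
          rw [hS]
          exact Submodule.mem_map_of_mem (hz j)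
        obtain ⟨r, hrep⟩ : ∃ r : Fin (Module.finrank K S) → K,
            ∑ k, r k • bas k = ⟨wl N 0 (z j), hmem⟩ := ⟨_, bas.sum_repr ⟨wl N 0 (z j), hmem⟩⟩
        have hrep' : wl N 0 (z j) = ∑ k, r k • (bas k : V) := by
          have := congrArg (fun x : S => (x : V)) hrep
          simp only [Submodule.coe_sum, Submodule.coe_smul] at this
          exact this.symm
        have h2 : wl N 0 (z j - ∑ k, r k • y k) = 0 := by
          rw [map_sub, map_sum, sub_eq_zero, hrep']
          refine Finset.sum_congr rfl fun k _ => ?_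
          rw [map_smul, hy0]
        have h3 := zero_iff h (Submodule.sub_mem _ (hz j)
          (Submodule.sum_mem _ fun k _ => Submodule.smul_mem _ _ (hy k)))
          (show 0 < 2 * g by omega) h2 j hj'
        rw [map_sub, map_sum, sub_eq_zero] at h3
        rw [h3]
        refine Submodule.sum_mem _ fun k _ => ?_
        rw [map_smul]
        exact Submodule.smul_mem _ _ (Submodule.subset_span ⟨(k, ⟨j, hj'⟩), rfl⟩)
      · refine Submodule.span_le.2 ?_
        rintro v ⟨p, rfl⟩
        exact B5 p.2 p.2.2 _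

end Pool.Agent.N66.TA.DEC
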