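import Mathlib
import Pool.Agent.N66.TA.Stm

set_option autoImplicit false

/-! Project TA, leaf DUA: duality. -/

namespace Pool.Agent.N66.TA.DUA

open Pool.Agent.N66.TA

universe u

section
variable {G : Type} [Group G] {K V : Type u} [Field K] [AddCommGroup V] [Module K V]

theorem inv_act (ρ : G →* Module.End K V) (x : G) (v : V) : ρ x (ρ x⁻¹ v) = v := by
  rw [← Module.End.mul_apply, ← map_mul, mul_inv_cancel, map_one, Module.End.one_apply]

theorem inv_act' (ρ : G →* Module.End K V) (x : G) (v : V) : ρ x⁻¹ (ρ x v) = v := by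
  rw [← Module.End.mul_apply, ← map_mul, inv_mul_cancel, map_one, Module.End.one_apply]

theorem op_apply (ρ : G →* Module.End K V) (c : ℕ → G) (j : ℕ) (v : V) :
    op ρ c j v = ρ (c j) v - v := by
  unfold op
  rw [LinearMap.sub_apply, Module.End.one_apply]

theorem opd_apply (ρ : G →* Module.End K V) (c : ℕ → G) (j : ℕ) (ξ : Module.Dual K V) (v : V) :
    op (dr ρ) c j ξ v = ξ (ρ (c j)⁻¹ v) - ξ v := by
  rw [show op (dr ρ) c j ξ = dr ρ (c j) ξ - ξ from by
    unfold op
    rw [LinearMap.sub_apply, Module.End.one_apply]]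
  rw [LinearMap.sub_apply, dr_apply]

/-- a functional which vanishes on the image of `c_j - 1` is invariant -/
theorem fixed (ρ : G →* Module.End K V) (c : ℕ → G) (j : ℕ) (ξ : Module.Dual K V)
    (h : ∀ u, ξ (op ρ c j u) = 0) : op (dr ρ) c j ξ = 0 := by
  refine LinearMap.ext fun v => ?_
  rw [opd_apply, LinearMap.zero_apply]
  have h1 := h (ρ (c j)⁻¹ v)
  rw [op_apply, inv_act, map_sub] at h1
  rw [← neg_sub, h1, neg_zero]

/-- a vector killed by all functionals of the form `(c_j - 1) φ` is invariant -/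
theorem fixed' (ρ : G →* Module.End K V) (c : ℕ → G) (j : ℕ) (v : V)
    (h : ∀ φ : Module.Dual K V, op (dr ρ) c j φ v = 0) : op ρ c j v = 0 := by
  have h1 : ρ (c j)⁻¹ v - v = 0 := by
    rw [← Module.forall_dual_apply_eq_zero_iff K]
    intro φ
    have := h φ
    rw [opd_apply] at this
    rw [map_sub]
    exact this
  have h2 : ρ (c j)⁻¹ v = v := sub_eq_zero.1 h1
  rw [op_apply]
  nth_rewrite 1 [← h2]
  rw [inv_act, sub_self]

end

theorem t_DUA : S_DUA.{u} := by
  intro g G _ K V _ _ _ _ c a ρ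
  refine ⟨fun hinf => ?_, fun x y hxy h => ?_⟩
  · by_contra hne
    obtain ⟨ξ, hξ0, hξ⟩ := Submodule.exists_le_ker_of_lt_top
      (V0 g (op ρ c) (op ρ a) ⊔ V1 g (op ρ c) (op ρ a)) (lt_top_iff_ne_top.2 hne)
    have h0 : ∀ v ∈ V0 g (op ρ c) (op ρ a), ξ v = 0 := fun v hv =>
      LinearMap.mem_ker.1 (hξ ((le_sup_left :
        V0 g (op ρ c) (op ρ a) ≤ V0 g (op ρ c) (op ρ a) ⊔ V1 g (op ρ c) (op ρ a)) hv))
    have h1 : ∀ v ∈ V1 g (op ρ c) (op ρ a), ξ v = 0 := fun v hv =>
      LinearMap.mem_ker.1 (hξ ((le_sup_right :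
        V1 g (op ρ c) (op ρ a) ≤ V0 g (op ρ c) (op ρ a) ⊔ V1 g (op ρ c) (op ρ a)) hv))
    have m0 : ξ ∈ V0 g (op (dr ρ) c) (op (dr ρ) a) := by
      refine ⟨fun j hj => fixed ρ c j ξ fun u => h1 _ (Submodule.subset_span ⟨u, Or.inl ⟨j, hj, rfl⟩⟩),
        fun m hm => fixed ρ a m ξ fun u => h1 _ (Submodule.subset_span ⟨u, Or.inr ⟨m, hm, rfl⟩⟩)⟩
    have m1 : ξ ∈ V1 g (op (dr ρ) c) (op (dr ρ) a) := by
      rw [← Subspace.dualCoannihilator_dualAnnihilator_eq
        (W := V1 g (op (dr ρ) c) (op (dr ρ) a)), Submodule.mem_dualAnnihilator]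
      intro v hv
      rw [Submodule.mem_dualCoannihilator] at hv
      exact h0 v ⟨fun j hj => fixed' ρ c j v fun φ =>
          hv _ (Submodule.subset_span ⟨φ, Or.inl ⟨j, hj, rfl⟩⟩),
        fun m hm => fixed' ρ a m v fun φ =>
          hv _ (Submodule.subset_span ⟨φ, Or.inr ⟨m, hm, rfl⟩⟩)⟩
    have : ξ ∈ (⊥ : Submodule K (Module.Dual K V)) := hinf ▸ Submodule.mem_inf.2 ⟨m0, m1⟩
    exact hξ0 ((Submodule.mem_bot K).1 this)
  · refine LinearMap.ext fun ξ => LinearMap.ext fun v => ?_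
    have e1 : ∀ (z : G) (φ : Module.Dual K V) (v : V), (dr ρ z - 1) φ v = φ (ρ z⁻¹ v) - φ v := by
      intro z φ v
      rw [LinearMap.sub_apply, Module.End.one_apply, LinearMap.sub_apply, dr_apply]
    rw [Module.End.mul_apply, e1, e1, e1, LinearMap.zero_apply, LinearMap.zero_apply]
    set w : V := ρ y⁻¹ (ρ x⁻¹ v) with hw
    have hv : v = ρ x (ρ y w) := by rw [hw, inv_act, inv_act]
    have hx : ρ x⁻¹ v = ρ y w := by rw [hw, inv_act]
    have hy : ρ y⁻¹ v = ρ x w := by
      rw [hv, ← Module.End.mul_apply (ρ x) (ρ y), ← map_mul, hxy.eq, map_mul, Module.End.mul_apply,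
        inv_act']
    have hz : ρ x (ρ y w) - ρ y w - (ρ x w - w) = 0 := by
      have := LinearMap.congr_fun h w
      rw [Module.End.mul_apply, LinearMap.zero_apply, LinearMap.sub_apply, LinearMap.sub_apply,
        Module.End.one_apply, Module.End.one_apply, map_sub] at this
      rw [← this]
      abel
    rw [hx, hy, ← map_sub, ← map_sub, ← map_sub]
    have : w - ρ y w - (ρ x w - v) = 0 := by
      rw [← hz]
      nth_rewrite 1 [hv]
      abel
    rw [this, map_zero]

end Pool.Agent.N66.TA.DUA
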