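import Pool.Agent.N66.TA.Stm2

set_option autoImplicit false

/-! Leaf EX of project TA (helper82): existence of the lifts. -/

namespace Pool.Agent.N66.TA.EX

open Pool.Agent.N66.TA
open Pool.Agent.H29R2.MG Pool.Agent.H798R3.MG

variable {g : ℕ}

theorem ends_fa (f h : ℕ → FG g → FG g) (m : Fin g) : ends g f h (fa m) = f m (fa m) := by
  unfold ends
  rw [fa, FreeGroup.lift_apply_of]
  rfl

theorem ends_fb (f h : ℕ → FG g → FG g) (m : Fin g) : ends g f h (fb m) = h m (fb m) := by
  unfold ends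
  rw [fb, FreeGroup.lift_apply_of]
  rfl

theorem ha_eq {m : ℕ} (h : m < g) : ha g m = fa ⟨m, h⟩ := dif_pos h

theorem hA_fa (i : ℕ) (m : Fin g) : hA g i (fa m) = fa m := ends_fa _ _ _

theorem hA'_fa (i : ℕ) (m : Fin g) : hA' g i (fa m) = fa m := ends_fa _ _ _

theorem hA_fb (i : ℕ) (m : Fin g) : hA g i (fb m) = if (m : ℕ) = i then fb m * ha g i else fb m :=
  ends_fb _ _ _

theorem hA'_fb (i : ℕ) (m : Fin g) :
    hA' g i (fb m) = if (m : ℕ) = i then fb m * (ha g i)⁻¹ else fb m := ends_fb _ _ _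

theorem ext_hom {H : Type*} [Group H] {f h : FG g →* H} (ha : ∀ m, f (fa m) = h (fa m))
    (hb : ∀ m, f (fb m) = h (fb m)) : f = h := by
  refine FreeGroup.ext_hom _ _ fun j => ?_
  rcases j with m | m
  · exact ha m
  · exact hb m

theorem hA_hA' {i : ℕ} (hi : i < g) : (hA g i).comp (hA' g i) = MonoidHom.id _ := by
  refine ext_hom (fun m => ?_) (fun m => ?_)
  · rw [MonoidHom.comp_apply, hA'_fa, hA_fa, MonoidHom.id_apply]
  · rw [MonoidHom.comp_apply, hA'_fb, MonoidHom.id_apply]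
    by_cases h : (m : ℕ) = i
    · rw [if_pos h, map_mul, map_inv, hA_fb, if_pos h, ha_eq hi, hA_fa, mul_inv_cancel_right]
    · rw [if_neg h, hA_fb, if_neg h]

theorem hA'_hA {i : ℕ} (hi : i < g) : (hA' g i).comp (hA g i) = MonoidHom.id _ := by
  refine ext_hom (fun m => ?_) (fun m => ?_)
  · rw [MonoidHom.comp_apply, hA_fa, hA'_fa, MonoidHom.id_apply]
  · rw [MonoidHom.comp_apply, hA_fb, MonoidHom.id_apply]
    by_cases h : (m : ℕ) = i
    · rw [if_pos h, map_mul, hA'_fb, if_pos h, ha_eq hi, hA'_fa, inv_mul_cancel_right]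
    · rw [if_neg h, hA'_fb, if_neg h]

theorem hA_rel {i : ℕ} (hi : i < g) : hA g i (surfaceRelator g) = surfaceRelator g := by
  unfold surfaceRelator
  rw [map_list_prod, List.map_ofFn]
  congr 2
  funext m
  change hA g i (fa m * fb m * (fa m)⁻¹ * (fb m)⁻¹) = fa m * fb m * (fa m)⁻¹ * (fb m)⁻¹
  rw [map_mul, map_mul, map_mul, map_inv, map_inv, hA_fa, hA_fb]
  by_cases h : (m : ℕ) = i
  · have h' : m = ⟨i, hi⟩ := Fin.ext h
    rw [if_pos h, ha_eq hi, ← h']
    group
  · rw [if_neg h]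

theorem hA'_rel {i : ℕ} (hi : i < g) : hA' g i (surfaceRelator g) = surfaceRelator g := by
  have h1 := DFunLike.congr_fun (hA'_hA hi) (surfaceRelator g)
  rw [MonoidHom.comp_apply, hA_rel hi, MonoidHom.id_apply] at h1
  exact h1

/-- the twist about `a_i` -/
def av {i : ℕ} (hi : i < g) : MulAut (SurfaceGroup g) :=
  MonoidHom.toMulEquiv (dsc (hA g i) (hA_rel hi)) (dsc (hA' g i) (hA'_rel hi))
    (by
      refine MonoidHom.ext ?_
      intro y
      obtain ⟨x, rfl⟩ := mk_surjective g y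
      rw [MonoidHom.comp_apply, dsc_mk, dsc_mk]
      have := DFunLike.congr_fun (hA'_hA hi) x
      rw [MonoidHom.comp_apply] at this
      rw [this]
      rfl)
    (by
      refine MonoidHom.ext ?_
      intro y
      obtain ⟨x, rfl⟩ := mk_surjective g y
      rw [MonoidHom.comp_apply, dsc_mk, dsc_mk]
      have := DFunLike.congr_fun (hA_hA' hi) x
      rw [MonoidHom.comp_apply] at this
      rw [this]
      rfl)

theorem av_mk {i : ℕ} (hi : i < g) (x : FG g) : av hi (mk g x) = mk g (hA g i x) :=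
  dsc_mk (hA g i) (hA_rel hi) x

theorem av_pres {i : ℕ} (hi : i < g) : PreservesForm (av hi) := by
  apply pres _ (Pi.single (Sum.inl ⟨i, hi⟩) 1)
  · intro m
    rw [av_mk, hA_fa, tv, form_inl, hc_fa]
    simp
  · intro m
    rw [av_mk, hA_fb, tv, form_inr]
    by_cases h : (m : ℕ) = i
    · have h' : m = ⟨i, hi⟩ := Fin.ext h
      rw [if_pos h, ha_eq hi, map_mul, hc_mul, hc_fb, hc_fa, ← h', Pi.single_eq_same]
      module
    · have h' : (Sum.inl m : Fin g ⊕ Fin g) ≠ Sum.inl ⟨i, hi⟩ := fun e =>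
        h (congrArg Fin.val (Sum.inl_injective e))
      rw [if_neg h, hc_fb, Pi.single_eq_of_ne h', neg_zero, zero_smul, sub_zero]

theorem t_EX : S_EX := by
  intro g
  refine ⟨fun j => if h : j < 2 * g then sv ⟨j, h⟩ else 1, fun m => if h : m < g then av h else 1,
    ⟨fun j h => dif_pos h, fun m hm x => ?_⟩, fun j => ?_, fun m => ?_⟩
  · rw [dif_pos hm]
    exact av_mk hm x
  · simp only
    split_ifs with h
    · exact sv_pres _
    · exact (orientedAut g).one_mem
  · simp only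
    split_ifs with h
    · exact av_pres h
    · exact (orientedAut g).one_mem

end Pool.Agent.N66.TA.EX
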