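import Mathlib
import Pool.Agent.H29R2.MG.Twist
import Pool.Agent.H798R3.MG.FreeDefs
import Pool.Agent.N66.TA.Stm

set_option autoImplicit false

/-! Project TA: the statements of the leaves on automorphisms of the surface group. -/

namespace Pool.Agent.N66.TA

open Pool.Agent.H29R2.MG Pool.Agent.H798R3.MG

/-- the automorphism `φ` of the surface group is induced by the endomorphism `f` of the free
group -/
def IsEnd {g : ℕ} (f : FG g →* FG g) (φ : MulAut (SurfaceGroup g)) : Prop :=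
  ∀ x : FG g, φ (mk g x) = mk g (f x)

/-- `c` is the chain of twists and `a m` is the twist `b_m ↦ b_m a_m` -/
structure Std (g : ℕ) (c a : ℕ → MulAut (SurfaceGroup g)) : Prop where
  hc : ∀ (j : ℕ) (h : j < 2 * g), c j = sv ⟨j, h⟩
  ha : ∀ m < g, IsEnd (hA g m) (a m)

/-- leaf EX: existence -/
def S_EX : Prop := ∀ g : ℕ, ∃ c a : ℕ → MulAut (SurfaceGroup g), Std g c a ∧
  (∀ j, c j ∈ orientedAut g) ∧ ∀ m, a m ∈ orientedAut g

/-- leaf ART: the braid relations -/
def S_ART : Prop := ∀ (g : ℕ) (c a : ℕ → MulAut (SurfaceGroup g)), 1 ≤ g → Std g c a →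
  LickRel g c a

/-- leaf ROT: the rotation `a_i ↦ a_{i+1}`, `b_i ↦ b_{i+1}` (indices modulo `g`) -/
def S_ROT : Prop := ∀ (g : ℕ) (c a : ℕ → MulAut (SurfaceGroup g)), 2 ≤ g → Std g c a →
  ∃ r ∈ orientedAut g,
    (∀ m, m + 1 < g → r * a m = a (m + 1) * r ∧ r * c (2 * m + 1) = c (2 * m + 3) * r) ∧
    (∀ m, m + 2 < g → r * c (2 * m + 2) = c (2 * m + 4) * r)

/-- leaf K0: the relations of the handles `0, 1, 2` -/
def S_K0 : Prop := ∀ (g : ℕ) (c a : ℕ → MulAut (SurfaceGroup g)), 6 ≤ g → Std g c a →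
  ∃ D ∈ orientedAut g, KRel c a 0 D

/-- leaf CL: the relation of the closed surface -/
def S_CL : Prop := ∀ (g : ℕ) (c a : ℕ → MulAut (SurfaceGroup g)), 2 ≤ g → Std g c a →
  ∃ y : SurfaceGroup g, MulAut.conj y * (cp c 2 (2 * g - 2) * a (g - 1)) ^ (2 * g) = c 0 * c 0

end Pool.Agent.N66.TA
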