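import Mathlib
import Pool.Agent.N66.TA.Stm2
import Pool.Agent.R665.MGR.Hum

set_option autoImplicit false
set_option linter.unusedSimpArgs false

/-! Project TA: transfer of the relations to `Mod_g`. -/

namespace Pool.Agent.N66.TA

open Pool.Agent.H29R2.MG Pool.Agent.H798R3.MG

section gen
variable {G H : Type*} [Group G] [Group H]

theorem cp_map (φ : G →* H) (c : ℕ → G) (i n : ℕ) : φ (cp c i n) = cp (fun j => φ (c j)) i n := by
  induction n with
  | zero => exact map_one φ
  | succ n ih =>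
    show φ (cp c i n * c (i + n)) = _
    rw [map_mul, ih]
    rfl

theorem cp_congr {c c' : ℕ → G} (i n : ℕ) (h : ∀ j, i ≤ j → j < i + n → c j = c' j) :
    cp c i n = cp c' i n := by
  induction n with
  | zero => rfl
  | succ n ih =>
    show cp c i n * c (i + n) = cp c' i n * c' (i + n)
    rw [ih (fun j h1 h2 => h j h1 (by omega)), h (i + n) (by omega) (by omega)]

theorem TT_map (φ : G →* H) (c a : ℕ → G) (i : ℕ) :
    φ (TT c a i) = TT (fun j => φ (c j)) (fun j => φ (a j)) i := by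
  simp only [TT, Rw, map_mul, map_inv]

theorem Si_map (φ : G →* H) (c a : ℕ → G) (i : ℕ) :
    φ (Si c a i) = Si (fun j => φ (c j)) (fun j => φ (a j)) i := by
  simp only [Si, Sw, map_mul, TT_map]

theorem Qi_map (φ : G →* H) (c a : ℕ → G) (i : ℕ) :
    φ (Qi c a i) = Qi (fun j => φ (c j)) (fun j => φ (a j)) i := by
  simp only [Qi, Qw, Rw, map_mul]

theorem Li_map (φ : G →* H) (c a : ℕ → G) (i : ℕ) (D : G) :
    φ (Li c a i D) = Li (fun j => φ (c j)) (fun j => φ (a j)) i (φ D) := by
  simp only [Li, map_mul, map_inv, TT_map]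

theorem KRel.map (φ : G →* H) {c a : ℕ → G} {i : ℕ} {D : G} (h : KRel c a i D) :
    KRel (fun j => φ (c j)) (fun j => φ (a j)) i (φ D) where
  d1 := by
    have h1 := congrArg φ h.d1
    simpa only [map_mul, map_inv, Si_map, Qi_map, TT_map] using h1
  d2 := by
    have h1 := congrArg φ h.d2
    simpa only [map_mul, map_inv, Si_map, Qi_map, TT_map] using h1
  lan := by
    have h1 := congrArg φ h.lan
    simpa only [map_mul, map_inv, Li_map] using h1

theorem KRel.congr {c a c' a' : ℕ → G} {i : ℕ} {D : G} (h : KRel c a i D)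
    (hc : ∀ j, 2 * i + 1 ≤ j → j ≤ 2 * i + 5 → c j = c' j)
    (ha : ∀ m, i ≤ m → m ≤ i + 2 → a m = a' m) : KRel c' a' i D := by
  have c1 := hc (2 * i + 1) (by omega) (by omega)
  have c2 := hc (2 * i + 2) (by omega) (by omega)
  have c3 := hc (2 * i + 3) (by omega) (by omega)
  have c4 := hc (2 * (i + 1) + 2) (by omega) (by omega)
  have c5 := hc (2 * (i + 1) + 3) (by omega) (by omega)
  have c6 := hc (2 * (i + 1) + 1) (by omega) (by omega)
  have a0 := ha i (by omega) (by omega)
  have a1 := ha (i + 1) (by omega) (by omega)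
  have a2 := ha (i + 2) (by omega) (by omega)
  have a3 := ha (i + 1 + 1) (by omega) (by omega)
  obtain ⟨h1, h2, h3⟩ := h
  simp only [Si, Qi, Li, TT, c1, c2, c3, c4, c5, c6, a0, a1, a2, a3] at h1 h2 h3
  refine ⟨?_, ?_, ?_⟩
  · simp only [Si, Qi, TT]; exact h1
  · simp only [Si, Qi, TT]; exact h2
  · simp only [Li, TT]; exact h3

theorem KRel.shift {c a : ℕ → G} {i : ℕ} {D : G}
    (h : KRel (fun j => c (j + 2)) (fun m => a (m + 1)) i D) : KRel c a (i + 1) D := by
  have e1 : 2 * (i + 1) + 1 = 2 * i + 1 + 2 := by ring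
  have e2 : 2 * (i + 1) + 2 = 2 * i + 2 + 2 := by ring
  have e3 : 2 * (i + 1) + 3 = 2 * i + 3 + 2 := by ring
  have e4 : 2 * (i + 1 + 1) + 1 = 2 * (i + 1) + 1 + 2 := by ring
  have e5 : 2 * (i + 1 + 1) + 2 = 2 * (i + 1) + 2 + 2 := by ring
  have e6 : 2 * (i + 1 + 1) + 3 = 2 * (i + 1) + 3 + 2 := by ring
  obtain ⟨h1, h2, h3⟩ := h
  refine ⟨?_, ?_, ?_⟩
  · simp only [Si, Qi, TT, e1, e2, e3, e4, e5, e6] at h1 ⊢
    exact h1
  · simp only [Si, Qi, TT, e1, e2, e3, e4, e5, e6] at h2 ⊢
    exact h2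
  · simp only [Li, TT, e1, e2, e3, e4, e5, e6] at h3 ⊢
    exact h3

theorem LickRel.map (φ : G →* H) {g : ℕ} {c a : ℕ → G} (h : LickRel g c a) :
    LickRel g (fun j => φ (c j)) (fun j => φ (a j)) where
  braid := by
    intro j hj
    rw [← map_mul, ← map_mul, ← map_mul, ← map_mul, h.braid j hj]
  far := fun i j h1 h2 => (h.far i j h1 h2).map φ
  braidA := by
    intro m hm
    rw [← map_mul, ← map_mul, ← map_mul, ← map_mul, h.braidA m hm]
  farA := fun m hm j hj h1 => (h.farA m hm j hj h1).map φ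
  commA := fun m hm l hl => (h.commA m hm l hl).map φ
  a0 := by rw [h.a0]

theorem LickRel.of_inj {φ : G →* H} (hφ : Function.Injective φ) {g : ℕ} {c a : ℕ → G}
    (h : LickRel g (fun j => φ (c j)) (fun j => φ (a j))) : LickRel g c a where
  braid := by
    intro j hj
    apply hφ
    simp only [map_mul]
    exact h.braid j hj
  far := by
    intro i j h1 h2
    apply hφ
    simp only [map_mul]
    exact h.far i j h1 h2
  braidA := by
    intro m hm
    apply hφ
    simp only [map_mul]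
    exact h.braidA m hm
  farA := by
    intro m hm j hj h1
    apply hφ
    simp only [map_mul]
    exact h.farA m hm j hj h1
  commA := by
    intro m hm l hl
    apply hφ
    simp only [map_mul]
    exact h.commA m hm l hl
  a0 := hφ h.a0

theorem KRel.of_inj {φ : G →* H} (hφ : Function.Injective φ) {c a : ℕ → G} {i : ℕ} {D : G}
    (h : KRel (fun j => φ (c j)) (fun j => φ (a j)) i (φ D)) : KRel c a i D where
  d1 := by
    apply hφ
    simpa only [map_mul, map_inv, Si_map, Qi_map, TT_map] using h.d1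
  d2 := by
    apply hφ
    simpa only [map_mul, map_inv, Si_map, Qi_map, TT_map] using h.d2
  lan := by
    apply hφ
    simpa only [map_mul, map_inv, Li_map] using h.lan

theorem LickRel.congr {g : ℕ} {c a c' : ℕ → G} (h : LickRel g c a) (hg : 1 ≤ g)
    (hc : ∀ j < 2 * g, c j = c' j) : LickRel g c' a where
  braid := by
    intro j hj
    rw [← hc j (by omega), ← hc (j + 1) hj]
    exact h.braid j hj
  far := by
    intro i j h1 h2
    rw [← hc j h2, ← hc i (by omega)]
    exact h.far i j h1 h2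
  braidA := by
    intro m hm
    rw [← hc (2 * m + 1) (by omega)]
    exact h.braidA m hm
  farA := by
    intro m hm j hj h1
    rw [← hc j hj]
    exact h.farA m hm j hj h1
  commA := h.commA
  a0 := by rw [h.a0, hc 0 (by omega)]

end gen

open Pool.Agent.TH35.MG Pool.Agent.R352.MG Pool.Agent.R665.MGR

/-- the elements and the relations in `Mod_g` -/
theorem mod_rel (hEX : S_EX) (hART : S_ART) (hROT : S_ROT) (hK0 : S_K0) (hCL : S_CL) {g : ℕ}
    (hg : 6 ≤ g) : ∃ a : ℕ → Mod g, IsTwistAt g 1 (a 1) ∧ LickRel g (tt g) a ∧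
      (∀ i, i + 2 < g → ∃ D, KRel (tt g) a i D) ∧
      (cp (tt g) 2 (2 * g - 2) * a (g - 1)) ^ (2 * g) = tt g 0 * tt g 0 := by
  obtain ⟨c, a, hs, hc, ha⟩ := hEX g
  have hL := hART g c a (by omega) hs
  obtain ⟨r, hr, hr1, hr2⟩ := hROT g c a (by omega) hs
  obtain ⟨D, hD, hK⟩ := hK0 g c a hg hs
  obtain ⟨y, hy⟩ := hCL g c a (by omega) hs
  let c1 : ℕ → orientedAut g := fun j => ⟨c j, hc j⟩
  let a1 : ℕ → orientedAut g := fun j => ⟨a j, ha j⟩
  let r1 : orientedAut g := ⟨r, hr⟩
  have hL1 : LickRel g c1 a1 := LickRel.of_inj (orientedAut g).subtype_injective hL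
  have hct : ∀ j < 2 * g, toMod g (c1 j) = tt g j := by
    intro j hj
    rw [tt_lt hj]
    have e : c1 j = (⟨sv ⟨j, hj⟩, sv_pres _⟩ : orientedAut g) := Subtype.ext (hs.hc j hj)
    rw [e]
    rfl
  have hr1' : ∀ m, m + 1 < g → r1 * a1 m * r1⁻¹ = a1 (m + 1) ∧
      r1 * c1 (2 * m + 1) * r1⁻¹ = c1 (2 * m + 3) := by
    intro m hm
    obtain ⟨h1, h2⟩ := hr1 m hm
    exact ⟨mul_inv_eq_of_eq_mul (Subtype.ext h1), mul_inv_eq_of_eq_mul (Subtype.ext h2)⟩
  have hr2' : ∀ m, m + 2 < g → r1 * c1 (2 * m + 2) * r1⁻¹ = c1 (2 * m + 4) := by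
    intro m hm
    exact mul_inv_eq_of_eq_mul (Subtype.ext (hr2 m hm))
  have hK1 : ∀ i, i + 2 < g → ∃ D, KRel c1 a1 i D := by
    intro i
    induction i with
    | zero =>
      intro _
      exact ⟨⟨D, hD⟩, KRel.of_inj (φ := (orientedAut g).subtype)
        (orientedAut g).subtype_injective hK⟩
    | succ i ih =>
      intro hi
      obtain ⟨E, hE⟩ := ih (by omega)
      have h1 := hE.map (MulAut.conj r1).toMonoidHom
      refine ⟨_, KRel.shift (h1.congr (c' := fun j => c1 (j + 2)) (a' := fun m => a1 (m + 1))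
        ?_ ?_)⟩
      · intro j h2 h3
        show MulAut.conj r1 (c1 j) = c1 (j + 2)
        rw [MulAut.conj_apply]
        rcases Nat.even_or_odd' j with ⟨m, rfl | rfl⟩
        · obtain ⟨k, rfl⟩ : ∃ k, m = k + 1 := ⟨m - 1, by omega⟩
          have h4 := hr2' k (by omega)
          rw [show 2 * (k + 1) = 2 * k + 2 by ring]
          exact h4
        · exact (hr1' m (by omega)).2
      · intro m h2 h3
        show MulAut.conj r1 (a1 m) = a1 (m + 1)
        rw [MulAut.conj_apply]
        exact (hr1' m (by omega)).1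
  refine ⟨fun m => toMod g (a1 m), ?_, ?_, ?_, ?_⟩
  · refine ⟨a1 1, rfl, ?_⟩
    intro j
    have h1 := hs.ha 1 (by omega) (FreeGroup.of j)
    rw [mk_hA] at h1
    exact h1
  · exact (hL1.map (toMod g)).congr (by omega) hct
  · intro i hi
    obtain ⟨E, hE⟩ := hK1 i hi
    exact ⟨_, (hE.map (toMod g)).congr (fun j h1 h2 => hct j (by omega)) (fun m _ _ => rfl)⟩
  · have h1 : ∃ z : orientedAut g, toMod g z = 1 ∧
        z * (cp c1 2 (2 * g - 2) * a1 (g - 1)) ^ (2 * g) = c1 0 * c1 0 := by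
      have h2 : (MulAut.conj y : MulAut (SurfaceGroup g)) ∈ orientedAut g := by
        have h3 : (MulAut.conj y : MulAut (SurfaceGroup g)) = c 0 * c 0 *
            ((cp c 2 (2 * g - 2) * a (g - 1)) ^ (2 * g))⁻¹ := by
          rw [← hy, mul_inv_cancel_right]
        rw [h3]
        refine mul_mem (mul_mem (hc 0) (hc 0)) (inv_mem (pow_mem (mul_mem ?_ (ha _)) _))
        have h4 := (cp c1 2 (2 * g - 2)).2
        have h5 := cp_map (orientedAut g).subtype c1 2 (2 * g - 2)
        have h6 : ((cp c1 2 (2 * g - 2) : orientedAut g) : MulAut (SurfaceGroup g)) =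
          cp c 2 (2 * g - 2) := h5
        rw [← h6]
        exact h4
      refine ⟨⟨MulAut.conj y, h2⟩, ?_, ?_⟩
      · refine (QuotientGroup.eq_one_iff _).2 ?_
        rw [innerAut, Subgroup.mem_subgroupOf]
        exact ⟨y, rfl⟩
      · apply (orientedAut g).subtype_injective
        rw [map_mul, map_pow, map_mul, cp_map, map_mul]
        exact hy
    obtain ⟨z, hz, h2⟩ := h1
    have h3 := congrArg (toMod g) h2
    rw [map_mul, map_pow, map_mul, cp_map, map_mul, hz, one_mul, hct 0 (by omega)] at h3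
    rw [← h3]
    congr 2
    exact (cp_congr _ _ (fun j h1 h2 => hct j (by omega))).symm

end Pool.Agent.N66.TA
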