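import Mathlib
import Pool.Agent.N66.TA.Tr
import Pool.Agent.N66.TA.Abs
import Pool.Agent.R665.MGR.Rep

set_option autoImplicit false

/-! Project TA: the representations of `Mod_g` of dimension less than `binom (g - 5) 2`. -/

namespace Pool.Agent.N66.TA

open Pool.Agent.H29R2.MG Pool.Agent.TH35.MG Pool.Agent.R352.MG Pool.Agent.R665.MGR Module

universe u

section
variable {g d : ℕ} {K : Type u} [Field K]

/-- the mapping class `y` acts trivially on `H_1(S; K)` -/
def TrivialOn (K : Type u) [Field K] {g : ℕ} (y : Mod g) : Prop :=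
  ∀ φ : orientedAut g, classOf g φ = y → ∀ (x : SurfaceGroup g) (j : Fin g ⊕ Fin g),
    ((homologyClass (φ.1 x) j - homologyClass x j : ℤ) : K) = 0

/-- the restriction of `f` to Humphries' group is the direct sum of a trivial representation `F`
and of copies `U_k` of `H_1(S; K)` -/
def SumOfHomologies (f : Mod g →* Matrix.GeneralLinearGroup (Fin d) K) : Prop :=
  ∃ (m : ℕ) (F : Submodule K (Fin d → K)) (U : Fin m → Submodule K (Fin d → K)),
    (∀ x ∈ Humphries g, ∀ v ∈ F, act f x v = v) ∧ (∀ k, IsHomology f ⊥ (U k)) ∧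
    iSupIndep U ∧ IsCompl F (⨆ k, U k)

/-- the group relations in `Mod_g` -/
def ModRel (g : ℕ) : Prop := ∃ a : ℕ → Mod g, IsTwistAt g 1 (a 1) ∧ LickRel g (tt g) a ∧
      (∀ i, i + 2 < g → ∃ D, KRel (tt g) a i D) ∧
      (cp (tt g) 2 (2 * g - 2) * a (g - 1)) ^ (2 * g) = tt g 0 * tt g 0

theorem main (L : Leaves.{u}) (hM : ModRel g) (hd : d < (g - 5).choose 2)
    (h2 : ((2 * g - 2 : ℕ) : K) ≠ 0) (f : Mod g →* Matrix.GeneralLinearGroup (Fin d) K) :
    SumOfHomologies f := by
  have hg := seven_le hd
  obtain ⟨a, hT, hL, hk, hc⟩ := hM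
  have r := rel hd f hT
  have h0 : (rho f (tt g 0) - 1) * (rho f (tt g 0) - 1) = 0 :=
    LinearMap.ext fun v => r.sq 0 (by omega) v
  have h1 : (rho f (a 1) - 1) * (rho f (tt g 0) - 1) = 0 :=
    LinearMap.ext fun v => r.farE 0 (by omega) (by omega) v
  have hR : GrpRel g (tt g) a := ⟨hL, hk, hc⟩
  have hO := L.orel g (Mod g) K (Fin d → K) (tt g) a (rho f) (by omega) hL h0 h1
  have D := decomp L (by omega) hR h2 (rho f) h0 h1
  obtain ⟨m, y, hy, hli, hsp⟩ := D.bas
  set v : Fin m × Fin (2 * g) → (Fin d → K) := fun p => wl (op (rho f) (tt g)) p.2 (y p.1)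
    with hv
  let U : Fin m → Submodule K (Fin d → K) := fun k => Submodule.span K (v '' {p | p.1 = k})
  refine ⟨m, V0 g (op (rho f) (tt g)) (op (rho f) a), U, ?_, ?_, ?_, ?_⟩
  · intro x hx w hw
    rw [← rho_apply]
    refine fix_Vinv hg f hT x hx w (mem_Vinv.2 ⟨fun j hj => hw.1 j hj, hw.2 1 (by omega)⟩)
  · intro k
    have hV := (L.bas g K _ _ _ (by omega) hO).1 (y k) (hy k)
    set w : ℕ → (Fin d → K) := fun j => wl (op (rho f) (tt g)) j (y k) with hw
    have hwU : ∀ j < 2 * g, w j ∈ U k := by
      intro j hj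
      exact Submodule.subset_span ⟨(k, ⟨j, hj⟩), rfl, rfl⟩
    have hal : alp (op (rho f) (tt g)) (op (rho f) a) 1 (y k) = 0 := D.al (y k) (hy k) 1 (by omega)
    have rr : RRel (2 * g) (fun j => rho f (tt g j) - 1) (rho f (a 1) - 1) ⊥ w := by
      refine ⟨?_, ?_, ?_, ?_, ?_⟩
      · intro j hj
        have h3 := hV.up j hj
        show op (rho f) (tt g) (j + 1) (w j) + w (j + 1) ∈ _
        rw [h3, neg_add_cancel]
        exact Submodule.zero_mem _
      · intro j hj
        have h3 := hV.dn j hj
        show op (rho f) (tt g) j (w (j + 1)) - w j ∈ _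
        rw [h3, sub_self]
        exact Submodule.zero_mem _
      · intro i hi j hj h3 h4
        have h5 := hV.fr i hi j hj h3 h4
        show op (rho f) (tt g) i (w j) ∈ _
        rw [h5]
        exact Submodule.zero_mem _
      · have h3 := hV.Ab 1 (by omega)
        show op (rho f) a 1 (w 3) - (w 0 + w 2) ∈ _
        have h4 : op (rho f) a 1 (w 3) = w 0 + w 2 := by
          refine h3.trans ?_
          rw [Finset.sum_range_succ, Finset.sum_range_one]
          show alp (op (rho f) (tt g)) (op (rho f) a) 1 (y k) + (w 0 + w 2) = _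
          rw [hal, zero_add]
        rw [h4, sub_self]
        exact Submodule.zero_mem _
      · intro j hj h3
        have h4 := hV.Aw 1 (by omega) j hj (by omega)
        show op (rho f) a 1 (w j) ∈ _
        rw [h4]
        exact Submodule.zero_mem _
    have wr : WRel (2 * g) (fun j => rho f (tt g j) - 1) (rho f (a 1) - 1) ⊥ (U k) w := by
      refine ⟨rr, hwU, ?_, ?_⟩
      · intro j hj h3
        exact hli.ne_zero (k, ⟨j, hj⟩) ((Submodule.mem_bot K).1 h3)
      · refine (Submodule.span_le.2 ?_).trans le_sup_right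
        rintro _ ⟨⟨k', j⟩, hk', rfl⟩
        have hk2 : k' = k := hk'
        subst hk2
        exact Submodule.subset_span ⟨j, j.2, rfl⟩
    have hb : Invariant f (⊥ : Submodule K (Fin d → K)) := by
      intro x _ v hv
      rw [(Submodule.mem_bot K).1 hv]
      unfold act
      rw [Matrix.mulVec_zero]
      exact Submodule.zero_mem _
    refine ⟨ub g w, ub_mem wr, span_ub wr, fun c hc => lin_indep wr (inv_to f hT hb) c hc, ?_⟩
    intro φ hφ x
    obtain ⟨ψ, hψ, h3⟩ := equiv_all hd f hT hb rr _ hφ
    have h4 := h3 x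
    rw [hc_class hψ x, rho_apply] at h4
    exact h4
  · rw [iSupIndep_def]
    intro k
    have h3 := hli.disjoint_span_image (s := {p | p.1 = k}) (t := {p | p.1 ≠ k})
      (Set.disjoint_left.2 fun p h4 h5 => h5 h4)
    refine h3.mono_right ?_
    refine iSup_le fun j => iSup_le fun hj => Submodule.span_mono (Set.image_mono ?_)
    rintro p hp
    have hp' : p.1 = j := hp
    show p.1 ≠ k
    rw [hp']
    exact hj
  · have h3 : (⨆ k, U k) = V1 g (op (rho f) (tt g)) (op (rho f) a) := by
      rw [hsp, ← Submodule.span_iUnion, ← Set.image_iUnion]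
      congr 1
      have : (⋃ k, {p : Fin m × Fin (2 * g) | p.1 = k}) = Set.univ := by
        ext p
        simp
      rw [this, Set.image_univ]
    rw [h3]
    exact D.compl

theorem comb_congrK {u : Fin g ⊕ Fin g → (Fin d → K)} {m n : Fin g ⊕ Fin g → ℤ}
    (h : ∀ j, ((m j - n j : ℤ) : K) = 0) : comb u m = comb u n := by
  unfold comb
  refine Finset.sum_congr rfl fun i _ => ?_
  have h1 := h i
  rw [Int.cast_sub, sub_eq_zero] at h1
  rw [h1]

theorem eq_one_of {f : Mod g →* Matrix.GeneralLinearGroup (Fin d) K} {y : Mod g}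
    (h : ∀ v, act f y v = v) : f y = 1 := by
  apply Units.ext
  apply Matrix.toLin'.injective
  apply LinearMap.ext
  intro v
  rw [Matrix.toLin'_apply, Units.val_one, Matrix.toLin'_one, LinearMap.id_apply]
  exact h v

/-- the kernel -/
theorem kernel {f : Mod g →* Matrix.GeneralLinearGroup (Fin d) K} (h : SumOfHomologies f) :
    (∀ y ∈ Humphries g, f y = 1) ∨ ∀ y ∈ Humphries g, (f y = 1 ↔ TrivialOn K y) := by
  obtain ⟨m, F, U, hF, hU, -, hc⟩ := h
  have hfix : ∀ y ∈ Humphries g, TrivialOn K y → f y = 1 := by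
    intro y hy ht
    apply eq_one_of
    intro v
    obtain ⟨φ, rfl⟩ : ∃ φ : orientedAut g, classOf g φ = y := QuotientGroup.mk_surjective y
    have hle : F ⊔ (⨆ k, U k) ≤ LinearMap.ker (rho f (classOf g φ) - 1) := by
      refine sup_le ?_ (iSup_le fun k => ?_)
      · intro w hw
        rw [LinearMap.mem_ker, LinearMap.sub_apply, Module.End.one_apply, rho_apply, hF _ hy w hw,
          sub_self]
      · obtain ⟨u, -, hsp, -, heq⟩ := hU k
        rw [bot_sup_eq] at hsp
        refine hsp.trans (Submodule.span_le.2 ?_)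
        rintro _ ⟨i, rfl⟩
        have h3 := (Submodule.mem_bot K).1 (heq φ hy (gen i))
        have h4 : comb u (homologyClass (applyAut g φ (gen i))) =
            comb u (homologyClass (gen i)) := comb_congrK fun j => ht φ rfl (gen i) j
        rw [h4, comb_gen] at h3
        show u i ∈ LinearMap.ker _
        rw [LinearMap.mem_ker, LinearMap.sub_apply, Module.End.one_apply, rho_apply]
        exact h3
    rw [hc.sup_eq_top] at hle
    have h5 := LinearMap.mem_ker.1 (hle (Submodule.mem_top (x := v)))
    rw [LinearMap.sub_apply, Module.End.one_apply, rho_apply, sub_eq_zero] at h5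
    exact h5
  rcases Nat.eq_zero_or_pos m with rfl | hm
  · left
    intro y hy
    apply eq_one_of
    intro v
    apply hF y hy
    have h3 : (⨆ k, U k) = ⊥ := by
      rw [iSup_of_empty]
    rw [h3] at hc
    have h4 := hc.sup_eq_top
    rw [sup_bot_eq] at h4
    rw [h4]
    exact Submodule.mem_top
  · right
    intro y hy
    refine ⟨?_, hfix y hy⟩
    intro h3 φ hφ x j
    obtain ⟨u, -, -, hind, heq⟩ := hU ⟨0, hm⟩
    have h4 := heq φ (hφ ▸ hy) x
    rw [hφ] at h4
    have h5 : act f y (comb u (homologyClass x)) = comb u (homologyClass x) := by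
      unfold act
      rw [h3, Units.val_one, Matrix.one_mulVec]
    rw [h5] at h4
    have h6 : comb u (homologyClass x) - comb u (homologyClass (applyAut g φ x)) =
        ∑ i, (((homologyClass x i : ℤ) : K) - (homologyClass (applyAut g φ x) i : ℤ)) • u i := by
      unfold comb
      rw [← Finset.sum_sub_distrib]
      refine Finset.sum_congr rfl fun i _ => ?_
      rw [sub_smul]
    rw [h6] at h4
    have h7 := congrFun (hind _ h4) j
    have h8 : ((homologyClass x j : ℤ) : K) - (homologyClass (applyAut g φ x) j : ℤ) = 0 := h7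
    rw [Int.cast_sub]
    have h9 : ((homologyClass (φ.1 x) j : ℤ) : K) = (homologyClass x j : ℤ) :=
      (sub_eq_zero.1 h8).symm
    rw [h9, sub_self]

end

end Pool.Agent.N66.TA
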