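import Mathlib
import Pool.Agent.N66.TA.Stm2
import Pool.Agent.TH35.MG.Rel
import Pool.Agent.H798R3.MG.Final

set_option autoImplicit false

/-! Project TA (helper66), leaf K0 (helper942): the relations of the handles `0, 1, 2`. -/

namespace Pool.Agent.N66.TA.K0

open Pool.Agent.N66.TA
open Pool.Agent.H29R2.MG Pool.Agent.H798R3.MG

section free
variable {g : ℕ}

theorem ends_fa (f h : ℕ → FG g → FG g) (m : Fin g) : ends g f h (fa m) = f m (fa m) := by
  unfold ends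
  conv_lhs => rw [fa]
  simp

theorem ends_fb (f h : ℕ → FG g → FG g) (m : Fin g) : ends g f h (fb m) = h m (fb m) := by
  unfold ends
  conv_lhs => rw [fb]
  simp

theorem ha_eq (m : Fin g) : ha g (m : ℕ) = fa m := by
  unfold ha; rw [dif_pos m.2]

theorem hb_eq (m : Fin g) : hb g (m : ℕ) = fb m := by
  unfold hb; rw [dif_pos m.2]

theorem hA_fa (i m : Fin g) : hA g (i : ℕ) (fa m) = fa m := by
  unfold hA; rw [ends_fa]

theorem hA_fb (i m : Fin g) : hA g (i : ℕ) (fb m) = if m = i then fb i * fa i else fb m := by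
  unfold hA; rw [ends_fb, ha_eq]
  by_cases h : m = i
  · subst h; simp
  · have : (m : ℕ) ≠ i := fun e => h (Fin.ext e)
    simp [h, this]

theorem hB_fa (i m : Fin g) : hB g (i : ℕ) (fa m) = if m = i then fa i * (fb i)⁻¹ else fa m := by
  unfold hB; rw [ends_fa, hb_eq]
  by_cases h : m = i
  · subst h; simp
  · have : (m : ℕ) ≠ i := fun e => h (Fin.ext e)
    simp [h, this]

theorem hB_fb (i m : Fin g) : hB g (i : ℕ) (fb m) = fb m := by
  unfold hB; rw [ends_fb]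

/-- `(A B A)^2` -/
def Rf (g i : ℕ) : FG g →* FG g :=
  ((hA g i).comp ((hB g i).comp (hA g i))).comp ((hA g i).comp ((hB g i).comp (hA g i)))

theorem Rf_apply (i : ℕ) (x : FG g) :
    Rf g i x = hA g i (hB g i (hA g i (hA g i (hB g i (hA g i x))))) := rfl

theorem Rf_fa (i m : Fin g) :
    Rf g (i : ℕ) (fa m) = if m = i then fb i * (fa i)⁻¹ * (fb i)⁻¹ else fa m := by
  rw [Rf_apply]
  by_cases h : m = i
  · subst h
    simp only [hA_fa, hA_fb, hB_fa, hB_fb, if_true, map_mul, map_inv]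
    group
  · simp only [hA_fa, hB_fa, if_neg h]

theorem Rf_fb (i m : Fin g) :
    Rf g (i : ℕ) (fb m) =
      if m = i then fb i * fa i * (fb i)⁻¹ * (fa i)⁻¹ * (fb i)⁻¹ else fb m := by
  rw [Rf_apply]
  by_cases h : m = i
  · subst h
    simp only [hA_fa, hA_fb, hB_fa, hB_fb, if_true, map_mul, map_inv]
    group
  · simp only [hA_fb, hB_fb, if_neg h]

theorem ends_fa' (f h : ℕ → FG g → FG g) (m : ℕ) (hm : m < g) :
    ends g f h (fa ⟨m, hm⟩) = f m (fa ⟨m, hm⟩) := ends_fa f h ⟨m, hm⟩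

theorem De_one (i : ℕ) : De g i (i + 1) = dd g i := by
  unfold De
  rw [Nat.add_sub_cancel_left]
  simp [List.range']

theorem dd_eq (i : ℕ) (h : i < g) : dd g i =
    fa ⟨i, h⟩ * fb ⟨i, h⟩ * (fa ⟨i, h⟩)⁻¹ * (fb ⟨i, h⟩)⁻¹ := by
  unfold dd
  rw [show ha g i = fa ⟨i, h⟩ from ha_eq (⟨i, h⟩ : Fin g),
    show hb g i = fb ⟨i, h⟩ from hb_eq (⟨i, h⟩ : Fin g)]

theorem hT_fa (i : ℕ) (h : i + 1 < g) (m : Fin g) :
    hT g i (i + 1) (fa m) = if m = ⟨i, by omega⟩ then (uT g i (i + 1))⁻¹ * fa m * uT g i (i + 1) else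
      if m = ⟨i + 1, h⟩ then (pT g i (i + 1))⁻¹ * fa m * pT g i (i + 1) else fa m := by
  unfold hT
  rw [ends_fa]
  simp only [Fin.ext_iff]

theorem hT_fb (i : ℕ) (h : i + 1 < g) (m : Fin g) :
    hT g i (i + 1) (fb m) = if m = ⟨i, by omega⟩ then fb m * uT g i (i + 1) else
      if m = ⟨i + 1, h⟩ then fb m * pT g i (i + 1) else fb m := by
  unfold hT
  rw [ends_fb]
  simp only [Fin.ext_iff]

theorem uT_eq (i : ℕ) (h : i + 1 < g) : uT g i (i + 1) =
    (fa ⟨i, by omega⟩ * fb ⟨i, by omega⟩ * (fa ⟨i, by omega⟩)⁻¹ * (fb ⟨i, by omega⟩)⁻¹) *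
      fa ⟨i + 1, h⟩ *
      (fa ⟨i, by omega⟩ * fb ⟨i, by omega⟩ * (fa ⟨i, by omega⟩)⁻¹ * (fb ⟨i, by omega⟩)⁻¹)⁻¹ *
      fa ⟨i, by omega⟩ := by
  unfold uT
  rw [De_one, dd_eq i (by omega), show ha g (i + 1) = fa ⟨i + 1, h⟩ from ha_eq (⟨i + 1, h⟩ : Fin g),
    show ha g i = fa ⟨i, by omega⟩ from ha_eq (⟨i, by omega⟩ : Fin g)]

theorem pT_eq (i : ℕ) (h : i + 1 < g) : pT g i (i + 1) =
    (fa ⟨i, by omega⟩ * fb ⟨i, by omega⟩ * (fa ⟨i, by omega⟩)⁻¹ * (fb ⟨i, by omega⟩)⁻¹)⁻¹ *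
      fa ⟨i, by omega⟩ *
      (fa ⟨i, by omega⟩ * fb ⟨i, by omega⟩ * (fa ⟨i, by omega⟩)⁻¹ * (fb ⟨i, by omega⟩)⁻¹) *
      fa ⟨i + 1, h⟩ := by
  unfold pT
  rw [De_one, dd_eq i (by omega), show ha g (i + 1) = fa ⟨i + 1, h⟩ from ha_eq (⟨i + 1, h⟩ : Fin g),
    show ha g i = fa ⟨i, by omega⟩ from ha_eq (⟨i, by omega⟩ : Fin g)]

theorem fv_even (i : ℕ) (h : i + 1 < g) :
    fv (g := g) ⟨2 * i + 2, by omega⟩ = stepE ⟨i + 1, h⟩ (fb ⟨i, by omega⟩ *
      (fa ⟨i, by omega⟩)⁻¹ * (fb ⟨i, by omega⟩)⁻¹ * fa ⟨i + 1, h⟩) := by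
  unfold fv
  have h1 : (((⟨2 * i + 2, by omega⟩ : Fin (2 * g)) : ℕ)) % 2 = 0 := by
    show (2 * i + 2) % 2 = 0
    omega
  rw [if_pos h1]
  have h2 : (⟨((⟨2 * i + 2, by omega⟩ : Fin (2 * g)) : ℕ) / 2, by
      show (2 * i + 2) / 2 < g; omega⟩ : Fin g) = ⟨i + 1, h⟩ := by
    apply Fin.ext
    show (2 * i + 2) / 2 = i + 1
    omega
  rw [h2]
  congr 1

theorem main_comp (i : ℕ) (h : i + 1 < g) :
    (Rf g i).comp (fv ⟨2 * i + 2, by omega⟩) = (hT g i (i + 1)).comp (Rf g i) := by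
  have ne1 : (⟨i + 1, h⟩ : Fin g) ≠ ⟨i, by omega⟩ := fun e => by
    have := Fin.ext_iff.1 e; simp at this
  have ne2 : (⟨i, by omega⟩ : Fin g) ≠ ⟨i + 1, h⟩ := fun e => ne1 e.symm
  have rfa : ∀ m : Fin g, Rf g i (fa m) = if m = ⟨i, by omega⟩ then
      fb ⟨i, by omega⟩ * (fa ⟨i, by omega⟩)⁻¹ * (fb ⟨i, by omega⟩)⁻¹ else fa m :=
    fun m => Rf_fa (⟨i, by omega⟩ : Fin g) m
  have rfb : ∀ m : Fin g, Rf g i (fb m) = if m = ⟨i, by omega⟩ then
      fb ⟨i, by omega⟩ * fa ⟨i, by omega⟩ * (fb ⟨i, by omega⟩)⁻¹ * (fa ⟨i, by omega⟩)⁻¹ *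
        (fb ⟨i, by omega⟩)⁻¹ else fb m :=
    fun m => Rf_fb (⟨i, by omega⟩ : Fin g) m
  rw [fv_even i h]
  apply free_ext
  · intro m
    rw [MonoidHom.comp_apply, MonoidHom.comp_apply, stepE_fa]
    by_cases h1 : m = ⟨i, by omega⟩
    · subst h1
      rw [if_neg ne2]
      simp only [rfa, rfb, hT_fa i h, hT_fb i h, map_mul, map_inv, if_true, if_neg ne1, if_neg ne2,
        uT_eq i h, pT_eq i h]
      group
    · by_cases h2 : m = ⟨i + 1, h⟩
      · subst h2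
        rw [if_pos rfl]
        simp only [rfa, rfb, hT_fa i h, hT_fb i h, map_mul, map_inv, if_true, if_neg ne1,
          if_neg ne2, uT_eq i h, pT_eq i h]
        group
      · rw [if_neg h2, rfa, if_neg h1, hT_fa i h, if_neg h1, if_neg h2]
  · intro m
    rw [MonoidHom.comp_apply, MonoidHom.comp_apply, stepE_fb]
    by_cases h1 : m = ⟨i, by omega⟩
    · subst h1
      rw [if_neg ne2, if_pos (by show i + 1 = i + 1; rfl)]
      simp only [rfa, rfb, hT_fa i h, hT_fb i h, map_mul, map_inv, if_true, if_neg ne1, if_neg ne2,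
        uT_eq i h, pT_eq i h]
      group
    · by_cases h2 : m = ⟨i + 1, h⟩
      · subst h2
        rw [if_pos rfl]
        simp only [rfa, rfb, hT_fa i h, hT_fb i h, map_mul, map_inv, if_true, if_neg ne1,
          if_neg ne2, uT_eq i h, pT_eq i h]
        group
      · have h3 : ¬ ((m : ℕ) + 1 = ((⟨i + 1, h⟩ : Fin g) : ℕ)) := fun e => h1 (Fin.ext (by
          have : (m : ℕ) + 1 = i + 1 := e
          show (m : ℕ) = i
          omega))
        rw [if_neg h2, if_neg h3, rfb, if_neg h1, hT_fb i h, if_neg h1, if_neg h2]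

end free

section surf
variable {g : ℕ}

/-- the automorphism of the surface group defined by an element of `orSub` -/
noncomputable def F (g : ℕ) : orSub g →* MulAut (SurfaceGroup g) :=
  (orientedAut g).subtype.comp (TQ.qh g)

theorem F_mk (φ : orSub g) (x : FG g) : F g φ (mk g x) = mk g ((φ : MulAut (FG g)) x) :=
  TQ.qe_mk φ x

theorem F_mem (φ : orSub g) : F g φ ∈ orientedAut g := (TQ.qh g φ).2

theorem mulAut_ext {φ ψ : MulAut (SurfaceGroup g)} (h : ∀ x : FG g, φ (mk g x) = ψ (mk g x)) :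
    φ = ψ := by
  apply MulEquiv.ext
  intro y
  obtain ⟨x, rfl⟩ := mk_surjective g y
  exact h x

theorem stepA_eq (m : ℕ) (h : m < g) :
    fv (g := g) ⟨2 * m + 1, by omega⟩ = hB g m := by
  unfold fv
  have h1 : ¬ ((((⟨2 * m + 1, by omega⟩ : Fin (2 * g)) : ℕ)) % 2 = 0) := by
    show ¬ ((2 * m + 1) % 2 = 0)
    omega
  rw [if_neg h1]
  have h2 : (⟨((⟨2 * m + 1, by omega⟩ : Fin (2 * g)) : ℕ) / 2, by
      show (2 * m + 1) / 2 < g; omega⟩ : Fin g) = ⟨m, h⟩ := by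
    apply Fin.ext
    show (2 * m + 1) / 2 = m
    omega
  rw [h2]
  apply free_ext
  · intro k
    rw [stepA_fa]
    have := hB_fa (⟨m, h⟩ : Fin g) k
    rw [show hB g m (fa k) = _ from this]
    by_cases h3 : k = ⟨m, h⟩
    · subst h3; simp
    · simp [h3]
  · intro k
    rw [stepA_fb]
    exact (hB_fb (⟨m, h⟩ : Fin g) k).symm

theorem F_hom {f f' : FG g →* FG g} (hf : OrOK g f f') (φ : MulAut (SurfaceGroup g))
    (h : IsEnd f φ) : F g (mkS g f f') = φ := by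
  apply mulAut_ext
  intro x
  rw [F_mk, mkS_apply hf, h x]

end surf

theorem t_K0 : S_K0 := by
  intro g c a hg hs
  have ctx : Ctx g 3 5 := ⟨by omega, by omega, by omega⟩
  have hk := whyp.k g 3 5 ctx.h2 ctx.hN ctx.hg
  -- the twists
  have hA : ∀ m < 3, F g (sA g m) = a m := fun m hm =>
    F_hom (hk.1 m hm).1 (a m) (hs.ha m (by omega))
  have hB : ∀ m < 3, F g (sB g m) = c (2 * m + 1) := by
    intro m hm
    apply F_hom (hk.1 m hm).2.1
    intro x
    rw [hs.hc (2 * m + 1) (by omega), sv_mk, stepA_eq m (by omega)]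
  have hT : ∀ i < 2, F g (sT g i (i + 1)) = TT c a i := by
    intro i hi
    have hok := hk.2.2 i (i + 1) (by omega) (by omega) (by omega)
    have hR : ∀ x : FG g, (Rw (a i) (c (2 * i + 1)) * Rw (a i) (c (2 * i + 1))) (mk g x) =
        mk g (Rf g i x) := by
      intro x
      have e1 : ∀ y : FG g, a i (mk g y) = mk g (Pool.Agent.H798R3.MG.hA g i y) :=
        hs.ha i (by omega)
      have e2 : ∀ y : FG g, c (2 * i + 1) (mk g y) = mk g (Pool.Agent.H798R3.MG.hB g i y) := by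
        intro y
        rw [hs.hc (2 * i + 1) (by omega), sv_mk, stepA_eq i (by omega)]
      unfold Rw
      simp only [MulAut.mul_apply, e1, e2]
      rfl
    have key : ∀ R : MulAut (SurfaceGroup g), (∀ x : FG g, R (mk g x) = mk g (Rf g i x)) →
        R * c (2 * i + 2) = F g (sT g i (i + 1)) * R := by
      intro R hR
      apply mulAut_ext
      intro x
      rw [MulAut.mul_apply, MulAut.mul_apply, hR, F_mk, hs.hc (2 * i + 2) (by omega), sv_mk, hR]
      have := DFunLike.congr_fun (main_comp i (by omega : i + 1 < g)) x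
      rw [MonoidHom.comp_apply, MonoidHom.comp_apply] at this
      rw [this]
      congr 1
      exact (mkS_apply hok _).symm
    unfold TT
    rw [key _ hR, mul_inv_cancel_right]
  have h1 := congrArg (F g) (Pool.Agent.TH35.MG.d_rel1 whyp ctx 0 (by omega))
  have h2 := congrArg (F g) (Pool.Agent.TH35.MG.d_rel2 whyp ctx 0 (by omega))
  have h3 := congrArg (F g) (Pool.Agent.TH35.MG.lantern_rel' whyp ctx 0 (by omega))
  simp only [Pool.Agent.TH35.MG.Sw, Pool.Agent.TH35.MG.Qw, Pool.Agent.TH35.MG.Rw, map_mul,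
    map_inv, zero_add] at h1 h2 h3
  have a0 := hA 0 (by omega)
  have a1 := hA 1 (by omega)
  have a2 := hA 2 (by omega)
  have b0 := hB 0 (by omega)
  have b1 := hB 1 (by omega)
  have b2 := hB 2 (by omega)
  have t0 := hT 0 (by omega)
  have t1 := hT 1 (by omega)
  simp only [zero_add, mul_zero, Nat.reduceMul, Nat.reduceAdd] at a0 a1 a2 b0 b1 b2 t0 t1
  simp only [Nat.reduceAdd, a0, a1, a2, b0, b1, b2, t0, t1] at h1 h2 h3
  refine ⟨F g (sT g 0 2), F_mem _, ?_, ?_, ?_⟩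
  · simp only [Si, Qi, Sw, Qw, Rw, zero_add, Nat.reduceMul, Nat.reduceAdd]
    exact h1
  · simp only [Si, Qi, Sw, Qw, Rw, zero_add, mul_zero, Nat.reduceMul, Nat.reduceAdd]
    exact h2
  · simp only [Li, zero_add, mul_zero, Nat.reduceMul, Nat.reduceAdd, mul_inv_rev]
    simp only [mul_inv_rev] at h3
    exact h3

end Pool.Agent.N66.TA.K0
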