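import Pool.Agent.N66.TA.Stm2

set_option autoImplicit false

/-! Project TA, leaf ROT: the rotation of the surface group (helper826). -/

namespace Pool.Agent.N66.TA.ROT

open Pool.Agent.N66.TA Pool.Agent.H29R2.MG Pool.Agent.H798R3.MG

section
variable {n : ℕ}

/-- the rotation of the indices -/
def sg (n : ℕ) : Equiv.Perm (Fin (n + 1)) := finRotate (n + 1)

theorem sg_last : sg n (Fin.last n) = 0 := finRotate_last

theorem sg_lt (i : Fin (n + 1)) (h : (i : ℕ) + 1 < n + 1) : (sg n i : ℕ) = i + 1 := by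
  unfold sg
  exact coe_finRotate_of_ne_last (fun e => by
    rw [e, Fin.val_last] at h
    omega)

theorem sg_val (i : Fin (n + 1)) : (sg n i : ℕ) = if (i : ℕ) = n then 0 else (i : ℕ) + 1 := by
  by_cases h : (i : ℕ) = n
  · have e : i = Fin.last n := Fin.ext h
    rw [if_pos h, e, sg_last]
    rfl
  · rw [if_neg h]
    exact sg_lt i (by have := i.2; omega)

/-- the rotation of the free group -/
def rh (n : ℕ) : FG (n + 1) →* FG (n + 1) := FreeGroup.map (Sum.map (sg n) (sg n))

/-- the inverse rotation of the free group -/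
def rh' (n : ℕ) : FG (n + 1) →* FG (n + 1) := FreeGroup.map (Sum.map (sg n).symm (sg n).symm)

theorem rh_fa (i : Fin (n + 1)) : rh n (fa i) = fa (sg n i) := by
  simp [rh, fa]

theorem rh_fb (i : Fin (n + 1)) : rh n (fb i) = fb (sg n i) := by
  simp [rh, fb]

theorem rh'_fa (i : Fin (n + 1)) : rh' n (fa i) = fa ((sg n).symm i) := by
  simp [rh', fa]

theorem rh'_fb (i : Fin (n + 1)) : rh' n (fb i) = fb ((sg n).symm i) := by
  simp [rh', fb]

theorem rh_rh' : (rh n).comp (rh' n) = MonoidHom.id _ := by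
  apply free_ext
  · intro i
    rw [MonoidHom.comp_apply, rh'_fa, rh_fa, Equiv.apply_symm_apply]
    rfl
  · intro i
    rw [MonoidHom.comp_apply, rh'_fb, rh_fb, Equiv.apply_symm_apply]
    rfl

theorem rh'_rh : (rh' n).comp (rh n) = MonoidHom.id _ := by
  apply free_ext
  · intro i
    rw [MonoidHom.comp_apply, rh_fa, rh'_fa, Equiv.symm_apply_apply]
    rfl
  · intro i
    rw [MonoidHom.comp_apply, rh_fb, rh'_fb, Equiv.symm_apply_apply]
    rfl

/-- the commutator `[a_i, b_i]` -/
def dc (i : Fin (n + 1)) : FG (n + 1) :=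
  FreeGroup.of (Sum.inl i) * FreeGroup.of (Sum.inr i) *
      (FreeGroup.of (Sum.inl i))⁻¹ * (FreeGroup.of (Sum.inr i))⁻¹

theorem rh_dc (i : Fin (n + 1)) : rh n (dc i) = dc (sg n i) := by
  have h1 := rh_fa i
  have h2 := rh_fb i
  unfold fa at h1
  unfold fb at h2
  unfold dc
  rw [map_mul, map_mul, map_mul, map_inv, map_inv, h1, h2]

theorem rel_eq : surfaceRelator (n + 1) = (List.ofFn (fun i : Fin (n + 1) => dc i)).prod := rfl

theorem rh_rel : rh n (surfaceRelator (n + 1)) =
    (dc 0)⁻¹ * surfaceRelator (n + 1) * dc 0 := by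
  rw [rel_eq, map_list_prod, List.map_ofFn, List.ofFn_succ_last, List.prod_append,
    List.prod_singleton, List.ofFn_succ, List.prod_cons]
  simp only [Function.comp_apply, rh_dc, sg_last]
  have e : (fun i : Fin n => dc (sg n (Fin.castSucc i))) = fun i : Fin n => dc i.succ := by
    funext i
    congr 1
    apply Fin.ext
    rw [sg_lt _ (by rw [Fin.val_castSucc]; omega)]
    rfl
  rw [e]
  group

theorem rh'_rel : rh' n (surfaceRelator (n + 1)) =
    rh' n (dc 0) * surfaceRelator (n + 1) * (rh' n (dc 0))⁻¹ := by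
  have h1 := congrArg (rh' n) (rh_rel (n := n))
  have h2 := DFunLike.congr_fun (rh'_rh (n := n)) (surfaceRelator (n + 1))
  rw [MonoidHom.comp_apply, MonoidHom.id_apply] at h2
  rw [h2, map_mul, map_mul, map_inv] at h1
  calc rh' n (surfaceRelator (n + 1)) = rh' n (dc 0) * ((rh' n (dc 0))⁻¹ *
        rh' n (surfaceRelator (n + 1)) * rh' n (dc 0)) * (rh' n (dc 0))⁻¹ := by group
    _ = rh' n (dc 0) * surfaceRelator (n + 1) * (rh' n (dc 0))⁻¹ := by rw [← h1]

theorem mk_rh_rel : (mk (n + 1)).comp (rh n) (surfaceRelator (n + 1)) = 1 := by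
  rw [MonoidHom.comp_apply, rh_rel, map_mul, map_mul, map_inv, mk_relator]
  group

theorem mk_rh'_rel : (mk (n + 1)).comp (rh' n) (surfaceRelator (n + 1)) = 1 := by
  rw [MonoidHom.comp_apply, rh'_rel, map_mul, map_mul, map_inv, mk_relator]
  group

/-- the rotation of the surface group -/
def rr (n : ℕ) : MulAut (SurfaceGroup (n + 1)) :=
  MonoidHom.toMulEquiv (outHom ((mk (n + 1)).comp (rh n)) mk_rh_rel)
    (outHom ((mk (n + 1)).comp (rh' n)) mk_rh'_rel)
    (by
      refine MonoidHom.ext ?_
      intro y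
      obtain ⟨x, rfl⟩ := mk_surjective (n + 1) y
      rw [MonoidHom.comp_apply, outHom_mk, MonoidHom.comp_apply, outHom_mk, MonoidHom.comp_apply]
      have := DFunLike.congr_fun (rh'_rh (n := n)) x
      rw [MonoidHom.comp_apply] at this
      rw [this]
      rfl)
    (by
      refine MonoidHom.ext ?_
      intro y
      obtain ⟨x, rfl⟩ := mk_surjective (n + 1) y
      rw [MonoidHom.comp_apply, outHom_mk, MonoidHom.comp_apply, outHom_mk, MonoidHom.comp_apply]
      have := DFunLike.congr_fun (rh_rh' (n := n)) x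
      rw [MonoidHom.comp_apply] at this
      rw [this]
      rfl)

theorem rr_mk (x : FG (n + 1)) : rr n (mk (n + 1) x) = mk (n + 1) (rh n x) :=
  outHom_mk _ mk_rh_rel x

theorem hc_rr (y : SurfaceGroup (n + 1)) : homologyClass (rr n y) =
    fun j => homologyClass y (Sum.map (sg n).symm (sg n).symm j) := by
  obtain ⟨x, rfl⟩ := mk_surjective (n + 1) y
  induction x using FreeGroup.induction_on with
  | C1 =>
    rw [map_one, map_one, hc_one]
    rfl
  | of j =>
    rcases j with m | m
    · have h1 := rr_mk (fa m)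
      have h2 := hc_fa m
      rw [rh_fa] at h1
      have h3 := hc_fa (sg n m)
      unfold fa at h1 h2 h3
      rw [h1, h2, h3]
      funext j
      rcases j with i | i
      · simp only [Sum.map_inl, Pi.single_apply, Sum.inl.injEq]
        congr 1
        rw [eq_iff_iff]
        exact (Equiv.symm_apply_eq _).symm
      · simp
    · have h1 := rr_mk (fb m)
      have h2 := hc_fb m
      rw [rh_fb] at h1
      have h3 := hc_fb (sg n m)
      unfold fb at h1 h2 h3
      rw [h1, h2, h3]
      funext j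
      rcases j with i | i
      · simp
      · simp only [Sum.map_inr, Pi.single_apply, Sum.inr.injEq]
        congr 1
        rw [eq_iff_iff]
        exact (Equiv.symm_apply_eq _).symm
  | inv_of j h =>
    rw [map_inv, map_inv, hc_inv, h, hc_inv]
    rfl
  | mul x y hx hy =>
    rw [map_mul, map_mul, hc_mul, hx, hy, hc_mul]
    rfl

theorem rr_pres : PreservesForm (rr n) := by
  intro x y
  rw [hc_rr, hc_rr]
  unfold intersectionForm
  simp only [Sum.map_inl, Sum.map_inr]
  exact Equiv.sum_comp (sg n).symm (fun i => homologyClass x (Sum.inl i) *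
    homologyClass y (Sum.inr i) - homologyClass x (Sum.inr i) * homologyClass y (Sum.inl i))

/-- commutation from the free group -/
theorem rr_comm {f f' : FG (n + 1) →* FG (n + 1)} {φ φ' : MulAut (SurfaceGroup (n + 1))}
    (h : IsEnd f φ) (h' : IsEnd f' φ') (hf : (rh n).comp f = f'.comp (rh n)) :
    rr n * φ = φ' * rr n := by
  apply MulEquiv.ext
  intro y
  obtain ⟨x, rfl⟩ := mk_surjective (n + 1) y
  rw [MulAut.mul_apply, MulAut.mul_apply, h, rr_mk, rr_mk, h']
  congr 1
  exact DFunLike.congr_fun hf x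

theorem rh_stepA (i : Fin (n + 1)) (x : FG (n + 1)) :
    (rh n).comp (stepA i x) = (stepA (sg n i) (rh n x)).comp (rh n) := by
  apply free_ext
  · intro m
    rw [MonoidHom.comp_apply, MonoidHom.comp_apply, stepA_fa, rh_fa, stepA_fa]
    by_cases h : m = i
    · rw [if_pos h, if_pos (congrArg (sg n) h), map_mul, map_inv, rh_fa]
    · rw [if_neg h, if_neg (fun e => h ((sg n).injective e)), rh_fa]
  · intro m
    rw [MonoidHom.comp_apply, MonoidHom.comp_apply, stepA_fb, rh_fb, stepA_fb]

theorem rh_stepE (i : Fin (n + 1)) (x : FG (n + 1)) (h0 : 0 < (i : ℕ))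
    (h1 : (i : ℕ) + 1 < n + 1) :
    (rh n).comp (stepE i x) = (stepE (sg n i) (rh n x)).comp (rh n) := by
  apply free_ext
  · intro m
    rw [MonoidHom.comp_apply, MonoidHom.comp_apply, stepE_fa, rh_fa, stepE_fa]
    by_cases h : m = i
    · rw [if_pos h, if_pos (congrArg (sg n) h), map_mul, map_mul, map_inv, rh_fa]
    · rw [if_neg h, if_neg (fun e => h ((sg n).injective e)), rh_fa]
  · intro m
    rw [MonoidHom.comp_apply, MonoidHom.comp_apply, stepE_fb, rh_fb, stepE_fb]
    by_cases h : m = i
    · rw [if_pos h, if_pos (congrArg (sg n) h), map_mul, rh_fb]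
    · rw [if_neg h, if_neg (fun e => h ((sg n).injective e))]
      have h2 : ((sg n m : ℕ) + 1 = (sg n i : ℕ)) ↔ ((m : ℕ) + 1 = (i : ℕ)) := by
        rw [sg_val, sg_lt i h1]
        have := m.2
        have := i.2
        split_ifs with h3
        · constructor
          · intro h4
            omega
          · intro h4
            omega
        · constructor
          · intro h4
            omega
          · intro h4
            omega
      by_cases h3 : (m : ℕ) + 1 = i
      · rw [if_pos h3, if_pos (h2.2 h3), map_mul, map_inv, rh_fb]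
      · rw [if_neg h3, if_neg (fun e => h3 (h2.1 e)), rh_fb]

theorem rh_ee (i : Fin (n + 1)) (h0 : 0 < (i : ℕ)) (h1 : (i : ℕ) + 1 < n + 1) :
    rh n (ee i) = ee (sg n i) := by
  have hs := sg_lt i h1
  have e : sg n ⟨(i : ℕ) - 1, by omega⟩ = ⟨(sg n i : ℕ) - 1, by omega⟩ := by
    apply Fin.ext
    rw [sg_lt _ (by simp only; omega)]
    simp only
    omega
  unfold ee
  rw [dif_pos h0, dif_pos (by omega), map_mul, map_mul, map_mul, map_inv, map_inv, rh_fa, rh_fa,
    rh_fb, e]

theorem rh_ha (m : ℕ) (h : m + 1 < n + 1) : rh n (ha (n + 1) m) = ha (n + 1) (m + 1) := by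
  unfold ha
  rw [dif_pos (by omega), dif_pos h, rh_fa]
  congr 1
  apply Fin.ext
  rw [sg_lt _ h]

theorem hA_fa (m : ℕ) (i : Fin (n + 1)) : hA (n + 1) m (fa i) = fa i := by
  conv_lhs => rw [fa]
  simp [hA, ends]

theorem hA_fb (m : ℕ) (i : Fin (n + 1)) :
    hA (n + 1) m (fb i) = if (i : ℕ) = m then fb i * ha (n + 1) m else fb i := by
  conv_lhs => rw [fb]
  simp [hA, ends]

theorem rh_hA (m : ℕ) (h : m + 1 < n + 1) :
    (rh n).comp (hA (n + 1) m) = (hA (n + 1) (m + 1)).comp (rh n) := by
  apply free_ext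
  · intro i
    rw [MonoidHom.comp_apply, MonoidHom.comp_apply, hA_fa, rh_fa, hA_fa]
  · intro i
    rw [MonoidHom.comp_apply, MonoidHom.comp_apply, hA_fb, rh_fb, hA_fb]
    have h2 : ((sg n i : ℕ) = m + 1) ↔ ((i : ℕ) = m) := by
      rw [sg_val]
      have h5 := i.2
      by_cases h3 : (i : ℕ) = n
      · rw [if_pos h3]
        constructor
        · intro h4
          omega
        · intro h4
          exfalso
          rw [h3] at h4
          omega
      · rw [if_neg h3]
        constructor
        · intro h4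
          omega
        · intro h4
          rw [h4]
    by_cases h3 : (i : ℕ) = m
    · rw [if_pos h3, if_pos (h2.2 h3), map_mul, rh_fb, rh_ha m h]
    · rw [if_neg h3, if_neg (fun e => h3 (h2.1 e)), rh_fb]

end

theorem t_ROT : S_ROT := by
  intro g c a hg hS
  obtain ⟨n, rfl⟩ : ∃ n, g = n + 1 := ⟨g - 1, by omega⟩
  refine ⟨rr n, rr_pres, ?_, ?_⟩
  · intro m hm
    refine ⟨rr_comm (hS.ha m (by omega)) (hS.ha (m + 1) hm) (rh_hA m hm), ?_⟩
    rw [hS.hc (2 * m + 1) (by omega), hS.hc (2 * m + 3) (by omega)]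
    refine rr_comm (f := fv ⟨2 * m + 1, by omega⟩) (f' := fv ⟨2 * m + 3, by omega⟩)
      (fun x => sv_mk _ x) (fun x => sv_mk _ x) ?_
    have e1 : fv (g := n + 1) ⟨2 * m + 1, by omega⟩ =
        stepA ⟨m, by omega⟩ (fb ⟨m, by omega⟩) := by
      unfold fv
      rw [if_neg (by simp only; omega)]
      have : (2 * m + 1) / 2 = m := by omega
      simp only [this]
    have e2 : fv (g := n + 1) ⟨2 * m + 3, by omega⟩ =
        stepA ⟨m + 1, by omega⟩ (fb ⟨m + 1, by omega⟩) := by
      unfold fv
      rw [if_neg (by simp only; omega)]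
      have : (2 * m + 3) / 2 = m + 1 := by omega
      simp only [this]
    have e3 : sg n ⟨m, by omega⟩ = ⟨m + 1, by omega⟩ := Fin.ext (sg_lt _ (by simpa using hm))
    rw [e1, e2, rh_stepA, rh_fb, e3]
  · intro m hm
    rw [hS.hc (2 * m + 2) (by omega), hS.hc (2 * m + 4) (by omega)]
    refine rr_comm (f := fv ⟨2 * m + 2, by omega⟩) (f' := fv ⟨2 * m + 4, by omega⟩)
      (fun x => sv_mk _ x) (fun x => sv_mk _ x) ?_
    have e1 : fv (g := n + 1) ⟨2 * m + 2, by omega⟩ =
        stepE ⟨m + 1, by omega⟩ (ee ⟨m + 1, by omega⟩) := by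
      unfold fv
      rw [if_pos (by simp only; omega)]
      have : (2 * m + 2) / 2 = m + 1 := by omega
      simp only [this]
    have e2 : fv (g := n + 1) ⟨2 * m + 4, by omega⟩ =
        stepE ⟨m + 2, by omega⟩ (ee ⟨m + 2, by omega⟩) := by
      unfold fv
      rw [if_pos (by simp only; omega)]
      have : (2 * m + 4) / 2 = m + 2 := by omega
      simp only [this]
    have e3 : sg n ⟨m + 1, by omega⟩ = ⟨m + 2, by omega⟩ := Fin.ext (sg_lt _ (by simp only; omega))
    rw [e1, e2, rh_stepE _ _ (by simp only; omega) (by simp only; omega),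
      rh_ee _ (by simp only; omega) (by simp only; omega), e3]

end Pool.Agent.N66.TA.ROT
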