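import Mathlib
import Pool.Agent.N66.TA.Fin
import Pool.Agent.N66.TA.OREL
import Pool.Agent.N66.TA.BAS
import Pool.Agent.N66.TA.CLO
import Pool.Agent.N66.TA.DD
import Pool.Agent.N66.TA.UZ
import Pool.Agent.N66.TA.DEC
import Pool.Agent.N66.TA.DUA
import Pool.Agent.N66.TA.EX
import Pool.Agent.N66.TA.ART
import Pool.Agent.N66.TA.ROT
import Pool.Agent.N66.TA.K0
import Pool.Agent.N66.TA.CL

set_option autoImplicit false

/-! Project TA: the main theorem. -/

namespace Pool.Agent.N66.TA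

open Pool.Agent.H29R2.MG Pool.Agent.TH35.MG Pool.Agent.R352.MG Pool.Agent.R665.MGR Module

universe u

theorem leaves : Leaves.{u} :=
  ⟨OREL.t_OREL, BAS.t_BAS, CLO.t_CLO, DD.t_DD, UZ.t_UZ, DEC.t_DEC, DUA.t_DUA⟩

theorem modRel {g : ℕ} (hg : 6 ≤ g) : ModRel g :=
  mod_rel EX.t_EX ART.t_ART ROT.t_ROT K0.t_K0 CL.t_CL hg

theorem sum_of_homologies {g d : ℕ} {K : Type u} [Field K] (hd : d < (g - 5).choose 2)
    (h2 : ((2 * g - 2 : ℕ) : K) ≠ 0) (f : Mod g →* Matrix.GeneralLinearGroup (Fin d) K) :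
    SumOfHomologies f := by
  have hg := seven_le hd
  exact main leaves (modRel (by omega)) hd h2 f

end Pool.Agent.N66.TA
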